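import Mathlib

/-!
# Bianchi orbifolds, singular cohomology, and Galois representations of an imaginary quadratic field

* `O = ℤ[i]`, `K = ℚ(i)`.
* `H3`: hyperbolic 3-space with its action of `GL₂(ℂ)`.
* `Gamma0 𝔑`, `Y0 𝔑`: the congruence subgroup of `GL₂(ℤ[i])` and the quotient space.
* `HOne Y F`: the first singular cohomology group of a topological space `Y` with coefficients `F`.
* Galois representations: `IsContinuous`, `IsIrreducible`, `RamSet`, `ConductorExponent`,
  `IsSerreConductor`, `IsUnramifiedAboveThree`.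
-/

set_option autoImplicit false

open Matrix
open scoped ComplexOrder

namespace Q276.SM

/-- The ring `ℤ[i]` of Gaussian integers. -/
abbrev O : Type := GaussianInt

/-- The field `ℚ(i)`, the fraction field of `ℤ[i]`. -/
abbrev K : Type := FractionRing GaussianInt

/-! ## Hyperbolic space and its quotients -/

/-- Hyperbolic 3-space: positive definite hermitian `2 × 2` matrices of determinant `1`.  (The point
`(z, t)` of the upper half space corresponds to `t⁻¹ [[|z|² + t², z], [conj z, 1]]`.) -/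
def H3 : Type := {h : Matrix (Fin 2) (Fin 2) ℂ // h.PosDef ∧ h.det = 1}

instance : TopologicalSpace H3 := inferInstanceAs (TopologicalSpace {h : Matrix (Fin 2) (Fin 2) ℂ //
  h.PosDef ∧ h.det = 1})

theorem act_mem (g : GL (Fin 2) ℂ) (h : H3) :
    (((‖g.det.val‖⁻¹ : ℝ) : ℂ) • (g.val * h.1 * g.valᴴ)).PosDef ∧
    (((‖g.det.val‖⁻¹ : ℝ) : ℂ) • (g.val * h.1 * g.valᴴ)).det = 1 := by
  have hd : g.val.det ≠ 0 := g.det.ne_zero
  have hn : 0 < ‖g.val.det‖ := norm_pos_iff.2 hd
  constructor
  · refine Matrix.PosDef.smul ?_ ?_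
    · refine h.2.1.mul_mul_conjTranspose_same ?_
      rw [Matrix.vecMul_injective_iff_isUnit]
      exact g.isUnit
    · have : 0 < ‖g.val.det‖⁻¹ := inv_pos.2 hn
      exact_mod_cast this
  · rw [Matrix.det_smul, Matrix.det_mul, Matrix.det_mul, h.2.2, Matrix.det_conjTranspose,
      Fintype.card_fin, mul_one]
    change (((‖g.val.det‖⁻¹ : ℝ) : ℂ)) ^ 2 * (g.val.det * star g.val.det) = 1
    have h2 : g.val.det * star g.val.det = ((‖g.val.det‖ ^ 2 : ℝ) : ℂ) := by
      rw [Complex.star_def, Complex.mul_conj, Complex.normSq_eq_norm_sq]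
    rw [h2, ← Complex.ofReal_pow, ← Complex.ofReal_mul, ← Complex.ofReal_one]
    congr 1
    field_simp

/-- The action of `GL₂(ℂ)` on hyperbolic space: `g • h = |det g|⁻¹ g h g*`. -/
noncomputable def act (g : GL (Fin 2) ℂ) (h : H3) : H3 :=
  ⟨((‖g.det.val‖⁻¹ : ℝ) : ℂ) • (g.val * h.1 * g.valᴴ), act_mem g h⟩

theorem act_one (h : H3) : act 1 h = h := by
  apply Subtype.ext
  change ((‖(1 : GL (Fin 2) ℂ).det.val‖⁻¹ : ℝ) : ℂ) • ((1 : GL (Fin 2) ℂ).val * h.1 *
    (1 : GL (Fin 2) ℂ).valᴴ) = h.1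
  simp

theorem act_act (g g' : GL (Fin 2) ℂ) (h : H3) : act (g * g') h = act g (act g' h) := by
  apply Subtype.ext
  change ((‖(g * g').det.val‖⁻¹ : ℝ) : ℂ) • ((g * g').val * h.1 * (g * g').valᴴ) =
    ((‖g.det.val‖⁻¹ : ℝ) : ℂ) • (g.val * (((‖g'.det.val‖⁻¹ : ℝ) : ℂ) •
      (g'.val * h.1 * g'.valᴴ)) * g.valᴴ)
  rw [Units.val_mul, Matrix.conjTranspose_mul, map_mul, Units.val_mul, norm_mul, mul_inv,
    Complex.ofReal_mul, Matrix.mul_smul, Matrix.smul_mul, smul_smul]
  simp only [Matrix.mul_assoc]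

noncomputable instance : MulAction (GL (Fin 2) ℂ) H3 where
  smul := act
  one_smul := act_one
  mul_smul := act_act

theorem g0_mul (N : Ideal O) {a b : GL (Fin 2) O} (ha : a 1 0 ∈ N) (hb : b 1 0 ∈ N) :
    (a * b) 1 0 ∈ N := by
  change (a.val * b.val) 1 0 ∈ N
  rw [Matrix.mul_apply, Fin.sum_univ_two]
  exact N.add_mem (N.mul_mem_right _ ha) (N.mul_mem_left _ hb)

theorem g0_one (N : Ideal O) : (1 : GL (Fin 2) O) 1 0 ∈ N := by
  change (1 : Matrix (Fin 2) (Fin 2) O) 1 0 ∈ N
  simp

theorem g0_inv (N : Ideal O) {a : GL (Fin 2) O} (ha : a 1 0 ∈ N) : a⁻¹ 1 0 ∈ N := by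
  change a⁻¹.val 1 0 ∈ N
  rw [Matrix.coe_units_inv, Matrix.inv_def, Matrix.adjugate_fin_two, Matrix.smul_apply,
    Matrix.of_apply]
  simp only [Matrix.cons_val', Matrix.cons_val_zero, Matrix.cons_val_one, Matrix.cons_val_fin_one,
    smul_eq_mul]
  exact N.mul_mem_left _ (N.neg_mem ha)

/-- `Γ₀(𝔑)`, the matrices of `GL₂(ℤ[i])` whose lower left entry lies in `𝔑`. -/
def Gamma0 (N : Ideal O) : Subgroup (GL (Fin 2) O) where
  carrier := {g | g 1 0 ∈ N}
  mul_mem' := g0_mul N
  one_mem' := g0_one N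
  inv_mem' := g0_inv N

/-- The group homomorphism `GL₂(ℤ[i]) → GL₂(ℂ)`. -/
noncomputable def toC : GL (Fin 2) O →* GL (Fin 2) ℂ :=
  Matrix.GeneralLinearGroup.map GaussianInt.toComplex

/-- Two points of hyperbolic space are equivalent if some element of `Γ₀(𝔑)` maps one to the
other. -/
def orbRel (N : Ideal O) (x y : H3) : Prop := ∃ γ ∈ Gamma0 N, toC γ • x = y

theorem orbRel_equiv (N : Ideal O) : Equivalence (orbRel N) :=
  ⟨fun x => ⟨1, one_mem _, by simp⟩,
    fun {x y} ⟨γ, h, e⟩ => ⟨γ⁻¹, inv_mem h, by rw [← e, map_inv, inv_smul_smul]⟩,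
    fun {x y z} ⟨γ, h, e⟩ ⟨δ, h', e'⟩ => ⟨δ * γ, mul_mem h' h, by rw [map_mul, mul_smul, e, e']⟩⟩

/-- Equivalence under `Γ₀(𝔑)`. -/
def orbitSetoid (N : Ideal O) : Setoid H3 := ⟨orbRel N, orbRel_equiv N⟩

/-- The quotient space `Y₀(𝔑) = Γ₀(𝔑) \ H3`. -/
def Y0 (N : Ideal O) : Type := Quotient (orbitSetoid N)

instance (N : Ideal O) : TopologicalSpace (Y0 N) :=
  inferInstanceAs (TopologicalSpace (Quotient (orbitSetoid N)))

/-! ## Singular cohomology -/

/-- The `i`-th face map of the standard 2-simplex, opposite to the vertex `i`. -/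
noncomputable def face (i : Fin 3) : C(stdSimplex ℝ (Fin 2), stdSimplex ℝ (Fin 3)) :=
  ⟨stdSimplex.map i.succAbove, stdSimplex.continuous_map _⟩

/-- The functions on the singular 1-simplices of `Y` with values in `F`. -/
def Cochain (Y : Type) [TopologicalSpace Y] (F : Type) : Type := C(stdSimplex ℝ (Fin 2), Y) → F

instance (Y : Type) [TopologicalSpace Y] (F : Type) [Field F] : AddCommGroup (Cochain Y F) :=
  Pi.addCommGroup

instance (Y : Type) [TopologicalSpace Y] (F : Type) [Field F] : Module F (Cochain Y F) :=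
  Pi.Function.module _ _ _

/-- `φ` is a singular 1-cocycle: a function on the singular 1-simplices of `Y` that vanishes on the
boundaries of the singular 2-simplices. -/
def IsCoc (Y : Type) [TopologicalSpace Y] (F : Type) [Field F] (φ : Cochain Y F) : Prop :=
  ∀ σ : C(stdSimplex ℝ (Fin 3), Y),
    φ (σ.comp (face 0)) - φ (σ.comp (face 1)) + φ (σ.comp (face 2)) = 0

/-- `φ` is a singular 1-coboundary: `φ τ = ψ(τ(e₁)) - ψ(τ(e₀))` for a function `ψ` on `Y`. -/
def IsCob (Y : Type) [TopologicalSpace Y] (F : Type) [Field F] (φ : Cochain Y F) : Prop :=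
  ∃ ψ : Y → F, ∀ τ : C(stdSimplex ℝ (Fin 2), Y),
    φ τ = ψ (τ (stdSimplex.vertex 1)) - ψ (τ (stdSimplex.vertex 0))

section Closure
variable (Y : Type) [TopologicalSpace Y] (F : Type) [Field F]

theorem coc_add {a b : Cochain Y F} (ha : IsCoc Y F a) (hb : IsCoc Y F b) :
    IsCoc Y F (a + b) := by
  intro σ
  change (a _ + b _) - (a _ + b _) + (a _ + b _) = 0
  linear_combination ha σ + hb σ

theorem coc_zero : IsCoc Y F 0 := by
  intro σ
  change (0 : F) - 0 + 0 = 0
  ring

theorem coc_smul (c : F) {a : Cochain Y F} (ha : IsCoc Y F a) : IsCoc Y F (c • a) := by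
  intro σ
  change c * a _ - c * a _ + c * a _ = 0
  linear_combination c * ha σ

theorem cob_add {a b : Cochain Y F} (ha : IsCob Y F a) (hb : IsCob Y F b) :
    IsCob Y F (a + b) := by
  obtain ⟨f, hf⟩ := ha
  obtain ⟨g, hg⟩ := hb
  refine ⟨f + g, fun τ => ?_⟩
  change a τ + b τ = (f _ + g _) - (f _ + g _)
  rw [hf, hg]; ring

theorem cob_zero : IsCob Y F 0 := by
  refine ⟨0, fun τ => ?_⟩
  change (0 : F) = 0 - 0
  ring

theorem cob_smul (c : F) {a : Cochain Y F} (ha : IsCob Y F a) : IsCob Y F (c • a) := by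
  obtain ⟨f, hf⟩ := ha
  refine ⟨c • f, fun τ => ?_⟩
  change c * a τ = c * f _ - c * f _
  rw [hf]; ring

end Closure

/-- Singular 1-cocycles of `Y` with values in `F`. -/
def Cocycles (Y : Type) [TopologicalSpace Y] (F : Type) [Field F] : Submodule F (Cochain Y F) where
  carrier := {φ | IsCoc Y F φ}
  add_mem' := coc_add Y F
  zero_mem' := coc_zero Y F
  smul_mem' := coc_smul Y F

/-- Singular 1-coboundaries of `Y` with values in `F`. -/
def Coboundaries (Y : Type) [TopologicalSpace Y] (F : Type) [Field F] :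
    Submodule F (Cochain Y F) where
  carrier := {φ | IsCob Y F φ}
  add_mem' := cob_add Y F
  zero_mem' := cob_zero Y F
  smul_mem' := cob_smul Y F

/-- The first singular cohomology group `H¹(Y, F)`. -/
def HOne (Y : Type) [TopologicalSpace Y] (F : Type) [Field F] : Type :=
  Cocycles Y F ⧸ (Coboundaries Y F).submoduleOf (Cocycles Y F)

instance (Y : Type) [TopologicalSpace Y] (F : Type) [Field F] : AddCommGroup (HOne Y F) :=
  Submodule.Quotient.addCommGroup _

instance (Y : Type) [TopologicalSpace Y] (F : Type) [Field F] : Module F (HOne Y F) :=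
  Submodule.Quotient.module _

/-! ## Galois representations -/

/-- An algebraic closure of `ℚ(i)`. -/
def Qbar : Type := AlgebraicClosure K

noncomputable instance : Field Qbar := AlgebraicClosure.instField K

noncomputable instance : Algebra K Qbar := AlgebraicClosure.instAlgebra K

noncomputable instance : Algebra O Qbar := AlgebraicClosure.instAlgebra K

/-- The absolute Galois group of `ℚ(i)`. -/
abbrev GalK : Type := Qbar ≃ₐ[K] Qbar

/-- `𝔽̄₃`. -/
def Fbar : Type := AlgebraicClosure (ZMod 3)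

noncomputable instance : Field Fbar := AlgebraicClosure.instField (ZMod 3)

/-- The ring of all endomorphisms of `H¹(Y₀(𝔑), 𝔽̄₃)`. -/
def EndH1 (N : Ideal O) : Type := Module.End Fbar (HOne (Y0 N) Fbar)

noncomputable instance (N : Ideal O) : Ring (EndH1 N) := Module.End.instRing

/-- The group `GL₂(𝔽̄₃)`. -/
abbrev GL2 : Type := GL (Fin 2) Fbar

/-- The representation `ρ` has open kernel, that is, it is continuous for the discrete topology of
the target. -/
def IsContinuous (ρ : GalK →* GL2) : Prop := IsOpen {σ : GalK | ρ σ = 1}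

/-- `ρ` is irreducible. -/
def IsIrreducible (ρ : GalK →* GL2) : Prop :=
  ∀ W : Submodule Fbar (Fin 2 → Fbar), (∀ σ, ∀ v ∈ W, (ρ σ).val *ᵥ v ∈ W) → W = ⊥ ∨ W = ⊤

/-- `x` is an integer of the field cut out by `ρ`: it is integral over `ℤ[i]` and fixed by the kernel
of `ρ`. -/
def IsInteger (ρ : GalK →* GL2) (x : Qbar) : Prop :=
  IsIntegral O x ∧ ∀ σ : GalK, ρ σ = 1 → σ x = x

section Closure
variable (ρ : GalK →* GL2)

theorem int_mul {a b : Qbar} (ha : IsInteger ρ a) (hb : IsInteger ρ b) : IsInteger ρ (a * b) :=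
  ⟨ha.1.mul hb.1, fun σ h => by rw [map_mul, ha.2 σ h, hb.2 σ h]⟩

theorem int_add {a b : Qbar} (ha : IsInteger ρ a) (hb : IsInteger ρ b) : IsInteger ρ (a + b) :=
  ⟨ha.1.add hb.1, fun σ h => by rw [map_add, ha.2 σ h, hb.2 σ h]⟩

theorem int_neg {a : Qbar} (ha : IsInteger ρ a) : IsInteger ρ (-a) :=
  ⟨ha.1.neg, fun σ h => by rw [map_neg, ha.2 σ h]⟩

theorem int_base (x : O) : IsInteger ρ (algebraMap O Qbar x) := by
  refine ⟨isIntegral_algebraMap, fun σ _ => ?_⟩
  exact σ.commutes (algebraMap O K x)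

theorem int_one : IsInteger ρ 1 := by
  have h := int_base ρ 1
  rwa [map_one] at h

theorem int_zero : IsInteger ρ 0 := by
  have h := int_base ρ 0
  rwa [map_zero] at h

end Closure

/-- The ring of integers of the field cut out by `ρ`, as a subring of the algebraic closure. -/
def intSubring (ρ : GalK →* GL2) : Subring Qbar where
  carrier := {x | IsInteger ρ x}
  mul_mem' := int_mul ρ
  one_mem' := int_one ρ
  add_mem' := int_add ρ
  zero_mem' := int_zero ρ
  neg_mem' := int_neg ρ

/-- The ring of integers of the field cut out by `ρ`. -/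
def IntRing (ρ : GalK →* GL2) : Type := intSubring ρ

noncomputable instance (ρ : GalK →* GL2) : CommRing (IntRing ρ) := (intSubring ρ).toCommRing

/-- The inclusion in the algebraic closure. -/
def incl {ρ : GalK →* GL2} (x : IntRing ρ) : Qbar := Subtype.val x

/-- The inclusion of `ℤ[i]` in the ring of integers of the field cut out by `ρ`. -/
noncomputable def baseIncl (ρ : GalK →* GL2) : O →+* IntRing ρ :=
  (algebraMap O Qbar).codRestrict (intSubring ρ) (int_base ρ)

/-- The `n`-th ramification group (lower numbering) of a prime `𝔓` of the ring of integers of the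
field cut out by `ρ`, as a subset of the absolute Galois group: all `σ` with `σ x ≡ x` modulo
`𝔓 ^ (n + 1)` for all integers `x` of this field. For `n = 0` this is the inertia group. -/
def RamSet (ρ : GalK →* GL2) (P : Ideal (IntRing ρ)) (n : ℕ) : Set GalK :=
  {σ | ∀ x : IntRing ρ, ∃ y ∈ P ^ (n + 1), σ (incl x) = incl x + incl y}

/-- The vector `v` is fixed by `ρ σ` for all `σ` in `S`. -/
def IsFixed (ρ : GalK →* GL2) (S : Set GalK) (v : Fin 2 → Fbar) : Prop :=
  ∀ σ ∈ S, (ρ σ).val *ᵥ v = v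

section Closure
variable (ρ : GalK →* GL2) (S : Set GalK)

theorem isFixed_add {a b : Fin 2 → Fbar} (ha : IsFixed ρ S a) (hb : IsFixed ρ S b) :
    IsFixed ρ S (a + b) := by
  intro σ hσ
  rw [Matrix.mulVec_add, ha σ hσ, hb σ hσ]

theorem isFixed_zero : IsFixed ρ S 0 := by intro σ _; exact Matrix.mulVec_zero _

theorem isFixed_smul (c : Fbar) {a : Fin 2 → Fbar} (ha : IsFixed ρ S a) : IsFixed ρ S (c • a) := by
  intro σ hσ
  rw [Matrix.mulVec_smul, ha σ hσ]

end Closure

/-- The subspace of the vectors of `𝔽̄₃²` fixed by a set of Galois elements. -/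
def fixedSpace (ρ : GalK →* GL2) (S : Set GalK) : Submodule Fbar (Fin 2 → Fbar) where
  carrier := {v | IsFixed ρ S v}
  add_mem' := isFixed_add ρ S
  zero_mem' := isFixed_zero ρ S
  smul_mem' := isFixed_smul ρ S

/-- The exponent of the Artin conductor of `ρ` at the prime `𝔓`:
`∑ₙ |G_n| / |G_0| · codim V^{G_n}`, where `G_n` is the image under `ρ` of the `n`-th ramification
group (`ρ` is injective on the Galois group of the field that it cuts out). -/
noncomputable def ConductorExponent (ρ : GalK →* GL2) (P : Ideal (IntRing ρ)) : ℚ :=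
  ∑ᶠ n : ℕ, ((ρ '' RamSet ρ P n).ncard : ℚ) / ((ρ '' RamSet ρ P 0).ncard : ℚ) *
    (2 - (Module.finrank Fbar (fixedSpace ρ (RamSet ρ P n)) : ℚ))

/-- The ideal `N` of `ℤ[i]` is the prime-to-`3` part of the Artin conductor of `ρ`: it is nonzero and
prime to `3`, and for every nonzero prime `𝔓` of the field cut out by `ρ` that does not contain `3`,
the exponent of the conductor at `𝔓` is the exponent of the prime `𝔓 ∩ ℤ[i]` in `N`. -/
def IsSerreConductor (ρ : GalK →* GL2) (N : Ideal O) : Prop :=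
  N ≠ ⊥ ∧ IsCoprime N (Ideal.span {3}) ∧
    ∀ P : Ideal (IntRing ρ), P.IsPrime → P ≠ ⊥ → 3 ∉ P →
      ConductorExponent ρ P = (multiplicity (P.comap (baseIncl ρ)) N : ℚ)

/-- `ρ` is unramified at all primes above `3`. -/
def IsUnramifiedAboveThree (ρ : GalK →* GL2) : Prop :=
  ∀ P : Ideal (IntRing ρ), P.IsPrime → 3 ∈ P → ∀ σ ∈ RamSet ρ P 0, ρ σ = 1

end Q276.SM
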