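import Pool.Agent.Q276.SM.Tab

/-! Finite linear algebra over `𝔽₃`: the relations force a function to be a coboundary. -/

set_option autoImplicit false

open Finset

namespace Q276.SM.T

/-- coefficient of `i` in a list of (index, coefficient) pairs -/
def cnt (l : List (ℕ × ℕ)) (i : ℕ) : ℕ :=
  l.foldr (fun p r => bif Nat.beq p.1 i then p.2 + r else r) 0

/-- weighted sum of the coefficients -/
def wsum (f : ℕ → ℕ) (l : List (ℕ × ℕ)) : ℕ := l.foldr (fun p r => f p.1 * p.2 + r) 0

def isZ (i : ℕ) : Bool := Nat.testBit ZM i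

def chkA (n : ℕ) : Bool :=
  Nat.blt (pc n) 878 && Nat.blt (pa n) 878 && Nat.blt (pb n) 878 &&
  Nat.beq (pc (pc (pc (pc n)))) n && Nat.beq (pp (pp n)) n && Nat.beq (pq (pq n)) n &&
  Nat.beq (so (pa n)) (so n) && Nat.beq (so (pb n)) (so n) && Nat.blt (wd n) 6 &&
  Nat.blt (dr n) 148 && Nat.beq (word (wd n) (rp (dr n))) n

def chkB (t : ℕ × ℕ × ℕ) : Bool :=
  Nat.blt t.2.1 878 && Nat.beq (so t.2.1) t.2.2 && Nat.beq (so (pc t.2.1)) t.1 &&
  decide (path t.1 = path t.2.2 ++ [t.2.1])

def chkZ (k : ℕ) : Bool := Nat.beq (pp (rp k)) (rp k)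

def chkR (k : ℕ) : Bool := Nat.blt (rp k) 878

def chkC (j : ℕ) : Bool :=
  Nat.blt (rj j) 878 && decide (rt j = [(dr (rj j), sg (wd (rj j))),
    (dr (pc (rj j)), sg (wd (pc (rj j)))), (dr (pc (pc (rj j))), sg (wd (pc (pc (rj j))))),
    (dr (pc (pc (pc (rj j)))), sg (wd (pc (pc (pc (rj j))))))])

def chkD (j : ℕ) : Bool :=
  (rt j).all (fun p => Nat.blt p.1 148) &&
  (List.range 148).all (fun i => Nat.beq (cnt (rt j) i % 3) (cnt (col i) j % 3))

def chkE (i : ℕ) : Bool := (col i).all (fun p => Nat.blt p.1 109)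

def chkF (i : ℕ) : Bool := !(isZ i) ||
  (ZER.contains i || TREE.any (fun t => Nat.beq (dr t.2.1) i))

def chkG (k : ℕ) : Bool := isZ k || (List.range 148).all (fun i => isZ i ||
  Nat.beq (wsum (lam k) (col i) % 3) (bif Nat.beq i k then 1 else 0))

theorem allA : (List.range 878).all chkA = true := by decide +kernel
theorem allB : TREE.all chkB = true := by decide +kernel
theorem allZ : ZER.all chkZ = true := by decide +kernel
theorem allR : (List.range 148).all chkR = true := by decide +kernel
theorem allC : (List.range 109).all chkC = true := by decide +kernel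
theorem allD : (List.range 109).all chkD = true := by decide +kernel
theorem allE : (List.range 148).all chkE = true := by decide +kernel
theorem allF : (List.range 148).all chkF = true := by decide +kernel
theorem allG : (List.range 148).all chkG = true := by decide +kernel

/-! ### Consequences in usable form -/

lemma hA {n : ℕ} (hn : n < 878) : pc n < 878 ∧ pa n < 878 ∧ pb n < 878 ∧
    pc (pc (pc (pc n))) = n ∧ pp (pp n) = n ∧ pq (pq n) = n ∧
    so (pa n) = so n ∧ so (pb n) = so n ∧ wd n < 6 ∧ dr n < 148 ∧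
    word (wd n) (rp (dr n)) = n := by
  have h := List.all_eq_true.1 allA n (List.mem_range.2 hn)
  simpa only [chkA, Bool.and_eq_true, Nat.blt_eq, Nat.beq_eq, and_assoc] using h

lemma pp_lt {n : ℕ} (hn : n < 878) : pp n < 878 := (hA (hA hn).1).2.2.1

lemma pq_lt {n : ℕ} (hn : n < 878) : pq n < 878 := (hA (hA (hA hn).1).2.1).2.2.1

lemma hR {k : ℕ} (hk : k < 148) : rp k < 878 := by
  have h := List.all_eq_true.1 allR k (List.mem_range.2 hk)
  simpa only [chkR, Nat.blt_eq] using h

lemma hC {j : ℕ} (hj : j < 109) : rj j < 878 ∧ rt j = [(dr (rj j), sg (wd (rj j))),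
    (dr (pc (rj j)), sg (wd (pc (rj j)))), (dr (pc (pc (rj j))), sg (wd (pc (pc (rj j))))),
    (dr (pc (pc (pc (rj j)))), sg (wd (pc (pc (pc (rj j))))))] := by
  have h := List.all_eq_true.1 allC j (List.mem_range.2 hj)
  simpa only [chkC, Bool.and_eq_true, Nat.blt_eq, decide_eq_true_eq] using h

lemma hD {j : ℕ} (hj : j < 109) : (∀ p ∈ rt j, p.1 < 148) ∧
    ∀ i, i < 148 → cnt (rt j) i % 3 = cnt (col i) j % 3 := by
  have h := List.all_eq_true.1 allD j (List.mem_range.2 hj)
  simp only [chkD, Bool.and_eq_true, List.all_eq_true, Nat.blt_eq, Nat.beq_eq, List.mem_range] at h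
  exact h

lemma hE {i : ℕ} (hi : i < 148) : ∀ p ∈ col i, p.1 < 109 := by
  have h := List.all_eq_true.1 allE i (List.mem_range.2 hi)
  simpa only [chkE, List.all_eq_true, Nat.blt_eq] using h

lemma hG {k i : ℕ} (hk : k < 148) (hkZ : isZ k = false) (hi : i < 148) (hiZ : isZ i = false) :
    wsum (lam k) (col i) % 3 = if i = k then 1 else 0 := by
  have h := List.all_eq_true.1 allG k (List.mem_range.2 hk)
  simp only [chkG, hkZ, Bool.false_or, List.all_eq_true, List.mem_range] at h
  have h2 := h i hi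
  rw [hiZ, Bool.false_or] at h2
  have h3 := Nat.eq_of_beq_eq_true h2
  rw [h3]
  by_cases e : i = k
  · subst e; simp
  · rw [if_neg e]
    have : Nat.beq i k = false := by
      cases hb : Nat.beq i k
      · rfl
      · exact absurd (Nat.eq_of_beq_eq_true hb) e
    rw [this]; rfl

section

variable {A : Type*} [AddCommMonoid A]

/-- evaluation of a list of (index, coefficient) pairs -/
def ev (x : ℕ → A) (l : List (ℕ × ℕ)) : A := l.foldr (fun p r => p.2 • x p.1 + r) 0

lemma ev_eq (x : ℕ → A) (m : ℕ) (l : List (ℕ × ℕ)) (hl : ∀ p ∈ l, p.1 < m) :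
    ev x l = ∑ i ∈ range m, cnt l i • x i := by
  induction l with
  | nil => simp [ev, cnt]
  | cons p l ih =>
    have ih' := ih (fun q hq => hl q (List.mem_cons_of_mem _ hq))
    have hp : p.1 < m := hl p (by simp)
    have h1 : ∀ i, cnt (p :: l) i = (if i = p.1 then p.2 else 0) + cnt l i := by
      intro i
      change (bif Nat.beq p.1 i then p.2 + cnt l i else cnt l i) = _
      by_cases e : i = p.1
      · subst e; simp
      · have : Nat.beq p.1 i = false := by
          cases hb : Nat.beq p.1 i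
          · rfl
          · exact absurd (Nat.eq_of_beq_eq_true hb).symm e
        rw [this, if_neg e, zero_add]; rfl
    change p.2 • x p.1 + ev x l = _
    rw [ih']
    simp only [h1, add_smul, sum_add_distrib]
    congr 1
    simp only [ite_smul, zero_smul]
    rw [sum_ite_eq' (range m) p.1 (fun i => p.2 • x i), if_pos (mem_range.2 hp)]

end

lemma wsum_eq (f : ℕ → ℕ) (l : List (ℕ × ℕ)) (m : ℕ) (hl : ∀ p ∈ l, p.1 < m) :
    wsum f l = ∑ j ∈ range m, f j * cnt l j := by
  have h1 : wsum f l = ev f l := by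
    unfold wsum ev
    congr 1
    funext p r
    rw [smul_eq_mul, mul_comm]
  rw [h1, ev_eq f m l hl]
  exact sum_congr rfl fun j _ => by rw [smul_eq_mul, mul_comm]

variable {A : Type*} [AddCommGroup A]

lemma mod3 (h3 : ∀ a : A, 3 • a = 0) (c d : ℕ) (h : c % 3 = d % 3) (a : A) : c • a = d • a := by
  have h1 : ∀ n : ℕ, n • a = (n % 3) • a := by
    intro n
    conv_lhs => rw [← Nat.div_add_mod n 3]
    rw [add_smul, mul_comm, mul_smul, h3, smul_zero, zero_add]
  rw [h1 c, h1 d, h]

/-- A function on the projective line with the three kinds of relations that vanishes on the tree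
vanishes. -/
theorem vanish (h3 : ∀ a : A, 3 • a = 0) (φ : ℕ → A)
    (h1 : ∀ n, n < 878 → φ (pp n) = - φ n) (h2 : ∀ n, n < 878 → φ (pq n) = - φ n)
    (h4 : ∀ n, n < 878 → φ n + φ (pc n) + φ (pc (pc n)) + φ (pc (pc (pc n))) = 0)
    (ht : ∀ t ∈ TREE, φ t.2.1 = 0) : ∀ n, n < 878 → φ n = 0 := by
  have neg2 : ∀ a : A, - a = 2 • a := by
    intro a
    have := h3 a
    rw [neg_eq_iff_add_eq_zero, ← this]
    rw [show (3 : ℕ) = 1 + 2 by norm_num, add_smul, one_smul]
  -- values at words
  have hw : ∀ w m, w < 6 → m < 878 → φ (word w m) = sg w • φ m := by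
    intro w m hw hm
    have a1 := pp_lt hm
    have a2 := pq_lt hm
    have a3 := pq_lt a1
    interval_cases w
    · simp [word, sg]
    · simp only [word, sg]; norm_num
      rw [h1 m hm, neg2]
    · simp only [word, sg]; norm_num
      rw [h2 m hm, neg2]
    · simp only [word, sg]; norm_num
      rw [h2 _ a1, h1 m hm, neg_neg]
    · simp only [word, sg]; norm_num
      rw [h1 _ a2, h2 m hm, neg_neg]
    · simp only [word, sg]; norm_num
      rw [h1 _ a3, h2 _ a1, h1 m hm, neg_neg, neg2]
  set x : ℕ → A := fun k => φ (rp k) with hx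
  have hval : ∀ n, n < 878 → φ n = sg (wd n) • x (dr n) := by
    intro n hn
    obtain ⟨-, -, -, -, -, -, -, -, b1, b2, b3⟩ := hA hn
    conv_lhs => rw [← b3]
    exact hw _ _ b1 (hR b2)
  have hsg : ∀ w, sg w = 1 ∨ sg w = 2 := by
    intro w
    unfold sg
    split_ifs <;> simp
  have hx0 : ∀ n, n < 878 → φ n = 0 → x (dr n) = 0 := by
    intro n hn h0
    have h5 := hval n hn
    rw [h0] at h5
    rcases hsg (wd n) with h | h
    · rw [h, one_smul] at h5; exact h5.symm
    · rw [h, ← neg2] at h5
      exact (neg_eq_zero.1 h5.symm)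
  -- the gauge variables vanish
  have hZ : ∀ i, i < 148 → isZ i = true → x i = 0 := by
    intro i hi hz
    have h := List.all_eq_true.1 allF i (List.mem_range.2 hi)
    rw [chkF, hz, Bool.not_true, Bool.false_or, Bool.or_eq_true] at h
    rcases h with h | h
    · have hm : i ∈ ZER := by simpa using h
      have h5 := List.all_eq_true.1 allZ i hm
      rw [chkZ, Nat.beq_eq] at h5
      have h6 := h1 (rp i) (hR hi)
      rw [h5] at h6
      -- 2 a = 0 and 3 a = 0
      have h7 : x i = - x i := h6
      have h8 : x i + x i = 0 := by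
        nth_rewrite 1 [h7]; exact neg_add_cancel _
      have h9 := h3 (x i)
      rw [show (3 : ℕ) = 1 + 1 + 1 by norm_num, add_smul, add_smul, one_smul, h8, zero_add] at h9
      exact h9
    · rw [List.any_eq_true] at h
      obtain ⟨t, ht1, ht2⟩ := h
      rw [Nat.beq_eq] at ht2
      have h5 := List.all_eq_true.1 allB t ht1
      simp only [chkB, Bool.and_eq_true, Nat.blt_eq] at h5
      rw [← ht2]
      exact hx0 _ h5.1.1.1 (ht t ht1)
  -- relations
  have hrel : ∀ j, j < 109 → ∑ i ∈ range 148, cnt (col i) j • x i = 0 := by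
    intro j hj
    obtain ⟨c1, c2⟩ := hC hj
    obtain ⟨d1, d2⟩ := hD hj
    have h5 : ev x (rt j) = 0 := by
      rw [c2]
      have e0 := (hA c1).1
      have e1 := (hA e0).1
      have e2 := (hA e1).1
      have h6 := h4 _ c1
      rw [hval _ c1, hval _ e0, hval _ e1, hval _ e2] at h6
      simp only [ev, List.foldr_cons, List.foldr_nil, add_zero]
      rw [← h6]
      abel
    rw [ev_eq x 148 _ d1] at h5
    rw [← h5]
    exact sum_congr rfl fun i hi => (mod3 h3 _ _ (d2 i (mem_range.1 hi)) (x i)).symm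
  have hmain : ∀ k, k < 148 → isZ k = false → x k = 0 := by
    intro k hk hkZ
    have h5 : ∑ j ∈ range 109, lam k j • ∑ i ∈ range 148, cnt (col i) j • x i = 0 :=
      sum_eq_zero fun j hj => by rw [hrel j (mem_range.1 hj), smul_zero]
    have h6 : ∑ j ∈ range 109, lam k j • ∑ i ∈ range 148, cnt (col i) j • x i =
        ∑ i ∈ range 148, wsum (lam k) (col i) • x i := by
      simp only [smul_sum]
      rw [sum_comm]
      refine sum_congr rfl fun i hi => ?_
      rw [wsum_eq _ _ 109 (hE (mem_range.1 hi)), sum_smul]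
      exact sum_congr rfl fun j _ => by rw [mul_smul]
    rw [h6] at h5
    have h7 : ∑ i ∈ range 148, wsum (lam k) (col i) • x i =
        ∑ i ∈ range 148, if i = k then x k else 0 := by
      refine sum_congr rfl fun i hi => ?_
      have hi' := mem_range.1 hi
      cases hiZ : isZ i with
      | true =>
        rw [hZ i hi' hiZ, smul_zero]
        split_ifs with e
        · subst e; rw [hkZ] at hiZ; exact absurd hiZ (by simp)
        · rfl
      | false =>
        have h8 := hG hk hkZ hi' hiZ
        by_cases e : i = k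
        · subst e
          rw [if_pos rfl] at h8 ⊢
          rw [mod3 h3 _ 1 (by rw [h8]), one_smul]
        · rw [if_neg e] at h8 ⊢
          rw [mod3 h3 _ 0 (by rw [h8]), zero_smul]
    rw [h7, sum_ite_eq' (range 148) k (fun _ => x k), if_pos (mem_range.2 hk)] at h5
    exact h5
  intro n hn
  obtain ⟨-, -, -, -, -, -, -, -, b1, b2, b3⟩ := hA hn
  rw [hval n hn]
  cases hz : isZ (dr n) with
  | true => rw [hZ _ b2 hz, smul_zero]
  | false => rw [hmain _ b2 hz, smul_zero]

/-- The relations imply that the function is a coboundary. -/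
theorem cobound (h3 : ∀ a : A, 3 • a = 0) (φ : ℕ → A)
    (h1 : ∀ n, n < 878 → φ (pp n) = - φ n) (h2 : ∀ n, n < 878 → φ (pq n) = - φ n)
    (h4 : ∀ n, n < 878 → φ n + φ (pc n) + φ (pc (pc n)) + φ (pc (pc (pc n))) = 0) :
    ∃ u : ℕ → A, (∀ n, n < 878 → u (pa n) = u n ∧ u (pb n) = u n) ∧
      ∀ n, n < 878 → φ n = u (pc n) - u n := by
  set U : ℕ → A := fun o => ((path o).map φ).sum with hU
  set u : ℕ → A := fun n => U (so n) with hu
  have hab : ∀ n, n < 878 → u (pa n) = u n ∧ u (pb n) = u n := by
    intro n hn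
    obtain ⟨-, -, -, -, -, -, s1, s2, -⟩ := hA hn
    exact ⟨by simp only [hu, s1], by simp only [hu, s2]⟩
  refine ⟨u, hab, fun n hn => ?_⟩
  have key := vanish h3 (fun n => φ n - (u (pc n) - u n)) ?_ ?_ ?_ ?_ n hn
  · exact sub_eq_zero.1 key
  · intro m hm
    have a0 := (hA hm).1
    have a1 := pp_lt hm
    have a2 := (hA a1).1
    -- `u (pc (pp m)) = u m`
    have e1 : u (pc (pp m)) = u m := by
      rw [← (hab _ a2).2]
      change u (pp (pp m)) = u m
      rw [(hA hm).2.2.2.2.1]
    have e2 : u (pp m) = u (pc m) := (hab _ a0).2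
    simp only [h1 m hm, e1, e2]
    abel
  · intro m hm
    have a0 := (hA hm).1
    have a00 := (hA a0).2.1
    have a1 := pq_lt hm
    have a2 := (hA a1).1
    have a3 := (hA a2).2.1
    have e1 : u (pc (pq m)) = u m := by
      rw [← (hab _ a2).1, ← (hab _ a3).2]
      change u (pq (pq m)) = u m
      rw [(hA hm).2.2.2.2.2.1]
    have e2 : u (pq m) = u (pc m) := by
      change u (pb (pa (pc m))) = u (pc m)
      rw [(hab _ a00).2, (hab _ a0).1]
    simp only [h2 m hm, e1, e2]
    abel
  · intro m hm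
    have e4 := (hA hm).2.2.2.1
    have h5 := h4 m hm
    simp only [e4]
    rw [← h5]
    abel
  · intro t ht
    have h5 := List.all_eq_true.1 allB t ht
    simp only [chkB, Bool.and_eq_true, Nat.blt_eq, Nat.beq_eq, decide_eq_true_eq] at h5
    obtain ⟨⟨⟨b1, b2⟩, b3⟩, b4⟩ := h5
    simp only [hu, b2, b3, hU, b4, List.map_append, List.map_cons, List.map_nil, List.sum_append,
      List.sum_cons, List.sum_nil, add_zero]
    abel

end Q276.SM.T
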