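import Pool.Agent.Q276.SM.Gen
import Pool.Agent.Q276.SM.Lin

/-! The action of `GL₂(ℤ[i])` on the projective line over `𝔽₈₇₇`. -/

set_option autoImplicit false

open Matrix

namespace Q276.SM

open T (pa pb pc pp pq)

instance : Fact (Nat.Prime 877) := ⟨by norm_num⟩

/-- The generator `6 + 29 i` of a prime ideal of norm `877`. -/
def dlt : O := ⟨6, 29⟩

/-- The level. -/
def lev : Ideal O := Ideal.span {dlt}

/-- Reduction modulo the prime `6 + 29 i`. -/
noncomputable def rd : O →+* ZMod 877 := Zsqrtd.lift ⟨151, by decide⟩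

lemma rd_apply (z : O) : rd z = z.re + z.im * 151 := by
  simp [rd, Zsqrtd.lift]

lemma rd_Ii : rd Ii = 151 := by rw [rd_apply]; simp [Ii]

lemma rd_dlt : rd dlt = 0 := by rw [rd_apply]; simp only [dlt]; decide

lemma rd_eq_zero {z : O} : rd z = 0 ↔ dlt ∣ z := by
  constructor
  · intro h
    rw [rd_apply] at h
    have h1 : ((z.re + z.im * 151 : ℤ) : ZMod 877) = 0 := by push_cast; exact h
    rw [ZMod.intCast_zmod_eq_zero_iff_dvd] at h1
    obtain ⟨k, hk⟩ := h1
    have hk' : z.re = 877 * k - z.im * 151 := by push_cast at hk; linarith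
    -- `z * conj dlt = 877 * w`
    refine ⟨⟨6 * k - z.im, 5 * z.im - 29 * k⟩, ?_⟩
    apply Zsqrtd.ext
    · simp only [dlt, Zsqrtd.re_mul]; rw [hk']; ring
    · simp only [dlt, Zsqrtd.im_mul]; ring
  · rintro ⟨w, rfl⟩
    rw [map_mul, rd_dlt, zero_mul]

lemma mem_lev {z : O} : z ∈ lev ↔ rd z = 0 := by
  rw [lev, Ideal.mem_span_singleton, rd_eq_zero]

/-- The class of a matrix: its lower row as a point of the projective line. -/
noncomputable def cls (g : GL (Fin 2) O) : ℕ :=
  if rd (g.val 1 1) = 0 then 877 else (rd (g.val 1 0) * (rd (g.val 1 1))⁻¹).val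

lemma cls_lt (g : GL (Fin 2) O) : cls g < 878 := by
  unfold cls
  split_ifs
  · norm_num
  · exact lt_trans (ZMod.val_lt _) (by norm_num)

/-- code of a point given by homogeneous coordinates -/
noncomputable def code (u v : ZMod 877) : ℕ := if v = 0 then 877 else (u * v⁻¹).val

lemma cls_eq (g : GL (Fin 2) O) : cls g = code (rd (g.val 1 0)) (rd (g.val 1 1)) := rfl

lemma inv_cast (y : ZMod 877) (n : ℕ) (hn : (n : ZMod 877) = y) (hy : y ≠ 0) :
    ((T.inv n : ℕ) : ZMod 877) = y⁻¹ := by
  unfold T.inv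
  rw [ZMod.natCast_mod, Nat.cast_pow, hn]
  have h1 : y ^ 876 = 1 := ZMod.pow_card_sub_one_eq_one hy
  refine eq_inv_of_mul_eq_one_left ?_
  rw [← pow_succ]; exact h1

lemma val_ne {y : ZMod 877} (h : y + 1 ≠ 0) : y.val ≠ 876 := by
  intro h1
  apply h
  have h2 : ((y.val : ℕ) : ZMod 877) = y := ZMod.natCast_zmod_val y
  rw [h1] at h2
  rw [← h2]; decide

lemma val_lt' (y : ZMod 877) : y.val ≠ 877 := (ZMod.val_lt y).ne

lemma code_pc (u v : ZMod 877) : code (u * 151) v = pc (code u v) := by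
  unfold code pc
  by_cases hv : v = 0
  · rw [if_pos hv, if_pos hv, if_pos rfl]
  · rw [if_neg hv, if_neg hv, if_neg (val_lt' _)]
    have h1 : u * 151 * v⁻¹ = ((151 * (u * v⁻¹).val : ℕ) : ZMod 877) := by
      push_cast
      rw [ZMod.natCast_zmod_val]; ring
    rw [h1, ZMod.val_natCast]

lemma code_pa (u v : ZMod 877) (h : u ≠ 0 ∨ v ≠ 0) : code (-v) (u + v) = pa (code u v) := by
  unfold code pa
  by_cases hv : v = 0
  · have hu : u ≠ 0 := by rcases h with h | h; exacts [h, absurd hv h]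
    subst hv
    rw [if_pos rfl, if_pos rfl, add_zero, if_neg hu, neg_zero, zero_mul, ZMod.val_zero]
  · rw [if_neg hv, if_neg (val_lt' _)]
    set y := u * v⁻¹ with hy
    have hu : u = y * v := by rw [hy, mul_assoc, inv_mul_cancel₀ hv, mul_one]
    by_cases h0 : u + v = 0
    · rw [if_pos h0]
      have h1 : y = -1 := by
        have : (y + 1) * v = 0 := by rw [add_mul, ← hu, one_mul, h0]
        rcases mul_eq_zero.1 this with h2 | h2
        · exact eq_neg_of_add_eq_zero_left h2
        · exact absurd h2 hv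
      rw [if_pos]
      rw [h1]; decide
    · have h1 : y + 1 ≠ 0 := by
        intro h2; apply h0
        rw [hu, ← one_mul v, ← mul_assoc, mul_one, ← add_mul, h2, zero_mul]
      rw [if_neg h0, if_neg (val_ne h1)]
      have h2 : -v * (u + v)⁻¹ = ((876 * T.inv (y.val + 1) : ℕ) : ZMod 877) := by
        rw [Nat.cast_mul, inv_cast (y + 1) (y.val + 1) (by push_cast; rw [ZMod.natCast_zmod_val]) h1]
        have h3 : ((876 : ℕ) : ZMod 877) = -1 := by decide
        rw [h3, hu]
        field_simp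
      rw [h2, ZMod.val_natCast]

lemma code_pb (u v : ZMod 877) (h : u ≠ 0 ∨ v ≠ 0) : code (u * 151) (u + v) = pb (code u v) := by
  unfold code pb
  by_cases hv : v = 0
  · have hu : u ≠ 0 := by rcases h with h | h; exacts [h, absurd hv h]
    subst hv
    rw [if_pos rfl, if_pos rfl, add_zero, if_neg hu]
    have h1 : u * 151 * u⁻¹ = 151 := by field_simp
    rw [h1]; decide
  · rw [if_neg hv, if_neg (val_lt' _)]
    set y := u * v⁻¹ with hy
    have hu : u = y * v := by rw [hy, mul_assoc, inv_mul_cancel₀ hv, mul_one]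
    by_cases h0 : u + v = 0
    · rw [if_pos h0]
      have h1 : y = -1 := by
        have : (y + 1) * v = 0 := by rw [add_mul, ← hu, one_mul, h0]
        rcases mul_eq_zero.1 this with h2 | h2
        · exact eq_neg_of_add_eq_zero_left h2
        · exact absurd h2 hv
      rw [if_pos]
      rw [h1]; decide
    · have h1 : y + 1 ≠ 0 := by
        intro h2; apply h0
        rw [hu, ← one_mul v, ← mul_assoc, mul_one, ← add_mul, h2, zero_mul]
      rw [if_neg h0, if_neg (val_ne h1)]
      have h2 : u * 151 * (u + v)⁻¹ = ((151 * y.val * T.inv (y.val + 1) : ℕ) : ZMod 877) := by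
        rw [Nat.cast_mul, inv_cast (y + 1) (y.val + 1) (by push_cast; rw [ZMod.natCast_zmod_val]) h1]
        push_cast
        rw [ZMod.natCast_zmod_val, hu]
        field_simp
      rw [h2, ZMod.val_natCast]

lemma row_ne (g : GL (Fin 2) O) : rd (g.val 1 0) ≠ 0 ∨ rd (g.val 1 1) ≠ 0 := by
  by_contra h
  push Not at h
  have h1 : IsUnit (rd g.val.det) := (g.isUnit.map Matrix.detMonoidHom).map rd
  rw [Matrix.det_fin_two, map_sub, map_mul, map_mul, h.1, h.2, mul_zero, mul_zero, sub_zero] at h1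
  exact not_isUnit_zero h1

lemma cls_gc (g : GL (Fin 2) O) : cls (g * gc) = pc (cls g) := by
  rw [cls_eq, cls_eq, ← code_pc]
  have h0 : (g * gc).val 1 0 = g.val 1 0 * Ii := by
    change (g.val * gc.val) 1 0 = _
    simp [gc, Matrix.mul_apply, Fin.sum_univ_two]
  have h1 : (g * gc).val 1 1 = g.val 1 1 := by
    change (g.val * gc.val) 1 1 = _
    simp [gc, Matrix.mul_apply, Fin.sum_univ_two]
  rw [h0, h1, map_mul, rd_Ii]

lemma cls_ga (g : GL (Fin 2) O) : cls (g * ga) = pa (cls g) := by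
  rw [cls_eq, cls_eq, ← code_pa _ _ (row_ne g)]
  have h0 : (g * ga).val 1 0 = - g.val 1 1 := by
    change (g.val * ga.val) 1 0 = _
    simp [ga, Matrix.mul_apply, Fin.sum_univ_two]
  have h1 : (g * ga).val 1 1 = g.val 1 0 + g.val 1 1 := by
    change (g.val * ga.val) 1 1 = _
    simp [ga, Matrix.mul_apply, Fin.sum_univ_two]
  rw [h0, h1, map_neg, map_add]

lemma cls_gb (g : GL (Fin 2) O) : cls (g * gb) = pb (cls g) := by
  rw [cls_eq, cls_eq, ← code_pb _ _ (row_ne g)]
  have h0 : (g * gb).val 1 0 = g.val 1 0 * Ii := by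
    change (g.val * gb.val) 1 0 = _
    simp [gb, Matrix.mul_apply, Fin.sum_univ_two]
  have h1 : (g * gb).val 1 1 = g.val 1 0 + g.val 1 1 := by
    change (g.val * gb.val) 1 1 = _
    simp [gb, Matrix.mul_apply, Fin.sum_univ_two]
  rw [h0, h1, map_mul, rd_Ii, map_add]

/-- A matrix with given class. -/
def repT (n : ℕ) : GL (Fin 2) O :=
  if n = 877 then ⟨!![0, 1; 1, 0], !![0, 1; 1, 0], by decide, by decide⟩
  else ⟨!![1, 0; (n : O), 1], !![1, 0; -(n : O), 1], by
    refine Matrix.ext fun i j => ?_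
    fin_cases i <;> fin_cases j <;> simp [Matrix.mul_apply, Fin.sum_univ_two], by
    refine Matrix.ext fun i j => ?_
    fin_cases i <;> fin_cases j <;> simp [Matrix.mul_apply, Fin.sum_univ_two]⟩

lemma cls_repT {n : ℕ} (hn : n < 878) : cls (repT n) = n := by
  rw [cls_eq]
  unfold repT code
  by_cases h : n = 877
  · rw [if_pos h]; simp [h]
  · rw [if_neg h]
    have h1 : n < 877 := by omega
    simp only [Matrix.of_apply, Matrix.cons_val', Matrix.cons_val_zero, Matrix.cons_val_one,
      Matrix.cons_val_fin_one, map_one, map_natCast, inv_one, mul_one]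
    rw [if_neg one_ne_zero, ZMod.val_natCast, Nat.mod_eq_of_lt h1]

lemma gamma_row (γ g : GL (Fin 2) O) (hγ : γ ∈ Gamma0 lev) (j : Fin 2) :
    rd ((γ * g).val 1 j) = rd (γ.val 1 1) * rd (g.val 1 j) := by
  have h1 : rd (γ.val 1 0) = 0 := mem_lev.1 hγ
  change rd ((γ.val * g.val) 1 j) = _
  rw [Matrix.mul_apply, Fin.sum_univ_two, map_add, map_mul, map_mul, h1, zero_mul, zero_add]

lemma gamma_ne (γ : GL (Fin 2) O) (hγ : γ ∈ Gamma0 lev) : rd (γ.val 1 1) ≠ 0 := by
  have h1 : rd (γ.val 1 0) = 0 := mem_lev.1 hγ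
  rcases row_ne γ with h | h
  · exact absurd h1 h
  · exact h

lemma cls_gamma (γ g : GL (Fin 2) O) (hγ : γ ∈ Gamma0 lev) : cls (γ * g) = cls g := by
  have h0 := gamma_ne γ hγ
  unfold cls
  rw [gamma_row γ g hγ, gamma_row γ g hγ]
  by_cases h : rd (g.val 1 1) = 0
  · rw [if_pos (by rw [h, mul_zero]), if_pos h]
  · rw [if_neg (mul_ne_zero h0 h), if_neg h]
    congr 1
    field_simp

lemma same_class {g g' : GL (Fin 2) O} (h : cls g = cls g') : g' * g⁻¹ ∈ Gamma0 lev := by
  have key : rd (g'.val 1 0) * rd (g.val 1 1) = rd (g'.val 1 1) * rd (g.val 1 0) := by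
    unfold cls at h
    by_cases h1 : rd (g.val 1 1) = 0
    · rw [if_pos h1] at h
      by_cases h2 : rd (g'.val 1 1) = 0
      · rw [h1, h2]; ring
      · rw [if_neg h2] at h
        exact absurd h.symm (val_lt' _)
    · rw [if_neg h1] at h
      by_cases h2 : rd (g'.val 1 1) = 0
      · rw [if_pos h2] at h
        exact absurd h (val_lt' _)
      · rw [if_neg h2] at h
        have h3 := ZMod.val_injective 877 h
        field_simp at h3
        linear_combination -h3
  change (g' * g⁻¹).val 1 0 ∈ lev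
  rw [mem_lev]
  change rd ((g'.val * g⁻¹.val) 1 0) = 0
  rw [Matrix.coe_units_inv, Matrix.inv_def, Matrix.adjugate_fin_two, Matrix.mul_apply,
    Fin.sum_univ_two]
  simp only [Matrix.smul_apply, Matrix.of_apply, Matrix.cons_val', Matrix.cons_val_zero,
    Matrix.cons_val_one, Matrix.cons_val_fin_one, smul_eq_mul, map_add, map_mul, map_neg]
  linear_combination (rd (Ring.inverse g.val.det)) * key

end Q276.SM
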