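import Pool.Agent.Q276.SM.Ram3

/-! The Serre conductor. -/

set_option autoImplicit false

open Matrix Polynomial

namespace Q276.SM

lemma fv_top {S : Set GK} (h : ∀ σ ∈ S, rho σ = 1) : fixedVectors rho S = ⊤ := by
  rw [eq_top_iff]
  intro v _ σ hσ
  rw [h σ hσ]
  exact Matrix.one_mulVec v

lemma finrank_top2 : Module.finrank F3bar (⊤ : Submodule F3bar (Fin 2 → F3bar)) = 2 := by
  rw [finrank_top, Module.finrank_fin_fun]

lemma term_zero {P : Ideal A} {n : ℕ} (h : ∀ σ ∈ ramSet rho P n, rho σ = 1) :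
    ((rho '' ramSet rho P n).ncard : ℚ) / ((rho '' ramSet rho P 0).ncard : ℚ) *
    (2 - (Module.finrank F3bar (fixedVectors rho (ramSet rho P n)) : ℚ)) = 0 := by
  rw [fv_top h, finrank_top2]
  norm_num

lemma cond_zero {P : Ideal A} (hP : P ≠ ⊤) (hd : algebraMap O A dlt ∉ P) :
    conductorExponent rho P = 0 := by
  unfold conductorExponent
  apply finsum_eq_zero_of_forall_eq_zero
  intro n
  exact term_zero fun σ hσ => ram_trivial hP hd hσ

/-- extension of scalars of vectors -/
noncomputable def ev (u : Fin 2 → ZMod 3) : Fin 2 → F3bar := fun i => algebraMap (ZMod 3) F3bar (u i)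

lemma ev_inj {u v : Fin 2 → ZMod 3} (h : ev u = ev v) : u = v := by
  funext i
  exact (algebraMap (ZMod 3) F3bar).injective (congrFun h i)

lemma rho_ev (σ : GK) (u : Fin 2 → ZMod 3) : (rho σ).val *ᵥ ev u = ev (mx (m3 σ) *ᵥ u) := by
  funext i
  rw [rho_val]
  simp only [ev, Matrix.mulVec, dotProduct, Matrix.map_apply, map_sum, map_mul]

lemma finite_image (S : Set GK) : (rho '' S).Finite := by
  apply Set.Finite.subset (s := Set.range
    (fun g => Matrix.SpecialLinearGroup.toGL
      (SpecialLinearGroup.map (algebraMap (ZMod 3) F3bar) g)))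
  · exact Set.finite_range _
  · rintro _ ⟨σ, _, rfl⟩
    exact ⟨m3 σ, rfl⟩

lemma exists_col {M : Matrix (Fin 2) (Fin 2) (ZMod 3)} (h : M ≠ 1) :
    ∃ j, (fun i => (M - 1) i j) ≠ 0 := by
  by_contra hcon
  push Not at hcon
  apply h
  rw [← sub_eq_zero]
  ext i j
  exact congrFun (hcon j) i

theorem finrank_one {P : Ideal A} (hPp : P.IsPrime) (hd : algebraMap O A dlt ∈ P) :
    Module.finrank F3bar (fixedVectors rho (ramSet rho P 0)) = 1 := by
  have hP : P ≠ ⊤ := hPp.ne_top
  obtain ⟨σ, hσ, hne⟩ := exists_inertia hPp hd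
  have hm : mx (m3 σ) ≠ 1 := by
    intro h
    apply hne
    rw [rho_eq_one]
    exact mx_inj h
  obtain ⟨j, hj⟩ := exists_col hm
  set u : Fin 2 → ZMod 3 := fun i => (mx (m3 σ) - 1) i j with hu
  have hmem : ev u ∈ fixedVectors rho (ramSet rho P 0) := by
    intro τ hτ
    rw [rho_ev, hu, ram_fixed hP hσ hτ j]
  have hu0 : ev u ≠ 0 := by
    intro h
    apply hj
    apply ev_inj
    rw [h]
    funext i
    simp [ev]
  have hbot : fixedVectors rho (ramSet rho P 0) ≠ ⊥ := by
    intro h
    rw [h, Submodule.mem_bot] at hmem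
    exact hu0 hmem
  have htop : fixedVectors rho (ramSet rho P 0) ≠ ⊤ := by
    intro h
    apply hm
    apply Labels.mulVec_ext
    intro v
    have : ev v ∈ fixedVectors rho (ramSet rho P 0) := by rw [h]; trivial
    have h1 := this σ hσ
    rw [rho_ev] at h1
    rw [ev_inj h1, Matrix.one_mulVec]
  have h1 : 1 ≤ Module.finrank F3bar (fixedVectors rho (ramSet rho P 0)) :=
    Submodule.one_le_finrank_iff.2 hbot
  have h2 : Module.finrank F3bar (fixedVectors rho (ramSet rho P 0)) <
      Module.finrank F3bar (Fin 2 → F3bar) := Submodule.finrank_lt htop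
  rw [Module.finrank_fin_fun] at h2
  omega

lemma cond_one {P : Ideal A} (hPp : P.IsPrime) (hd : algebraMap O A dlt ∈ P) :
    conductorExponent rho P = 1 := by
  have hP : P ≠ ⊤ := hPp.ne_top
  unfold conductorExponent
  rw [finsum_eq_single _ 0]
  · rw [finrank_one hPp hd]
    have h1 : (rho '' ramSet rho P 0).ncard ≠ 0 := by
      rw [Ne, Set.ncard_eq_zero (finite_image _), Set.image_eq_empty]
      exact Set.Nonempty.ne_empty ⟨1, one_mem_ram P 0⟩
    have h2 : ((rho '' ramSet rho P 0).ncard : ℚ) ≠ 0 := by exact_mod_cast h1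
    rw [div_self h2]
    norm_num
  · intro n hn
    exact term_zero fun σ hσ => ram_higher hP hd (by omega) hσ

theorem rho_cond : IsSerreCond rho lev := by
  refine ⟨lev_ne_bot, ?_, ?_⟩
  · rw [lev, Ideal.isCoprime_span_singleton_iff]
    exact ⟨⟨6, -29⟩, -292, by decide⟩
  · intro P hP hbot h3
    by_cases hd : algebraMap O A dlt ∈ P
    · rw [cond_one hP hd, under_eq hP hd]
      have : multiplicity lev lev = 1 := multiplicity_self
      rw [this]; norm_num
    · rw [cond_zero hP.ne_top hd]
      have : multiplicity (P.under O) lev = 0 := by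
        rw [multiplicity_eq_zero]
        intro h
        apply hd
        have h1 := Ideal.le_of_dvd h
        exact h1 (Ideal.mem_span_singleton_self dlt)
      rw [this]; norm_num

theorem rho_unram : IsUnramThree rho := by
  intro P hP h3 σ hσ
  refine ram_trivial hP.ne_top ?_ hσ
  intro hd
  apply hP.ne_top
  rw [Ideal.eq_top_iff_one]
  have e : (1 : A) = algebraMap O A ⟨6, -29⟩ * algebraMap O A dlt + (-292) * 3 := by
    have h1 : (⟨6, -29⟩ : O) * dlt = 877 := by decide
    rw [← map_mul, h1, map_ofNat]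
    norm_num
  rw [e]
  exact Ideal.add_mem _ (Ideal.mul_mem_left _ _ hd) (Ideal.mul_mem_left _ _ h3)

end Q276.SM
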