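import Pool.Agent.Q276.SM.Base

/-! Variants of the definitions of `Base` with transparent types. -/

set_option autoImplicit false

open Matrix
open scoped ComplexOrder

namespace Q276.SM

/-- Singular 1-cocycles of `Y` with values in `F`. -/
def Z1 (Y : Type) [TopologicalSpace Y] (F : Type) [Field F] :
    Submodule F (C(stdSimplex ℝ (Fin 2), Y) → F) where
  carrier := {φ | ∀ σ : C(stdSimplex ℝ (Fin 3), Y),
    φ (σ.comp (face 0)) - φ (σ.comp (face 1)) + φ (σ.comp (face 2)) = 0}
  add_mem' := coc_add Y F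
  zero_mem' := coc_zero Y F
  smul_mem' := coc_smul Y F

/-- Singular 1-coboundaries: the functions `τ ↦ ψ(τ(e₁)) - ψ(τ(e₀))`. -/
def B1 (Y : Type) [TopologicalSpace Y] (F : Type) [Field F] :
    Submodule F (C(stdSimplex ℝ (Fin 2), Y) → F) where
  carrier := {φ | ∃ ψ : Y → F, ∀ τ : C(stdSimplex ℝ (Fin 2), Y),
    φ τ = ψ (τ (stdSimplex.vertex 1)) - ψ (τ (stdSimplex.vertex 0))}
  add_mem' := cob_add Y F
  zero_mem' := cob_zero Y F
  smul_mem' := cob_smul Y F

/-- The first singular cohomology group `H¹(Y, F)`. -/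
abbrev H1 (Y : Type) [TopologicalSpace Y] (F : Type) [Field F] : Type :=
  Z1 Y F ⧸ (B1 Y F).submoduleOf (Z1 Y F)

/-! ## Galois representations -/

/-- An algebraic closure of `ℚ(i)`. -/
abbrev Kbar : Type := AlgebraicClosure K

/-- The absolute Galois group of `ℚ(i)`. -/
abbrev GK : Type := Kbar ≃ₐ[K] Kbar

/-- `𝔽̄₃`. -/
abbrev F3bar : Type := AlgebraicClosure (ZMod 3)

/-- The representation `ρ` has open kernel. -/
def IsCont (ρ : GK →* GL (Fin 2) F3bar) : Prop := IsOpen (ρ.ker : Set GK)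

/-- `ρ` is irreducible. -/
def IsIrred (ρ : GK →* GL (Fin 2) F3bar) : Prop :=
  ∀ W : Submodule F3bar (Fin 2 → F3bar), (∀ σ, ∀ v ∈ W, (ρ σ).val *ᵥ v ∈ W) → W = ⊥ ∨ W = ⊤

/-- The field cut out by `ρ`: the fixed field of its kernel. -/
noncomputable def splittingField (ρ : GK →* GL (Fin 2) F3bar) : IntermediateField K Kbar :=
  IntermediateField.fixedField (F := K) (E := Kbar) ρ.ker

/-- The ring of integers of the field cut out by `ρ`. -/
noncomputable abbrev intRing (ρ : GK →* GL (Fin 2) F3bar) : Type :=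
  integralClosure O (splittingField ρ)

/-- The `n`-th ramification group (lower numbering) of a prime `𝔓` of `intRing ρ`, as a subset of
the absolute Galois group: all `σ` with `σ x ≡ x` modulo `𝔓 ^ (n + 1)` for all integers `x` of the
field cut out by `ρ`. For `n = 0` this is the inertia group. -/
def ramSet (ρ : GK →* GL (Fin 2) F3bar) (P : Ideal (intRing ρ)) (n : ℕ) : Set GK :=
  {σ | ∀ x : intRing ρ, ∃ y ∈ P ^ (n + 1), σ ((x : splittingField ρ) : Kbar) =
    ((x : splittingField ρ) : Kbar) + ((y : splittingField ρ) : Kbar)}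

/-- The subspace of the vectors of `𝔽̄₃²` fixed by a set of Galois elements. -/
def fixedVectors (ρ : GK →* GL (Fin 2) F3bar) (S : Set GK) : Submodule F3bar (Fin 2 → F3bar) where
  carrier := {v | ∀ σ ∈ S, (ρ σ).val *ᵥ v = v}
  add_mem' := by
    intro a b ha hb σ hσ
    rw [Matrix.mulVec_add, ha σ hσ, hb σ hσ]
  zero_mem' := by intro σ _; simp
  smul_mem' := by
    intro c a ha σ hσ
    rw [Matrix.mulVec_smul, ha σ hσ]

/-- The exponent of the Artin conductor of `ρ` at the prime `𝔓`:
`∑ₙ |G_n| / |G_0| · codim V^{G_n}`, where `G_n` is the image under `ρ` of the `n`-th ramification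
group (`ρ` is injective on the Galois group of the field that it cuts out). -/
noncomputable def conductorExponent (ρ : GK →* GL (Fin 2) F3bar) (P : Ideal (intRing ρ)) : ℚ :=
  ∑ᶠ n : ℕ, ((ρ '' ramSet ρ P n).ncard : ℚ) / ((ρ '' ramSet ρ P 0).ncard : ℚ) *
    (2 - (Module.finrank F3bar (fixedVectors ρ (ramSet ρ P n)) : ℚ))

/-- The ideal `N` of `ℤ[i]` is the prime-to-`3` part of the Artin conductor of `ρ`: it is nonzero and
prime to `3`, and for every prime `𝔓` of the field cut out by `ρ` that does not contain `3`, the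
exponent of the conductor at `𝔓` is the exponent of the prime `𝔓 ∩ ℤ[i]` in `N`. -/
def IsSerreCond (ρ : GK →* GL (Fin 2) F3bar) (N : Ideal O) : Prop :=
  N ≠ ⊥ ∧ IsCoprime N (Ideal.span {3}) ∧
    ∀ P : Ideal (intRing ρ), P.IsPrime → P ≠ ⊥ → (3 : intRing ρ) ∉ P →
      conductorExponent ρ P = (multiplicity (P.under O) N : ℚ)

/-- `ρ` is unramified at all primes above `3`. -/
def IsUnramThree (ρ : GK →* GL (Fin 2) F3bar) : Prop :=
  ∀ P : Ideal (intRing ρ), P.IsPrime → (3 : intRing ρ) ∈ P → ∀ σ ∈ ramSet ρ P 0, ρ σ = 1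

end Q276.SM
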