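import Pool.Agent.Q276.SM.Gal1

/-! Generic ramification lemmas. -/

set_option autoImplicit false

namespace Q276.SM

section Tame

variable {A : Type*} [CommRing A] (P : Ideal A) (s : A →+* A)

lemma diff_pow {m : ℕ} (h : ∀ x, s x - x ∈ P ^ (m + 1)) (j : ℕ) :
    ∀ y ∈ P ^ j, s y - y ∈ P ^ (j + m) := by
  induction j with
  | zero =>
    intro y _
    exact Ideal.pow_le_pow_right (by omega) (h y)
  | succ j ih =>
    intro y hy
    rw [pow_succ] at hy
    refine Submodule.mul_induction_on hy ?_ ?_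
    · intro a ha b hb
      have e : s (a * b) - a * b = s a * (s b - b) + (s a - a) * b := by rw [map_mul]; ring
      rw [e]
      have h1 : s a ∈ P ^ j := by
        have : s a = a + (s a - a) := by ring
        rw [this]
        exact Ideal.add_mem _ ha (Ideal.pow_le_pow_right (by omega) (ih a ha))
      refine Ideal.add_mem _ ?_ ?_
      · have := Ideal.mul_mem_mul h1 (h b)
        rw [← pow_add] at this
        rwa [show j + 1 + m = j + (m + 1) by ring]
      · have := Ideal.mul_mem_mul (ih a ha) hb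
        rw [← pow_succ] at this
        rwa [show j + 1 + m = j + m + 1 by ring]
    · intro a b ha hb
      have e : s (a + b) - (a + b) = (s a - a) + (s b - b) := by rw [map_add]; ring
      rw [e]
      exact Ideal.add_mem _ ha hb

lemma iter_diff {m : ℕ} (hm : 1 ≤ m) (h : ∀ x, s x - x ∈ P ^ (m + 1)) (x : A) (k : ℕ) :
    s^[k] x - x - (k : A) * (s x - x) ∈ P ^ (m + 2) := by
  induction k with
  | zero => simp
  | succ k ih =>
    rw [Function.iterate_succ_apply']
    have h1 : s^[k] x - x ∈ P ^ (m + 1) := by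
      have e : s^[k] x - x = (s^[k] x - x - (k : A) * (s x - x)) + (k : A) * (s x - x) := by ring
      rw [e]
      exact Ideal.add_mem _ (Ideal.pow_le_pow_right (by omega) ih) (Ideal.mul_mem_left _ _ (h x))
    have h2 := diff_pow P s h (m + 1) _ h1
    have h3 : s (s^[k] x - x) - (s^[k] x - x) ∈ P ^ (m + 2) :=
      Ideal.pow_le_pow_right (by omega) h2
    have e : s (s^[k] x) - x - ((k + 1 : ℕ) : A) * (s x - x) =
        (s (s^[k] x - x) - (s^[k] x - x)) + (s^[k] x - x - (k : A) * (s x - x)) := by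
      rw [map_sub]; push_cast; ring
    rw [e]
    exact Ideal.add_mem _ h3 ih

theorem tame_step {m : ℕ} (hm : 1 ≤ m) {N q : ℕ} (hq : (q : A) ∈ P) (hc : Nat.Coprime N q)
    (hN : ∀ x, s^[N] x = x) (h : ∀ x, s x - x ∈ P ^ (m + 1)) : ∀ x, s x - x ∈ P ^ (m + 2) := by
  intro x
  have h1 := iter_diff P s hm h x N
  rw [hN, sub_self, zero_sub] at h1
  have h2 : (q : A) * (s x - x) ∈ P ^ (m + 2) := by
    have := Ideal.mul_mem_mul hq (h x)
    rw [← pow_succ'] at this
    exact this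
  have h3 : IsCoprime (N : A) (q : A) := by
    have := Nat.isCoprime_iff_coprime.2 hc
    have := this.map (Int.castRingHom A)
    simpa using this
  obtain ⟨a, b, hab⟩ := h3
  have e : s x - x = -a * -((N : A) * (s x - x)) + b * ((q : A) * (s x - x)) := by
    linear_combination (-(s x - x)) * hab
  rw [e]
  exact Ideal.add_mem _ (Ideal.mul_mem_left _ _ h1) (Ideal.mul_mem_left _ _ h2)

theorem tame [IsDomain A] [IsNoetherianRing A] (hP : P ≠ ⊤) {N q : ℕ} (hq : (q : A) ∈ P)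
    (hc : Nat.Coprime N q) (hN : ∀ x, s^[N] x = x) (h1 : ∀ x, s x - x ∈ P ^ 2) :
    ∀ x, s x = x := by
  have h : ∀ m : ℕ, ∀ x, s x - x ∈ P ^ (m + 2) := by
    intro m
    induction m with
    | zero => exact h1
    | succ m ih =>
      have := tame_step P s (m := m + 1) (by omega) hq hc hN ih
      exact this
  intro x
  have h2 : s x - x ∈ ⨅ i : ℕ, P ^ i := by
    rw [Submodule.mem_iInf]
    intro i
    exact Ideal.pow_le_pow_right (by omega) (h i x)
  rw [Ideal.iInf_pow_eq_bot_of_isDomain P hP] at h2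
  exact sub_eq_zero.1 h2

end Tame

section Unram

variable {A : Type*} [CommRing A] [IsDomain A] {ι : A} (P : Ideal A) (s : A →+* A)

omit [IsDomain A] in
lemma z_not_mem (hP : P ≠ ⊤) {z : A} (hz : hh ι (z ^ 2) = 0) : z ∉ P := by
  intro h
  apply hP
  rw [Ideal.eq_top_iff_one, ← hh_unit (z ^ 2) hz]
  exact Ideal.mul_mem_right _ _ (Ideal.pow_mem_of_mem _ h 2 (by norm_num))

/-- an element of the inertia group does not map `z` to `-z` -/
lemma not_neg (h2 : (2 : A) ≠ 0) (hs : s ι = ι) (hP : P ≠ ⊤) {z w : A} (hz : hh ι (z ^ 2) = 0)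
    (hw : 2 * w = z + ss ι (z ^ 2)) (h : ∀ x, s x - x ∈ P) : s z ≠ -z := by
  intro hneg
  have h3 : s w - w = -z := by
    apply mul_left_cancel₀ h2
    have h4 : 2 * s w = -z + ss ι (z ^ 2) := by
      have := congrArg s hw
      rw [map_mul, map_add, map_ss, map_pow, hneg, hs, map_ofNat, neg_sq] at this
      exact this
    linear_combination h4 - hw
  apply z_not_mem P hP hz
  have := h w
  rw [h3] at this
  exact (Ideal.neg_mem_iff _).1 this

theorem unram (hι : ι ^ 2 = -1) (h2 : (2 : A) ≠ 0) (hs : s ι = ι) (hP : P ≠ ⊤)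
    (hd : 6 + 29 * ι ∉ P) {z w : A} (hz : hh ι (z ^ 2) = 0)
    (hw : 2 * w = z + ss ι (z ^ 2)) (h : ∀ x, s x - x ∈ P) : s z = z := by
  have e1 : s (th ι (z ^ 2)) = th ι ((s z) ^ 2) := by rw [map_th, hs, map_pow]
  have hsz : hh ι ((s z) ^ 2) = 0 := by
    have := congrArg s hz
    rw [map_hh, hs, map_pow, map_zero] at this
    exact this
  have e2 : s (th ι (z ^ 2)) = th ι (z ^ 2) := by
    by_contra hne
    have h3 := ff_sub ι (s (th ι (z ^ 2))) (th ι (z ^ 2))
    rw [e1, ff_th hι _ hsz, ff_th hι _ hz, ← e1, sub_zero, eq_comm] at h3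
    rcases mul_eq_zero.1 h3 with h3 | h3
    · exact hne (sub_eq_zero.1 h3)
    · have h4 : fd ι (th ι (z ^ 2)) ∈ P := by
        have h5 : fd ι (th ι (z ^ 2)) = -((s (th ι (z ^ 2)) - th ι (z ^ 2)) *
          (6 * (th ι (z ^ 2)) ^ 2 - 3 * (th ι (z ^ 2)) + (3 - ι) +
          (s (th ι (z ^ 2)) - th ι (z ^ 2)) * (4 * (th ι (z ^ 2)) - 1) +
          (s (th ι (z ^ 2)) - th ι (z ^ 2)) ^ 2)) := by linear_combination h3
        rw [h5]
        exact (Ideal.neg_mem_iff _).2 (Ideal.mul_mem_right _ _ (h _))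
      apply hd
      rw [← bez hι (th ι (z ^ 2)), ff_th hι _ hz, mul_zero, zero_add]
      exact Ideal.mul_mem_left _ _ h4
  have e3 : (s z) ^ 2 = z ^ 2 := by
    have h3 := th_sq hι _ hsz
    have h4 := th_sq hι _ hz
    rw [← e1, e2] at h3
    rw [h3, ← h4]
  have e4 : (s z - z) * (s z + z) = 0 := by linear_combination e3
  rcases mul_eq_zero.1 e4 with h3 | h3
  · exact sub_eq_zero.1 h3
  · exact absurd (eq_neg_of_add_eq_zero_left h3) (not_neg P s h2 hs hP hz hw h)

end Unram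

section Ramified

variable {A : Type*} [CommRing A] {ι : A} (P : Ideal A)

theorem ramified (hι : ι ^ 2 = -1) {y : A} (hy : hh ι y = 0) (hd : 6 + 29 * ι ∈ P)
    (hyP : y - (172 + 140 * ι) ∈ P) : 6 + 29 * ι ∈ P ^ 2 := by
  set x := th ι y with hx
  have h1 : x - th ι (172 + 140 * ι) ∈ P := by
    rw [← Ideal.Quotient.eq, hx, map_th, map_th, (Ideal.Quotient.eq).2 hyP]
  have h2 : th ι (172 + 140 * ι) = (14 + 5 * ι) + (6 + 29 * ι) * (-229070 + 287415 * ι) := by
    simp only [th]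
    linear_combination (2744000 * ι ^ 2 + 10133200 * ι + 1433745) * hι
  have h3 : x - (14 + 5 * ι) ∈ P := by
    have e : x - (14 + 5 * ι) = (x - th ι (172 + 140 * ι)) +
        (6 + 29 * ι) * (-229070 + 287415 * ι) := by rw [h2]; ring
    rw [e]
    exact Ideal.add_mem _ h1 (Ideal.mul_mem_right _ _ hd)
  have h4 := ff_exp hι x
  rw [hx, ff_th hι y hy, ← hx] at h4
  have h5 : (x - (14 + 5 * ι)) * ((6 + 29 * ι) * (402 - 136 * ι)) ∈ P ^ 2 := by
    rw [← mul_assoc, pow_two]
    exact Ideal.mul_mem_right _ _ (Ideal.mul_mem_mul h3 hd)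
  have h6 : (x - (14 + 5 * ι)) ^ 2 * ((488 + 409 * ι) + (27 + 10 * ι) * x + x ^ 2) ∈ P ^ 2 :=
    Ideal.mul_mem_right _ _ (Ideal.pow_mem_pow h3 2)
  have h7 : (6 + 29 * ι) * (1557 + 26 * ι) ∈ P ^ 2 := by
    have e : (6 + 29 * ι) * (1557 + 26 * ι) =
        -((x - (14 + 5 * ι)) * ((6 + 29 * ι) * (402 - 136 * ι))) -
        ((x - (14 + 5 * ι)) ^ 2 * ((488 + 409 * ι) + (27 + 10 * ι) * x + x ^ 2)) := by
      linear_combination -h4
    rw [e]
    exact Ideal.sub_mem _ ((Ideal.neg_mem_iff _).2 h5) h6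
  have h8 : (6 + 29 * ι) ^ 2 ∈ P ^ 2 := Ideal.pow_mem_pow hd 2
  have e : 6 + 29 * ι = (6 + 29 * ι) * (1557 + 26 * ι) * (-6 + 10 * ι) -
      (6 + 29 * ι) ^ 2 * (444 + 423 * ι) := by
    linear_combination (-(6 + 29 * ι)) * inv_u hι
  rw [e]
  exact Ideal.sub_mem _ (Ideal.mul_mem_right _ _ h7) (Ideal.mul_mem_right _ _ h8)

end Ramified

end Q276.SM
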