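import Pool.Agent.Q276.SM.Gal3
import Pool.Agent.Q276.SM.Ram1

/-! The field cut out by `ρ` and its ring of integers. -/

set_option autoImplicit false

open Matrix Polynomial

namespace Q276.SM

/-- the field generated by the labels -/
noncomputable def E8 : IntermediateField K Kbar := IntermediateField.adjoin K (Set.range rt)

lemma rt_mem_E8 (v : Fin 2 → ZMod 3) : rt v ∈ E8 :=
  IntermediateField.subset_adjoin K _ ⟨v, rfl⟩

instance : FiniteDimensional K E8 := by
  unfold E8
  apply IntermediateField.finiteDimensional_adjoin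
  rintro x ⟨v, rfl⟩
  exact (rt_int v).tower_top

lemma fix_le_ker : E8.fixingSubgroup ≤ rho.ker := by
  intro σ hσ
  rw [MonoidHom.mem_ker, rho_eq_one, m3_eq_one]
  intro v
  rw [IntermediateField.mem_fixingSubgroup_iff] at hσ
  exact hσ _ (rt_mem_E8 v)

theorem rho_cont : IsCont rho :=
  Subgroup.isOpen_mono fix_le_ker (IntermediateField.fixingSubgroup_isOpen E8)

/-- The field cut out by `ρ`. -/
noncomputable abbrev L : IntermediateField K Kbar := splittingField rho

lemma mem_L {x : Kbar} : x ∈ L ↔ ∀ σ : GK, rho σ = 1 → σ x = x := by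
  unfold L splittingField
  rw [IntermediateField.mem_fixedField_iff]
  rfl

lemma rt_mem_L (v : Fin 2 → ZMod 3) : rt v ∈ L := by
  rw [mem_L]
  intro σ hσ
  exact m3_eq_one.1 (rho_eq_one.1 hσ) v

lemma L_le : L ≤ E8 := by
  intro x hx
  rw [← InfiniteGalois.fixedField_fixingSubgroup E8, IntermediateField.mem_fixedField_iff]
  intro σ hσ
  exact mem_L.1 hx σ (fix_le_ker hσ)

instance : FiniteDimensional K L :=
  FiniteDimensional.of_injective (IntermediateField.inclusion L_le).toLinearMap
    (IntermediateField.inclusion L_le).injective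

instance : IsGalois K L := by
  unfold L splittingField
  exact IsGalois.of_fixedField_normal_subgroup _

/-- The ring of integers of the field cut out by `ρ`. -/
noncomputable abbrev A : Type := intRing rho

/-- The embedding of the ring of integers in the algebraic closure. -/
noncomputable def emb : A →+* Kbar := (algebraMap L Kbar).comp (algebraMap A L)

lemma emb_apply (a : A) : emb a = ((a : L) : Kbar) := rfl

lemma emb_inj {a b : A} (h : emb a = emb b) : a = b :=
  Subtype.coe_injective (Subtype.coe_injective h)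

lemma emb_algebraMap (x : O) : emb (algebraMap O A x) = algebraMap O Kbar x := by
  change algebraMap L Kbar (algebraMap A L (algebraMap O A x)) = _
  rw [← IsScalarTower.algebraMap_apply O A L, IsScalarTower.algebraMap_apply O K L,
    ← IsScalarTower.algebraMap_apply K L Kbar, ← IsScalarTower.algebraMap_apply O K Kbar]

lemma exists_A {x : Kbar} (hx : x ∈ L) (hi : IsIntegral O x) : ∃ a : A, emb a = x := by
  have h1 : IsIntegral O (⟨x, hx⟩ : L) := by
    obtain ⟨p, hp, hpx⟩ := hi
    refine ⟨p, hp, ?_⟩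
    have hcomp : algebraMap O Kbar = (algebraMap L Kbar).comp (algebraMap O L) := by
      refine RingHom.ext fun y => ?_
      rw [RingHom.comp_apply, IsScalarTower.algebraMap_apply O K L,
        ← IsScalarTower.algebraMap_apply K L Kbar, ← IsScalarTower.algebraMap_apply O K Kbar]
    apply (algebraMap L Kbar).injective
    rw [map_zero, Polynomial.hom_eval₂, ← hcomp]
    exact hpx
  exact ⟨⟨⟨x, hx⟩, h1⟩, rfl⟩

lemma emb_int (a : A) : IsIntegral O (emb a) := by
  obtain ⟨p, hp, hpx⟩ := a.2
  refine ⟨p, hp, ?_⟩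
  have hcomp : algebraMap O Kbar = (algebraMap L Kbar).comp (algebraMap O L) := by
    refine RingHom.ext fun y => ?_
    rw [RingHom.comp_apply, IsScalarTower.algebraMap_apply O K L,
      ← IsScalarTower.algebraMap_apply K L Kbar, ← IsScalarTower.algebraMap_apply O K Kbar]
  rw [hcomp]
  change eval₂ ((algebraMap L Kbar).comp (algebraMap O L)) (algebraMap L Kbar (a : L)) p = 0
  rw [← Polynomial.hom_eval₂]
  have : eval₂ (algebraMap O L) (a : L) p = 0 := hpx
  rw [this, map_zero]

lemma gal_int (σ : GK) {x : Kbar} (hx : IsIntegral O x) : IsIntegral O (σ x) := by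
  obtain ⟨p, hp, hpx⟩ := hx
  refine ⟨p, hp, ?_⟩
  have h1 : (σ : Kbar →+* Kbar).comp (algebraMap O Kbar) = algebraMap O Kbar := by
    refine RingHom.ext fun y => ?_
    exact gal_fix σ y
  have h2 := Polynomial.hom_eval₂ p (algebraMap O Kbar) (σ : Kbar →+* Kbar) x
  rw [h1] at h2
  have h3 : eval₂ (algebraMap O Kbar) x p = 0 := hpx
  rw [h3, map_zero] at h2
  exact h2.symm

lemma gal_L (σ : GK) {x : Kbar} (hx : x ∈ L) : σ x ∈ L := by
  rw [mem_L] at hx ⊢
  intro τ hτ
  have h1 : rho (σ⁻¹ * τ * σ) = 1 := by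
    rw [map_mul, map_mul, hτ, mul_one, ← map_mul, inv_mul_cancel, map_one]
  have h2 := hx _ h1
  have h3 : σ ((σ⁻¹ * τ * σ) x) = τ (σ x) := by
    change σ (σ⁻¹ (τ (σ x))) = τ (σ x)
    exact σ.apply_symm_apply _
  rw [← h3, h2]

lemma exists_sA (σ : GK) (a : A) : ∃ b : A, emb b = σ (emb a) := by
  apply exists_A
  · exact gal_L σ a.1.2
  · exact gal_int σ (emb_int a)

/-- The action of the Galois group on the ring of integers. -/
noncomputable def sA (σ : GK) : A →+* A where
  toFun a := (exists_sA σ a).choose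
  map_one' := by
    apply emb_inj
    rw [(exists_sA σ 1).choose_spec, map_one, map_one]
  map_mul' a b := by
    apply emb_inj
    rw [(exists_sA σ (a * b)).choose_spec, map_mul, map_mul, map_mul,
      (exists_sA σ a).choose_spec, (exists_sA σ b).choose_spec]
  map_zero' := by
    apply emb_inj
    rw [(exists_sA σ 0).choose_spec, map_zero, map_zero]
  map_add' a b := by
    apply emb_inj
    rw [(exists_sA σ (a + b)).choose_spec, map_add, map_add, map_add,
      (exists_sA σ a).choose_spec, (exists_sA σ b).choose_spec]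

lemma emb_sA (σ : GK) (a : A) : emb (sA σ a) = σ (emb a) := (exists_sA σ a).choose_spec

lemma sA_mul (σ τ : GK) (a : A) : sA (σ * τ) a = sA σ (sA τ a) := by
  apply emb_inj
  rw [emb_sA, emb_sA, emb_sA]; rfl

lemma sA_pow (σ : GK) (n : ℕ) (a : A) : sA (σ ^ n) a = (sA σ)^[n] a := by
  induction n with
  | zero =>
    apply emb_inj
    rw [emb_sA, pow_zero]; rfl
  | succ n ih =>
    rw [Function.iterate_succ_apply', ← ih, pow_succ', sA_mul]

lemma sA_of_rho {σ : GK} (h : rho σ = 1) (a : A) : sA σ a = a := by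
  apply emb_inj
  rw [emb_sA]
  exact mem_L.1 a.1.2 σ h

/-- `i` in the ring of integers -/
noncomputable def iA : A := algebraMap O A Ii

lemma emb_iA : emb iA = (ib : Kbar) := emb_algebraMap Ii

lemma iA_sq : iA ^ 2 = -1 := by
  unfold iA
  rw [← map_pow]
  have h : Ii ^ 2 = -1 := by decide
  rw [h, map_neg, map_one]

lemma sA_iA (σ : GK) : sA σ iA = iA := by
  apply emb_inj
  rw [emb_sA, emb_iA, gal_ib]

/-- the labels in the ring of integers -/
noncomputable def ra (v : Fin 2 → ZMod 3) : A := (exists_A (rt_mem_L v) (rt_int v)).choose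

lemma emb_ra (v : Fin 2 → ZMod 3) : emb (ra v) = rt v :=
  (exists_A (rt_mem_L v) (rt_int v)).choose_spec

lemma ra_hh {v : Fin 2 → ZMod 3} (hv : v ≠ 0) : hh iA ((ra v) ^ 2) = 0 := by
  apply emb_inj
  rw [map_hh, map_zero, map_pow, emb_iA, emb_ra, rt_hh hv]

lemma sA_ra (σ : GK) (v : Fin 2 → ZMod 3) : sA σ (ra v) = ra (mx (m3 σ) *ᵥ v) := by
  apply emb_inj
  rw [emb_sA, emb_ra, emb_ra, m3_spec]

lemma two_ne : (2 : A) ≠ 0 := by
  intro h
  have := congrArg emb h
  rw [map_ofNat, map_zero] at this
  exact two_ne_zero this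

/-- The half-integral elements. -/
lemma exists_wa (v : Fin 2 → ZMod 3) (hv : v ≠ 0) : ∃ w : A, 2 * w = ra v + ss iA ((ra v) ^ 2) := by
  have h2 : (2 : Kbar) ≠ 0 := two_ne_zero
  have hz : hh (ib : Kbar) ((rt v) ^ 2) = 0 := rt_hh hv
  have hι : (ib : Kbar) ^ 2 = -1 := by
    have := congrArg (algebraMap Obar Kbar) ib_sq
    rw [map_pow, map_neg, map_one] at this
    exact this
  obtain ⟨w, hw⟩ : ∃ w : A, emb w = (rt v + ss (ib : Kbar) ((rt v) ^ 2)) / 2 := by
    apply exists_A
    · have h3 : (ib : Kbar) ∈ L := by rw [← emb_iA]; exact iA.1.2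
      have h4 : ss (ib : Kbar) ((rt v) ^ 2) ∈ L := by
        rw [← emb_ra, ← emb_iA, ← map_pow, ← map_ss]
        exact (ss iA ((ra v) ^ 2)).1.2
      exact L.div_mem (L.add_mem (rt_mem_L v) h4) (by
        have : (2 : Kbar) = ((2 : L) : Kbar) := rfl
        rw [this]; exact (2 : L).2)
    · -- integral over `A`-image: root of `X² - s X + E`
      have h5 : IsIntegral Obar ((rt v + ss (ib : Kbar) ((rt v) ^ 2)) / 2) := by
        refine ⟨X ^ 2 + (- C (ss ib ((lbl.r v) ^ 2)) * X + C (EE ib ((lbl.r v) ^ 2))), ?_, ?_⟩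
        · apply monic_X_pow_add
          compute_degree!
        · have h6 : algebraMap Obar Kbar (ss ib ((lbl.r v) ^ 2)) =
              ss (ib : Kbar) ((rt v) ^ 2) := by rw [map_ss, map_pow]; rfl
          have h7 : algebraMap Obar Kbar (EE ib ((lbl.r v) ^ 2)) =
              EE (ib : Kbar) ((rt v) ^ 2) := by rw [map_EE, map_pow]; rfl
          simp only [eval₂_add, eval₂_mul, eval₂_neg, eval₂_pow, eval₂_X, eval₂_C, h6, h7]
          have h8 := ss_sq hι _ hz
          field_simp
          linear_combination (-1 : Kbar) * h8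
      exact isIntegral_trans _ h5
  refine ⟨w, ?_⟩
  apply emb_inj
  rw [map_mul, map_add, map_ss, map_pow, emb_ra, emb_iA, hw, map_ofNat]
  field_simp

/-- membership in the ramification sets -/
lemma mem_ramSet {P : Ideal A} {n : ℕ} {σ : GK} :
    σ ∈ ramSet rho P n ↔ ∀ x : A, sA σ x - x ∈ P ^ (n + 1) := by
  constructor
  · intro h x
    obtain ⟨y, hy, e⟩ := h x
    have : sA σ x - x = y := by
      apply emb_inj
      rw [map_sub, emb_sA]
      change σ ((x : L) : Kbar) - ((x : L) : Kbar) = ((y : L) : Kbar)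
      rw [e]; ring
    rw [this]; exact hy
  · intro h x
    refine ⟨sA σ x - x, h x, ?_⟩
    have : emb (sA σ x - x) = σ (emb x) - emb x := by rw [map_sub, emb_sA]
    change σ (emb x) = emb x + emb (sA σ x - x)
    rw [this]; ring

end Q276.SM
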