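import Pool.Agent.Q276.SM.Cls

/-! Polynomial identities for the `SL₂(𝔽₃)`-extension of `ℚ(i)`. -/

set_option autoImplicit false

open Matrix

namespace Q276.SM

section Poly

variable {R : Type*} [CommRing R] (ι : R)

/-- The quartic whose roots are the squares of the labels. -/
def hh (y : R) : R := y ^ 4 + (1 - 2 * ι) * y ^ 3 + y ^ 2 + (2 + 2 * ι) * y - 1

def cA (y : R) : R := (2 + 3 * ι) + (4 - 2 * ι) * y + (5 - 3 * ι) * y ^ 2 + (2 + ι) * y ^ 3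

def cB (y : R) : R := (4 - 2 * ι) + (-2 - ι) * y + (-4 - 5 * ι) * y ^ 2 + (1 - 2 * ι) * y ^ 3

def cG (y : R) : R := (2 - 2 * ι) - ι * y + (-2 - ι) * y ^ 2 - ι * y ^ 3

def CC (z w : R) : R :=
  w ^ 3 + cA ι (z ^ 2) * z * w ^ 2 + cB ι (z ^ 2) * w + cG ι (z ^ 2) * z

def th (y : R) : R := ι * y ^ 3 + (2 + ι) * y ^ 2 + (1 + ι) * y + (-1 + ι)

def ff (x : R) : R := x ^ 4 - x ^ 3 + (3 - ι) * x ^ 2 - x + 2

def ss (y : R) : R := 1 + (1 + ι) * y + y ^ 2 + ι * y ^ 3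

def EE (y : R) : R := ι + (3 - ι) * y - ι * y ^ 2 - y ^ 3

variable {ι}

lemma key (hι : ι ^ 2 = -1) (z w : R) (hz : hh ι (z ^ 2) = 0) (hw : hh ι (w ^ 2) = 0) :
    (w - z) * (w + z) * CC ι z w * CC ι z (-w) = 0 := by
  have h1 : ∀ y v : R, hh ι v - (v - y) * (v * (v + cB ι y) ^ 2 - y * (cA ι y * v + cG ι y) ^ 2) =
      (- 4*ι*y^4*v^2 + 4*ι*y^4*v + 4*ι*y^3*v^3 - 4*ι*y^3*v^2 + 6*ι*y^3*v - 2*ι*y^3 - 2*ι*y^2*v^2
       + 14*ι*y^2*v - 4*ι*y*v^3 - 10*ι*y*v^2 + 16*ι*y*v + 2*ι*y - 2*ι*v^3 - 16*ι*v^2 - 2*ι*v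
       - 3*y^4*v^2 - 2*y^4*v + y^4 + 3*y^3*v^3 - 13*y^3*v^2 + 2*y^3*v + y^3 + 15*y^2*v^3
       - 21*y^2*v^2 - 14*y^2*v + y^2 + 18*y*v^3 + 6*y*v^2 - 12*y*v + 2*y + 7*v^3 + 11*v^2
       - 2*v + 1) * hh ι y +
      (- y^8*v^2 + 2*y^8*v - y^8 + y^7*v^3 - 4*y^7*v^2 + 9*y^7*v - 2*y^7 + 2*y^6*v^3 - 13*y^6*v^2
       + 26*y^6*v - 7*y^6 + 5*y^5*v^3 - 26*y^5*v^2 + 52*y^5*v - 6*y^5 + 2*y^4*v^3 - 27*y^4*v^2
       + 34*y^4*v + 3*y^4 - 18*y^3*v^3 - 24*y^3*v^2 - 8*y^3*v - 4*y^3 - 4*y^2*v^3 - 8*y^2*v^2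
       - 12*y^2*v - 8*y^2 + 13*y*v^3 + 16*y*v^2 + 12*y*v - 4*v^2) * (ι ^ 2 + 1) := by
    intro y v
    simp only [hh, cA, cB, cG]
    ring
  have h2 := h1 (z ^ 2) (w ^ 2)
  rw [hz, hw, hι] at h2
  have h3 : (w - z) * (w + z) * CC ι z w * CC ι z (-w) =
      -((w ^ 2 - z ^ 2) * (w ^ 2 * (w ^ 2 + cB ι (z ^ 2)) ^ 2 -
        z ^ 2 * (cA ι (z ^ 2) * w ^ 2 + cG ι (z ^ 2)) ^ 2)) := by
    simp only [CC]; ring
  rw [h3]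
  linear_combination h2

lemma th_sq (hι : ι ^ 2 = -1) (y : R) (hy : hh ι y = 0) : y = 1 + th ι y ^ 2 := by
  have h : 1 + th ι y ^ 2 - y = (2*ι*y + 2*ι - y^2 - y - 1) * hh ι y +
      (y^6 + 2*y^5 + 7*y^4 + 8*y^3 - y^2 - 2*y + 1) * (ι ^ 2 + 1) := by
    simp only [th, hh]; ring
  rw [hy, hι] at h
  linear_combination -h

lemma ff_th (hι : ι ^ 2 = -1) (y : R) (hy : hh ι y = 0) : ff ι (th ι y) = 0 := by
  have h : ff ι (th ι y) = (- 6*ι*y^7 - 16*ι*y^6 - 15*ι*y^5 - 10*ι*y^4 - 21*ι*y^3 - 22*ι*y^2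
      + 3*ι*y + 9*ι + y^8 + 3*y^7 - 6*y^6 - 19*y^5 - 11*y^4 + 5*y^2 + 11*y + 5) * hh ι y +
      (ι^2*y^12 + 4*ι^2*y^11 + 10*ι^2*y^10 + 20*ι^2*y^9 + 31*ι^2*y^8 + 40*ι^2*y^7 + 44*ι^2*y^6
      + 40*ι^2*y^5 + 31*ι^2*y^4 + 20*ι^2*y^3 + 10*ι^2*y^2 + 4*ι^2*y + ι^2 + 8*ι*y^11
      + 28*ι*y^10 + 55*ι*y^9 + 89*ι*y^8 + 106*ι*y^7 + 93*ι*y^6 + 66*ι*y^5 + 25*ι*y^4
      - 6*ι*y^3 - 13*ι*y^2 - 13*ι*y - 6*ι - y^12 - 4*y^11 + 2*y^10 + 20*y^9 + 47*y^8 + 77*y^7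
      + 22*y^6 - 65*y^5 - 13*y^4 + 17*y^3 - 38*y^2 - 13*y + 13) * (ι ^ 2 + 1) := by
    simp only [ff, th, hh]; ring
  rw [hy, hι] at h
  rw [h]; ring

lemma ss_sq (hι : ι ^ 2 = -1) (y : R) (hy : hh ι y = 0) : ss ι y ^ 2 - y = 4 * EE ι y := by
  have h : ss ι y ^ 2 - y - 4 * EE ι y = (4*ι - y^2 + y - 1) * hh ι y +
      (y^6 + 2*y^4 + 8*y^3 + y^2 - 8*y) * (ι ^ 2 + 1) := by
    simp only [ss, EE, hh]; ring
  rw [hy, hι] at h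
  linear_combination h

/-- the derivative of `ff` -/
def fd (ι x : R) : R := 4 * x ^ 3 - 3 * x ^ 2 + 2 * (3 - ι) * x - 1

lemma bez (hι : ι ^ 2 = -1) (x : R) :
    ((1 + 14 * ι) + (16 + 2 * ι) * x + (-16 + 8 * ι) * x ^ 2) * ff ι x +
    ((-4 - ι) + (5 - 8 * ι) * x - 5 * x ^ 2 + (4 - 2 * ι) * x ^ 3) * fd ι x = 6 + 29 * ι := by
  have h : ((1 + 14 * ι) + (16 + 2 * ι) * x + (-16 + 8 * ι) * x ^ 2) * ff ι x +
    ((-4 - ι) + (5 - 8 * ι) * x - 5 * x ^ 2 + (4 - 2 * ι) * x ^ 3) * fd ι x - (6 + 29 * ι) =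
    (- 4*x^4 - 2*x^3 + 2*x^2 + 2*x) * (ι ^ 2 + 1) := by
    simp only [ff, fd]; ring
  rw [hι] at h
  linear_combination h

lemma ff_sub (ι x y : R) : ff ι x - ff ι y = (x - y) * (fd ι y + (x - y) *
    (6 * y ^ 2 - 3 * y + (3 - ι) + (x - y) * (4 * y - 1) + (x - y) ^ 2)) := by
  simp only [ff, fd]; ring

/-- expansion of `ff` at `14 + 5 i` -/
lemma ff_exp (hι : ι ^ 2 = -1) (x : R) : ff ι x = (6 + 29 * ι) * (1557 + 26 * ι) +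
    (x - (14 + 5 * ι)) * ((6 + 29 * ι) * (402 - 136 * ι)) +
    (x - (14 + 5 * ι)) ^ 2 * ((488 + 409 * ι) + (27 + 10 * ι) * x + x ^ 2) := by
  have h : ff ι x - ((6 + 29 * ι) * (1557 + 26 * ι) +
    (x - (14 + 5 * ι)) * ((6 + 29 * ι) * (402 - 136 * ι)) +
    (x - (14 + 5 * ι)) ^ 2 * ((488 + 409 * ι) + (27 + 10 * ι) * x + x ^ 2)) =
    (- 250*ι*x - 29945*ι + 75*x^2 + 5959*x - 71220) * (ι ^ 2 + 1) := by
    simp only [ff]; ring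
  rw [hι] at h
  linear_combination h

lemma inv_u (hι : ι ^ 2 = -1) : (1557 + 26 * ι) * (-6 + 10 * ι) =
    1 + (6 + 29 * ι) * (444 + 423 * ι) := by
  linear_combination (-12007) * hι

lemma hh_unit (y : R) (hy : hh ι y = 0) : y * (y ^ 3 + (1 - 2 * ι) * y ^ 2 + y + (2 + 2 * ι)) = 1 := by
  simp only [hh] at hy
  linear_combination hy

section Map
variable {S : Type*} [CommRing S] (φ : R →+* S)

lemma map_hh (ι y : R) : φ (hh ι y) = hh (φ ι) (φ y) := by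
  simp only [hh, map_add, map_sub, map_mul, map_pow, map_one, map_ofNat]

lemma map_CC (ι z w : R) : φ (CC ι z w) = CC (φ ι) (φ z) (φ w) := by
  simp only [CC, cA, cB, cG, map_add, map_sub, map_mul, map_pow, map_one, map_ofNat, map_neg]

lemma map_th (ι y : R) : φ (th ι y) = th (φ ι) (φ y) := by
  simp only [th, map_add, map_mul, map_pow, map_one, map_ofNat, map_neg]

lemma map_ff (ι y : R) : φ (ff ι y) = ff (φ ι) (φ y) := by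
  simp only [ff, map_add, map_sub, map_mul, map_pow, map_ofNat]

lemma map_ss (ι y : R) : φ (ss ι y) = ss (φ ι) (φ y) := by
  simp only [ss, map_add, map_mul, map_pow, map_one]

lemma map_EE (ι y : R) : φ (EE ι y) = EE (φ ι) (φ y) := by
  simp only [EE, map_add, map_sub, map_mul, map_pow, map_ofNat]

end Map

end Poly

/-! ## The table of labels modulo 193 -/

/-- The reductions of the labels. -/
def tbl : Fin 3 → Fin 3 → ℕ := ![![0, 39, 154], ![26, 94, 34], ![167, 159, 99]]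

/-- The reduction of the label of the vector `v`. -/
def lab (v : Fin 2 → ZMod 3) : ℕ := tbl (v 0) (v 1)

/-- `i` modulo `193` -/
def i193 : ZMod 193 := 112

lemma lab_zero : ∀ v : Fin 2 → ZMod 3, lab v = 0 ↔ v = 0 := by decide

lemma lab_inj : ∀ v w : Fin 2 → ZMod 3, ((lab v : ℕ) : ZMod 193) = (lab w : ℕ) → v = w := by decide

lemma lab_hh : ∀ v : Fin 2 → ZMod 3, v ≠ 0 → hh i193 (((lab v : ℕ) : ZMod 193) ^ 2) = 0 := by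
  decide

lemma lab_neg : ∀ v : Fin 2 → ZMod 3, ((lab (-v) : ℕ) : ZMod 193) = -(lab v : ℕ) := by decide

/-- the determinant -/
def dt (t v : Fin 2 → ZMod 3) : ZMod 3 := t 0 * v 1 - t 1 * v 0

lemma lab_CC : ∀ t v : Fin 2 → ZMod 3, t ≠ 0 →
    (CC i193 ((lab t : ℕ) : ZMod 193) ((lab v : ℕ) : ZMod 193) = 0 ↔ dt t v = 1) := by
  decide

lemma lab_CC' : ∀ t v : Fin 2 → ZMod 3, dt t v = 1 →
    (t ≠ 0 ∧ v ≠ 0 ∧ ((lab v : ℕ) : ZMod 193) - ((lab t : ℕ) : ZMod 193) ≠ 0 ∧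
      ((lab v : ℕ) : ZMod 193) + ((lab t : ℕ) : ZMod 193) ≠ 0 ∧
      CC i193 ((lab t : ℕ) : ZMod 193) (-((lab v : ℕ) : ZMod 193)) ≠ 0) := by
  decide

end Q276.SM
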