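import Pool.Agent.Q276.SM.Gal1
import Pool.Agent.Q276.SM.Defs

/-! The nine labels in the ring of algebraic integers. -/

set_option autoImplicit false

open Matrix Polynomial

namespace Q276.SM

/-- The ring of algebraic integers. -/
abbrev Obar : Type := integralClosure O Kbar

/-- `i` as an algebraic integer -/
noncomputable def ib : Obar := algebraMap O Obar Ii

lemma ib_sq : ib ^ 2 = -1 := by
  unfold ib
  rw [← map_pow]
  have h : Ii ^ 2 = -1 := by decide
  rw [h, map_neg, map_one]

/-- reduction modulo `7 + 12 i` -/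
noncomputable def phi : O →+* ZMod 193 := Zsqrtd.lift ⟨112, by decide⟩

lemma phi_Ii : phi Ii = i193 := by
  simp [phi, Zsqrtd.lift, Ii, i193]

instance : Fact (Nat.Prime 193) := ⟨by norm_num⟩

lemma phi_surj : Function.Surjective phi := by
  intro x
  exact ⟨(x.val : O), by rw [map_natCast, ZMod.natCast_zmod_val]⟩

lemma algO_inj : Function.Injective (algebraMap O Kbar) := by
  rw [IsScalarTower.algebraMap_eq O K Kbar]
  exact (algebraMap K Kbar).injective.comp (IsFractionRing.injective O K)

/-- A reduction of the algebraic integers in characteristic 193. -/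
theorem exists_red : ∃ (Q : Ideal Obar), Q.IsMaximal ∧ ∃ ψ : ZMod 193 →+* Obar ⧸ Q,
    Function.Injective ψ ∧ ∀ x : O, Ideal.Quotient.mk Q (algebraMap O Obar x) = ψ (phi x) := by
  have hm : (RingHom.ker phi).IsMaximal := RingHom.ker_isMaximal_of_surjective _ phi_surj
  have hinj : Function.Injective (algebraMap O Obar) := by
    intro a b hab
    apply algO_inj
    have := congrArg (algebraMap Obar Kbar) hab
    simpa [← IsScalarTower.algebraMap_apply] using this
  obtain ⟨Q, hQ, hc⟩ := Ideal.exists_ideal_over_maximal_of_isIntegral (S := Obar)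
    (RingHom.ker phi) (by rw [(RingHom.injective_iff_ker_eq_bot _).1 hinj]; exact bot_le)
  have hk : ∀ x : O, phi x = 0 → Ideal.Quotient.mk Q (algebraMap O Obar x) = 0 := by
    intro x hx
    rw [Ideal.Quotient.eq_zero_iff_mem]
    have : x ∈ Ideal.comap (algebraMap O Obar) Q := by rw [hc]; exact hx
    exact this
  refine ⟨Q, hQ, ?_⟩
  let ψ : ZMod 193 →+* Obar ⧸ Q := (RingHom.liftOfSurjective phi phi_surj
    ⟨(Ideal.Quotient.mk Q).comp (algebraMap O Obar), fun x hx => hk x hx⟩)
  have hψ : ∀ x : O, Ideal.Quotient.mk Q (algebraMap O Obar x) = ψ (phi x) := by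
    intro x
    have := RingHom.liftOfRightInverse_comp_apply phi (Function.surjInv phi_surj)
      (Function.rightInverse_surjInv phi_surj)
      ⟨(Ideal.Quotient.mk Q).comp (algebraMap O Obar), fun x hx => hk x hx⟩ x
    exact this.symm
  have : Nontrivial (Obar ⧸ Q) := Ideal.Quotient.nontrivial_iff.2 hQ.ne_top
  exact ⟨ψ, ψ.injective, hψ⟩

/-- the polynomial `X hh(X²)` over the algebraic closure -/
noncomputable def gp : Kbar[X] := X * (X ^ 8 + C (1 - 2 * (ib : Kbar)) * X ^ 6 + X ^ 4 +
  C (2 + 2 * (ib : Kbar)) * X ^ 2 - 1)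

lemma gp_eval (x : Kbar) : gp.eval x = x * hh (ib : Kbar) (x ^ 2) := by
  simp only [gp, hh, eval_mul, eval_X, eval_sub, eval_add, eval_pow, eval_C, eval_one]
  ring

lemma gp_aux : gp = X ^ 9 + (C (1 - 2 * (ib : Kbar)) * X ^ 7 + X ^ 5 +
    C (2 + 2 * (ib : Kbar)) * X ^ 3 - X) := by
  unfold gp; ring

lemma gp_monic : gp.Monic := by
  rw [gp_aux]
  apply monic_X_pow_add
  compute_degree!

lemma gp_natDegree : gp.natDegree = 9 := by
  rw [gp_aux]
  compute_degree!

lemma gp_root_integral {x : Kbar} (hx : gp.eval x = 0) : IsIntegral O x := by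
  have h1 : gp = (X * (X ^ 8 + C (1 - 2 * ib) * X ^ 6 + X ^ 4 +
    C (2 + 2 * ib) * X ^ 2 - 1) : Obar[X]).map (algebraMap Obar Kbar) := by
    simp only [gp, Polynomial.map_mul, Polynomial.map_add, Polynomial.map_sub, Polynomial.map_pow,
      map_X, map_C, Polynomial.map_one]
    rfl
  have h2 : IsIntegral Obar x := by
    refine ⟨X * (X ^ 8 + C (1 - 2 * ib) * X ^ 6 + X ^ 4 + C (2 + 2 * ib) * X ^ 2 - 1), ?_, ?_⟩
    · have : (X * (X ^ 8 + C (1 - 2 * ib) * X ^ 6 + X ^ 4 +
        C (2 + 2 * ib) * X ^ 2 - 1) : Obar[X]) = X ^ 9 + (C (1 - 2 * ib) * X ^ 7 + X ^ 5 +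
        C (2 + 2 * ib) * X ^ 3 - X) := by ring
      rw [this]
      apply monic_X_pow_add
      compute_degree!
    · rw [← eval_map, ← h1]; exact hx
  exact isIntegral_trans x h2

lemma exists_root (Q : Ideal Obar) (hQ : Q.IsMaximal) (ψ : ZMod 193 →+* Obar ⧸ Q)
    (hψ : ∀ x : O, Ideal.Quotient.mk Q (algebraMap O Obar x) = ψ (phi x))
    (v : Fin 2 → ZMod 3) : ∃ z : Obar, gp.eval (z : Kbar) = 0 ∧
      Ideal.Quotient.mk Q z = ψ ((lab v : ℕ) : ZMod 193) := by
  by_contra hcon
  push Not at hcon
  have hprime : Q.IsPrime := hQ.isPrime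
  set x : O := ((lab v : ℕ) : O) with hx
  have hphi : phi x = ((lab v : ℕ) : ZMod 193) := by rw [hx, map_natCast]
  -- the value of `gp` at the label
  have hval : gp.eval (algebraMap O Kbar x) =
      algebraMap Obar Kbar (algebraMap O Obar (x * hh Ii (x ^ 2))) := by
    rw [gp_eval, map_mul, map_mul, map_hh, map_hh, ← IsScalarTower.algebraMap_apply,
      map_pow, map_pow, ← IsScalarTower.algebraMap_apply]
    rfl
  have hQmem : algebraMap O Obar (x * hh Ii (x ^ 2)) ∈ Q := by
    rw [← Ideal.Quotient.eq_zero_iff_mem, hψ, map_mul, map_hh, phi_Ii, map_pow, hphi]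
    by_cases hv : v = 0
    · have : lab v = 0 := (lab_zero v).2 hv
      rw [this]; simp
    · rw [lab_hh v hv, mul_zero, map_zero]
  have hprod : gp.eval (algebraMap O Kbar x) ∈
      Q.primeCompl.map (algebraMap Obar Kbar : Obar →* Kbar) := by
    rw [(IsAlgClosed.splits gp).eval_eq_prod_roots_of_monic gp_monic]
    apply Submonoid.multiset_prod_mem
    intro a ha
    rw [Multiset.mem_map] at ha
    obtain ⟨z, hz, rfl⟩ := ha
    have hz0 : gp.eval z = 0 := (mem_roots'.1 hz).2
    have hzi : IsIntegral O z := gp_root_integral hz0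
    refine ⟨algebraMap O Obar x - ⟨z, hzi⟩, ?_, ?_⟩
    · change _ ∉ Q
      rw [← Ideal.Quotient.eq_zero_iff_mem, map_sub, sub_eq_zero, hψ, hphi]
      intro h
      exact hcon ⟨z, hzi⟩ hz0 h.symm
    · change algebraMap Obar Kbar (algebraMap O Obar x - ⟨z, hzi⟩) = _
      rw [map_sub, ← IsScalarTower.algebraMap_apply]
      rfl
  rw [hval] at hprod
  obtain ⟨e, he, hee⟩ := hprod
  have : e = algebraMap O Obar (x * hh Ii (x ^ 2)) := by
    apply Subtype.coe_injective
    exact hee
  rw [this] at he
  exact he hQmem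

/-- The labels: the algebraic integers attached to the vectors of `𝔽₃²`. -/
theorem exists_labels : ∃ r : (Fin 2 → ZMod 3) → Obar,
    Function.Injective r ∧ r 0 = 0 ∧ (∀ v, r (-v) = -r v) ∧
    (∀ v, v ≠ 0 → hh ib ((r v) ^ 2) = 0) ∧
    (∀ x : Kbar, gp.eval x = 0 → ∃ v, (r v : Kbar) = x) ∧
    (∀ t v, (r t ≠ 0 ∧ CC ib (r t) (r v) = 0) ↔ dt t v = 1) := by
  obtain ⟨Q, hQ, ψ, hψi, hψ⟩ := exists_red
  have hprime : Q.IsPrime := hQ.isPrime
  choose r hr1 hr2 using exists_root Q hQ ψ hψ
  have hib : Ideal.Quotient.mk Q ib = ψ i193 := by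
    rw [← phi_Ii, ← hψ]; rfl
  have hinj : Function.Injective r := by
    intro v w h
    apply lab_inj
    apply hψi
    rw [← hr2, ← hr2, h]
  have hne : ∀ v, v ≠ 0 → r v ≠ 0 := by
    intro v hv h
    apply hv
    rw [← lab_zero]
    have h1 := hr2 v
    rw [h, map_zero, ← map_zero ψ] at h1
    have h2 := hψi h1
    have h3 := lab_inj 0 v (by rw [← h2, (lab_zero 0).2 rfl, Nat.cast_zero])
    rw [← h3]; exact (lab_zero 0).2 rfl
  have hhz : ∀ v, r v = 0 ∨ hh ib ((r v) ^ 2) = 0 := by
    intro v
    have h := hr1 v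
    rw [gp_eval] at h
    rcases mul_eq_zero.1 h with h | h
    · left
      exact Subtype.coe_injective h
    · right
      apply Subtype.coe_injective
      change algebraMap Obar Kbar (hh ib ((r v) ^ 2)) = 0
      rw [map_hh, map_pow]
      exact h
  have hsurj : ∀ x : Kbar, gp.eval x = 0 → ∃ v, (r v : Kbar) = x := by
    classical
    intro x hx
    have hcard : (Finset.univ.image (fun v => (r v : Kbar))).card = 9 := by
      have hi : Function.Injective (fun v => (r v : Kbar)) := fun a b hab =>
        hinj (Subtype.coe_injective hab)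
      rw [Finset.card_image_of_injective _ hi]
      decide
    have hsub : Finset.univ.image (fun v => (r v : Kbar)) ⊆ gp.roots.toFinset := by
      intro y hy
      rw [Finset.mem_image] at hy
      obtain ⟨v, _, rfl⟩ := hy
      rw [Multiset.mem_toFinset, mem_roots gp_monic.ne_zero]
      exact hr1 v
    have hle : gp.roots.toFinset.card ≤ 9 := by
      refine (Multiset.toFinset_card_le _).trans ?_
      rw [← gp_natDegree]
      exact card_roots' gp
    have heq := Finset.eq_of_subset_of_card_le hsub (by rw [hcard]; exact hle)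
    have hxm : x ∈ gp.roots.toFinset := by
      rw [Multiset.mem_toFinset, mem_roots gp_monic.ne_zero]
      exact hx
    rw [← heq, Finset.mem_image] at hxm
    obtain ⟨v, _, hv⟩ := hxm
    exact ⟨v, hv⟩
  have hr0 : r 0 = 0 := by
    obtain ⟨v, hv⟩ := hsurj 0 (by rw [gp_eval, zero_mul])
    have hv' : r v = 0 := Subtype.coe_injective hv
    by_cases h : v = 0
    · rw [← h]; exact hv'
    · exact absurd hv' (hne v h)
  have hneg : ∀ v, r (-v) = -r v := by
    intro v
    obtain ⟨w, hw⟩ := hsurj (-(r v : Kbar)) (by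
      rw [gp_eval, neg_sq, neg_mul, neg_eq_zero, ← gp_eval]; exact hr1 v)
    have hw' : r w = -r v := Subtype.coe_injective hw
    have h1 : w = -v := by
      apply lab_inj
      apply hψi
      rw [← hr2, hw', map_neg, hr2, lab_neg, map_neg]
    rw [← h1]; exact hw'
  refine ⟨r, hinj, hr0, hneg, ?_, hsurj, ?_⟩
  · intro v hv
    rcases hhz v with h | h
    · exact absurd h (hne v hv)
    · exact h
  · intro t v
    constructor
    · rintro ⟨ht, hc⟩
      have ht' : t ≠ 0 := by rintro rfl; exact ht hr0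
      rw [← lab_CC t v ht']
      have h := congrArg (Ideal.Quotient.mk Q) hc
      rw [map_CC, hib, hr2, hr2, ← map_CC, map_zero, ← map_zero ψ] at h
      exact hψi h
    · intro hd
      obtain ⟨ht, hv, h1, h2, h3⟩ := lab_CC' t v hd
      refine ⟨hne t ht, ?_⟩
      have hk := key ib_sq (r t) (r v) ((hhz t).resolve_left (hne t ht))
        ((hhz v).resolve_left (hne v hv))
      rcases mul_eq_zero.1 hk with hk | hk
      · rcases mul_eq_zero.1 hk with hk | hk
        · exfalso
          rcases mul_eq_zero.1 hk with hk | hk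
          · apply h1
            have h := congrArg (Ideal.Quotient.mk Q) hk
            rw [map_sub, hr2, hr2, ← map_sub, map_zero, ← map_zero ψ] at h
            exact hψi h
          · apply h2
            have h := congrArg (Ideal.Quotient.mk Q) hk
            rw [map_add, hr2, hr2, ← map_add, map_zero, ← map_zero ψ] at h
            exact hψi h
        · exact hk
      · exfalso
        apply h3
        have h := congrArg (Ideal.Quotient.mk Q) hk
        rw [map_CC, hib, map_neg, hr2, hr2, ← map_neg, ← map_CC, map_zero, ← map_zero ψ] at h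
        exact hψi h

end Q276.SM
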