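import Pool.Agent.Q276.SM.Gal2

/-! The representation on the labels. -/

set_option autoImplicit false

open Matrix Polynomial

namespace Q276.SM

/-- the matrix of an element of `SL₂(𝔽₃)` -/
def mx (g : SpecialLinearGroup (Fin 2) (ZMod 3)) : Matrix (Fin 2) (Fin 2) (ZMod 3) := g.1

lemma mx_one : mx 1 = 1 := rfl

lemma mx_mul (g h : SpecialLinearGroup (Fin 2) (ZMod 3)) : mx (g * h) = mx g * mx h := rfl

lemma mx_det (g : SpecialLinearGroup (Fin 2) (ZMod 3)) : (mx g).det = 1 := g.2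

lemma mx_inj {g h : SpecialLinearGroup (Fin 2) (ZMod 3)} (e : mx g = mx h) : g = h := Subtype.ext e

lemma gal_fix (σ : GK) (x : O) : σ (algebraMap O Kbar x) = algebraMap O Kbar x := by
  rw [IsScalarTower.algebraMap_apply O K Kbar, AlgEquiv.commutes]

lemma gal_ib (σ : GK) : σ (ib : Kbar) = (ib : Kbar) := gal_fix σ Ii

lemma gal_gp (σ : GK) (x : Kbar) : gp.eval (σ x) = σ (gp.eval x) := by
  rw [gp_eval, gp_eval, map_mul]
  have := map_hh (σ : Kbar →+* Kbar) (ib : Kbar) (x ^ 2)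
  simp only [RingHom.coe_coe, map_pow, gal_ib] at this
  rw [this]

lemma dt_ext : ∀ x y : ZMod 3, (x = 1 ↔ y = 1) → (-x = 1 ↔ -y = 1) → x = y := by decide

lemma dt_neg (t v : Fin 2 → ZMod 3) : dt v t = -dt t v := by
  simp only [dt]; ring

/-- The full package of labels together with the representation. -/
structure Labels where
  r : (Fin 2 → ZMod 3) → Obar
  inj : Function.Injective r
  zero : r 0 = 0
  neg : ∀ v, r (-v) = -r v
  root : ∀ v, v ≠ 0 → hh ib ((r v) ^ 2) = 0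
  surj : ∀ x : Kbar, gp.eval x = 0 → ∃ v, (r v : Kbar) = x
  rel : ∀ t v, (r t ≠ 0 ∧ CC ib (r t) (r v) = 0) ↔ dt t v = 1

lemma Labels.exists : Nonempty Labels := by
  obtain ⟨r, h1, h2, h3, h4, h5, h6⟩ := exists_labels
  exact ⟨⟨r, h1, h2, h3, h4, h5, h6⟩⟩

namespace Labels

variable (l : Labels)

lemma inj' {v w : Fin 2 → ZMod 3} (h : (l.r v : Kbar) = l.r w) : v = w :=
  l.inj (Subtype.coe_injective h)

lemma gp_r (v : Fin 2 → ZMod 3) : gp.eval (l.r v : Kbar) = 0 := by
  rw [gp_eval]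
  by_cases h : v = 0
  · subst h
    rw [l.zero]
    change (0 : Kbar) * _ = 0
    rw [zero_mul]
  · have := congrArg (algebraMap Obar Kbar) (l.root v h)
    rw [map_hh, map_zero, map_pow] at this
    change (l.r v : Kbar) * hh (ib : Kbar) ((l.r v : Kbar) ^ 2) = 0
    have h2 : hh (ib : Kbar) ((l.r v : Kbar) ^ 2) = 0 := this
    rw [h2, mul_zero]

lemma exists_perm (σ : GK) (v : Fin 2 → ZMod 3) : ∃ w, (l.r w : Kbar) = σ (l.r v) := by
  apply l.surj
  rw [gal_gp, l.gp_r, map_zero]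

lemma rel' (t v : Fin 2 → ZMod 3) :
    ((l.r t : Kbar) ≠ 0 ∧ CC (ib : Kbar) (l.r t) (l.r v) = 0) ↔ dt t v = 1 := by
  rw [← l.rel t v]
  have h1 : algebraMap Obar Kbar (CC ib (l.r t) (l.r v)) = CC (ib : Kbar) (l.r t) (l.r v) := by
    rw [map_CC]; rfl
  constructor
  · rintro ⟨h2, h3⟩
    refine ⟨fun h => h2 (by rw [h]; rfl), ?_⟩
    apply Subtype.coe_injective
    rw [← h1] at h3
    exact h3
  · rintro ⟨h2, h3⟩
    refine ⟨fun h => h2 (Subtype.coe_injective h), ?_⟩
    rw [← h1, h3, map_zero]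

lemma exists_matrix (σ : GK) : ∃ M : SpecialLinearGroup (Fin 2) (ZMod 3),
    ∀ v, σ (l.r v) = l.r (mx M *ᵥ v) := by
  choose π hπ using l.exists_perm σ
  have h1 : ∀ t v, dt (π t) (π v) = 1 ↔ dt t v = 1 := by
    intro t v
    rw [← l.rel', ← l.rel', hπ, hπ]
    have h2 : CC (ib : Kbar) (σ (l.r t)) (σ (l.r v)) = σ (CC (ib : Kbar) (l.r t) (l.r v)) := by
      have := map_CC (σ : Kbar →+* Kbar) (ib : Kbar) (l.r t) (l.r v)
      simp only [RingHom.coe_coe, gal_ib] at this
      exact this.symm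
    rw [h2]
    simp only [ne_eq, EmbeddingLike.map_eq_zero_iff]
  have h2 : ∀ t v, dt (π t) (π v) = dt t v := by
    intro t v
    apply dt_ext
    · exact h1 t v
    · rw [← dt_neg, ← dt_neg]; exact h1 v t
  have hdet : dt (π ![1, 0]) (π ![0, 1]) = 1 := by
    rw [h2]; decide
  have hdet' : (!![π ![1, 0] 0, π ![0, 1] 0; π ![1, 0] 1, π ![0, 1] 1] :
      Matrix (Fin 2) (Fin 2) (ZMod 3)).det = 1 := by
    rw [Matrix.det_fin_two_of]
    unfold dt at hdet
    linear_combination hdet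
  refine ⟨⟨!![π ![1, 0] 0, π ![0, 1] 0; π ![1, 0] 1, π ![0, 1] 1], hdet'⟩, ?_⟩
  · intro v
    rw [← hπ]
    congr 2
    change π v = !![π ![1, 0] 0, π ![0, 1] 0; π ![1, 0] 1, π ![0, 1] 1] *ᵥ v
    have h3 := h2 v ![0, 1]
    have h4 := h2 ![1, 0] v
    simp only [dt, Matrix.cons_val_zero, Matrix.cons_val_one] at h3 h4 hdet
    funext i
    fin_cases i
    · simp only [Fin.zero_eta, Matrix.mulVec, dotProduct, Fin.sum_univ_two, Matrix.of_apply,
        Matrix.cons_val', Matrix.cons_val_zero, Matrix.cons_val_one, Matrix.cons_val_fin_one]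
      linear_combination (-π v 0) * hdet + π ![1, 0] 0 * h3 + π ![0, 1] 0 * h4
    · simp only [Fin.mk_one, Matrix.mulVec, dotProduct, Fin.sum_univ_two, Matrix.of_apply,
        Matrix.cons_val', Matrix.cons_val_zero, Matrix.cons_val_one, Matrix.cons_val_fin_one]
      linear_combination (-π v 1) * hdet + π ![1, 0] 1 * h3 + π ![0, 1] 1 * h4

lemma mulVec_ext {M N : Matrix (Fin 2) (Fin 2) (ZMod 3)} (h : ∀ v, M *ᵥ v = N *ᵥ v) : M = N := by
  apply Matrix.toLin'.injective
  apply LinearMap.ext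
  intro v
  rw [Matrix.toLin'_apply, Matrix.toLin'_apply, h]

theorem exists_rep : ∃ m : GK →* SpecialLinearGroup (Fin 2) (ZMod 3),
    ∀ σ v, σ (l.r v) = l.r (mx (m σ) *ᵥ v) := by
  choose m hm using l.exists_matrix
  refine ⟨MonoidHom.mk' m ?_, hm⟩
  intro σ τ
  apply mx_inj
  apply mulVec_ext
  intro v
  apply l.inj'
  rw [← hm, mx_mul, ← Matrix.mulVec_mulVec, ← hm, ← hm]
  rfl

end Labels

/-- The labels. -/
noncomputable def lbl : Labels := Classical.choice Labels.exists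

/-- The label of `v` in the algebraic closure. -/
noncomputable def rt (v : Fin 2 → ZMod 3) : Kbar := lbl.r v

/-- The representation with values in `SL₂(𝔽₃)`. -/
noncomputable def m3 : GK →* SpecialLinearGroup (Fin 2) (ZMod 3) := lbl.exists_rep.choose

lemma m3_spec (σ : GK) (v : Fin 2 → ZMod 3) : σ (rt v) = rt (mx (m3 σ) *ᵥ v) :=
  lbl.exists_rep.choose_spec σ v

lemma rt_inj {v w : Fin 2 → ZMod 3} (h : rt v = rt w) : v = w := lbl.inj' h

lemma rt_zero : rt 0 = 0 := by unfold rt; rw [lbl.zero]; rfl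

lemma rt_neg (v : Fin 2 → ZMod 3) : rt (-v) = -rt v := by unfold rt; rw [lbl.neg]; rfl

lemma rt_hh {v : Fin 2 → ZMod 3} (hv : v ≠ 0) : hh (ib : Kbar) ((rt v) ^ 2) = 0 := by
  have := congrArg (algebraMap Obar Kbar) (lbl.root v hv)
  rw [map_hh, map_zero, map_pow] at this
  exact this

lemma rt_int (v : Fin 2 → ZMod 3) : IsIntegral O (rt v) := (lbl.r v).2

lemma m3_eq_one {σ : GK} : m3 σ = 1 ↔ ∀ v, σ (rt v) = rt v := by
  constructor
  · intro h v
    rw [m3_spec, h, mx_one, Matrix.one_mulVec]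
  · intro h
    apply mx_inj
    apply Labels.mulVec_ext
    intro v
    apply rt_inj
    rw [← m3_spec, h, mx_one, Matrix.one_mulVec]

/-- The representation `ρ : G_K → GL₂(𝔽̄₃)`. -/
noncomputable def rho : GK →* GL (Fin 2) F3bar :=
  (Matrix.SpecialLinearGroup.toGL).comp
    ((SpecialLinearGroup.map (algebraMap (ZMod 3) F3bar)).comp m3)

lemma rho_val (σ : GK) : (rho σ).val = (mx (m3 σ)).map (algebraMap (ZMod 3) F3bar) := rfl

lemma rho_det (σ : GK) : (rho σ).val.det = 1 := by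
  rw [rho_val]
  exact (SpecialLinearGroup.map (algebraMap (ZMod 3) F3bar) (m3 σ)).2

lemma rho_eq_one {σ : GK} : rho σ = 1 ↔ m3 σ = 1 := by
  constructor
  · intro h
    apply mx_inj
    have h1 : (rho σ).val = 1 := by rw [h]; rfl
    rw [rho_val] at h1
    have hinj : Function.Injective (algebraMap (ZMod 3) F3bar) :=
      (algebraMap (ZMod 3) F3bar).injective
    have h2 : (mx (m3 σ)).map (algebraMap (ZMod 3) F3bar) =
        (1 : Matrix (Fin 2) (Fin 2) (ZMod 3)).map (algebraMap (ZMod 3) F3bar) := by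
      rw [h1, Matrix.map_one _ (map_zero _) (map_one _)]
    exact Matrix.map_injective hinj h2
  · intro h
    apply Units.ext
    rw [rho_val, h, mx_one, Matrix.map_one _ (map_zero _) (map_one _)]
    rfl

end Q276.SM
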