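import Pool.Agent.Q276.SM.Defs

/-! `GL₂(ℤ[i])` is generated by three elements. -/

set_option autoImplicit false

open Matrix

namespace Q276.SM

/-- The imaginary unit. -/
def Ii : O := ⟨0, 1⟩

lemma Ii_mul : Ii * Ii = -1 := by decide

def ga : GL (Fin 2) O := ⟨!![0, 1; -1, 1], !![1, -1; 1, 0], by decide, by decide⟩
def gb : GL (Fin 2) O := ⟨!![Ii, 1; 0, 1], !![-Ii, Ii; 0, 1], by decide, by decide⟩
def gc : GL (Fin 2) O := ⟨!![Ii, 0; 0, 1], !![-Ii, 0; 0, 1], by decide, by decide⟩
def gw : GL (Fin 2) O := ⟨!![0, 1; -1, 0], !![0, -1; 1, 0], by decide, by decide⟩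

/-- Upper unipotent matrices. -/
def gU (z : O) : GL (Fin 2) O := ⟨!![1, z; 0, 1], !![1, -z; 0, 1], by
  refine Matrix.ext fun i j => ?_
  fin_cases i <;> fin_cases j <;> simp [Matrix.mul_apply, Fin.sum_univ_two], by
  refine Matrix.ext fun i j => ?_
  fin_cases i <;> fin_cases j <;> simp [Matrix.mul_apply, Fin.sum_univ_two]⟩

/-- The subgroup generated by `ga`, `gb`, `gc`. -/
def genN : Subgroup (GL (Fin 2) O) := Subgroup.closure {ga, gb, gc}

lemma ga_mem : ga ∈ genN := Subgroup.subset_closure (by simp)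
lemma gb_mem : gb ∈ genN := Subgroup.subset_closure (by simp)
lemma gc_mem : gc ∈ genN := Subgroup.subset_closure (by simp)

lemma gU_add (z w : O) : gU (z + w) = gU z * gU w := by
  apply Units.ext
  refine Matrix.ext fun i j => ?_
  fin_cases i <;> fin_cases j <;> simp [gU, Matrix.mul_apply, Fin.sum_univ_two, add_comm]

lemma gU_one_mem : gU 1 ∈ genN := by
  have h : gU 1 = gb * gc⁻¹ := by
    apply Units.ext
    change (gU 1).val = gb.val * gc.inv
    simp only [gU, gb, gc]
    decide
  rw [h]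
  exact mul_mem gb_mem (inv_mem gc_mem)

lemma gU_I_mem : gU Ii ∈ genN := by
  have h : gU Ii = gc * gU 1 * gc⁻¹ := by
    apply Units.ext
    change (gU Ii).val = gc.val * (gU 1).val * gc.inv
    simp only [gU, gc]
    decide
  rw [h]
  exact mul_mem (mul_mem gc_mem gU_one_mem) (inv_mem gc_mem)

lemma gU_zero : gU 0 = 1 := by
  apply Units.ext
  refine Matrix.ext fun i j => ?_
  fin_cases i <;> fin_cases j <;> simp [gU]

/-- The vectors `z` with `gU z` in the subgroup. -/
def addN : AddSubgroup O where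
  carrier := {z | gU z ∈ genN}
  add_mem' := by
    intro a b ha hb
    change gU (a + b) ∈ genN
    rw [gU_add]; exact mul_mem ha hb
  zero_mem' := by
    change gU 0 ∈ genN
    rw [gU_zero]; exact one_mem _
  neg_mem' := by
    intro a ha
    change gU (-a) ∈ genN
    have : gU (-a) = (gU a)⁻¹ := by
      rw [eq_inv_iff_mul_eq_one, ← gU_add, neg_add_cancel, gU_zero]
    rw [this]; exact inv_mem ha

lemma gU_mem (z : O) : gU z ∈ genN := by
  have h1 : z = z.re • (1 : O) + z.im • Ii := by
    apply Zsqrtd.ext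
    · simp [Ii]
    · simp [Ii]
  rw [h1]
  have h2 : z.re • (1 : O) + z.im • Ii ∈ addN :=
    add_mem (zsmul_mem (show (1 : O) ∈ addN from gU_one_mem) _)
      (zsmul_mem (show Ii ∈ addN from gU_I_mem) _)
  exact h2

lemma gw_mem : gw ∈ genN := by
  have h : gw = ga * gU 1 := by
    apply Units.ext
    change gw.val = ga.val * (gU 1).val
    simp only [gU, ga, gw]
    decide
  rw [h]
  exact mul_mem ga_mem gU_one_mem

lemma unit_cases {u : O} (hu : IsUnit u) : u = 1 ∨ u = -1 ∨ u = Ii ∨ u = -Ii := by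
  have h1 : u.norm.natAbs = 1 := Zsqrtd.norm_eq_one_iff.2 hu
  have h2 : u.norm = 1 := by
    have := GaussianInt.norm_nonneg u
    omega
  rw [Zsqrtd.norm_def] at h2
  have h3 : u.re * u.re + u.im * u.im = 1 := by linarith
  have h4 : u.re * u.re ≤ 1 := by nlinarith [mul_self_nonneg u.im]
  have h5 : u.im * u.im ≤ 1 := by nlinarith [mul_self_nonneg u.re]
  have h6 : -1 ≤ u.re ∧ u.re ≤ 1 := ⟨by nlinarith, by nlinarith⟩
  have h7 : -1 ≤ u.im ∧ u.im ≤ 1 := ⟨by nlinarith, by nlinarith⟩
  obtain ⟨x, y⟩ := u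
  simp only at *
  have hx : x = -1 ∨ x = 0 ∨ x = 1 := by omega
  have hy : y = -1 ∨ y = 0 ∨ y = 1 := by omega
  rcases hx with rfl | rfl | rfl <;> rcases hy with rfl | rfl | rfl <;>
    first
    | (exfalso; revert h3; decide)
    | (left; rfl)
    | (right; left; rfl)
    | (right; right; left; rfl)
    | (right; right; right; rfl)

lemma Ii_unit : IsUnit Ii := ⟨⟨Ii, -Ii, by decide, by decide⟩, rfl⟩

/-- Diagonal matrices with unit entries, first entry. -/
lemma diag1_mem (g : GL (Fin 2) O) (h10 : g.val 1 0 = 0) (h01 : g.val 0 1 = 0)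
    (h11 : g.val 1 1 = 1) : g ∈ genN := by
  have hdet : IsUnit g.val.det := g.isUnit.map Matrix.detMonoidHom
  rw [Matrix.det_fin_two, h10, h01, h11] at hdet
  have hu : IsUnit (g.val 0 0) := by simpa using hdet
  have key : ∀ n : ℕ, g.val 0 0 = Ii ^ n → g = gc ^ n := by
    intro n hn
    have hc : ∀ m : ℕ, (gc ^ m).val = !![Ii ^ m, 0; 0, 1] := by
      intro m
      induction m with
      | zero => 
        rw [pow_zero]
        refine Matrix.ext fun i j => ?_
        fin_cases i <;> fin_cases j <;> simp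
      | succ m ih =>
        rw [pow_succ, Units.val_mul, ih]
        refine Matrix.ext fun i j => ?_
        fin_cases i <;> fin_cases j <;>
          simp [gc, Matrix.mul_apply, Fin.sum_univ_two, pow_succ]
    apply Units.ext
    rw [hc]
    refine Matrix.ext fun i j => ?_
    fin_cases i <;> fin_cases j <;> simp [h10, h01, h11, hn]
  rcases unit_cases hu with h | h | h | h
  · rw [key 0 (by rw [h]; rfl)]; exact pow_mem gc_mem _
  · rw [key 2 (by rw [h]; rfl)]; exact pow_mem gc_mem _
  · rw [key 1 (by rw [h]; rfl)]; exact pow_mem gc_mem _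
  · rw [key 3 (by rw [h]; rfl)]; exact pow_mem gc_mem _

/-- Upper triangular matrices. -/
lemma upper_mem (g : GL (Fin 2) O) (h10 : g.val 1 0 = 0) : g ∈ genN := by
  have hdet : IsUnit g.val.det := g.isUnit.map Matrix.detMonoidHom
  rw [Matrix.det_fin_two, h10, mul_zero, sub_zero] at hdet
  have hp : IsUnit (g.val 0 0) := isUnit_of_mul_isUnit_left hdet
  have ht : IsUnit (g.val 1 1) := isUnit_of_mul_isUnit_right hdet
  obtain ⟨p, hp⟩ := hp
  obtain ⟨t, ht⟩ := ht
  -- the two diagonal matrices
  let d1 : GL (Fin 2) O := ⟨!![(p : O), 0; 0, 1], !![((p⁻¹ : Oˣ) : O), 0; 0, 1], by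
    refine Matrix.ext fun i j => ?_
    fin_cases i <;> fin_cases j <;> simp [Matrix.mul_apply, Fin.sum_univ_two], by
    refine Matrix.ext fun i j => ?_
    fin_cases i <;> fin_cases j <;> simp [Matrix.mul_apply, Fin.sum_univ_two]⟩
  let d2 : GL (Fin 2) O := ⟨!![(t : O), 0; 0, 1], !![((t⁻¹ : Oˣ) : O), 0; 0, 1], by
    refine Matrix.ext fun i j => ?_
    fin_cases i <;> fin_cases j <;> simp [Matrix.mul_apply, Fin.sum_univ_two], by
    refine Matrix.ext fun i j => ?_
    fin_cases i <;> fin_cases j <;> simp [Matrix.mul_apply, Fin.sum_univ_two]⟩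
  have hd1 : d1 ∈ genN := diag1_mem d1 (by simp [d1]) (by simp [d1]) (by simp [d1])
  have hd2 : d2 ∈ genN := diag1_mem d2 (by simp [d2]) (by simp [d2]) (by simp [d2])
  have hg : g = d1 * (gw * d2 * gw⁻¹) * gU (((p⁻¹ : Oˣ) : O) * g.val 0 1) := by
    apply Units.ext
    change g.val = d1.val * (gw.val * d2.val * gw.inv) * (gU _).val
    refine Matrix.ext fun i j => ?_
    have hpp : g.val 0 0 * (((p⁻¹ : Oˣ) : O) * g.val 0 1) = g.val 0 1 := by
      rw [← hp, ← mul_assoc, Units.mul_inv, one_mul]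
    fin_cases i <;> fin_cases j <;>
      simp [d1, d2, gw, gU, Matrix.mul_apply, Fin.sum_univ_two, hp, ht, h10, hpp]
  rw [hg]
  exact mul_mem (mul_mem hd1 (mul_mem (mul_mem gw_mem hd2) (inv_mem gw_mem))) (gU_mem _)

theorem gen_top : genN = ⊤ := by
  rw [eq_top_iff]
  intro g _
  induction hn : (g.val 1 0).norm.natAbs using Nat.strong_induction_on generalizing g with
  | _ n ih =>
    by_cases h0 : g.val 1 0 = 0
    · exact upper_mem g h0
    · -- divide
      set r := g.val 1 0 with hr
      set q := g.val 0 0 / r with hq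
      let g' : GL (Fin 2) O := gw⁻¹ * (gU (-q) * g)
      have e : g'.val 1 0 = g.val 0 0 % r := by
        change (gw.inv * ((gU (-q)).val * g.val)) 1 0 = _
        simp only [gw, gU, Matrix.mul_apply, Fin.sum_univ_two]
        have h2 := EuclideanDomain.div_add_mod (g.val 0 0) r
        simp only [Matrix.of_apply, Matrix.cons_val', Matrix.cons_val_zero, Matrix.cons_val_one,
          Matrix.cons_val_fin_one]
        rw [← hr, ← hq] at *
        linear_combination -h2
      have h3 : (g'.val 1 0).norm.natAbs < n := by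
        rw [e, ← hn]
        exact GaussianInt.natAbs_norm_mod_lt _ h0
      have h4 := ih _ h3 (Subgroup.mem_top g') rfl
      have h5 : g = (gU (-q))⁻¹ * (gw * g') := by
        simp only [g']
        group
      rw [h5]
      exact mul_mem (inv_mem (gU_mem _)) (mul_mem gw_mem h4)

end Q276.SM
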