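import Pool.Agent.Q276.SM.Cls

/-! Functions on hyperbolic space that transform by constants under `Γ₀(6 + 29 i)` are invariant. -/

set_option autoImplicit false

open Matrix
open scoped ComplexOrder

namespace Q276.SM

open T (pa pb pc pp pq)

attribute [local irreducible] T.pc T.pa T.pb

/-- an auxiliary matrix -/
noncomputable def G0 : Matrix (Fin 2) (Fin 2) ℂ := !![((√2)⁻¹ : ℝ), (1 + Complex.I) / 2; 0, 1]

lemma G0_mul : G0 * G0ᴴ = !![1, (1 + Complex.I) / 2; (1 - Complex.I) / 2, 1] := by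
  have h2 : ((((√2)⁻¹ : ℝ) : ℂ)) * (((√2)⁻¹ : ℝ) : ℂ) = 1 / 2 := by
    rw [← Complex.ofReal_mul, ← mul_inv, Real.mul_self_sqrt (by norm_num)]; norm_num
  have hI := Complex.I_mul_I
  refine Matrix.ext fun i j => ?_
  fin_cases i <;> fin_cases j
  · simp only [G0, Matrix.mul_apply, Fin.sum_univ_two, Matrix.conjTranspose_apply, Matrix.of_apply,
      Matrix.cons_val', Matrix.cons_val_zero, Matrix.cons_val_one, Matrix.cons_val_fin_one,
      Fin.zero_eta, Fin.isValue, Complex.star_def, Complex.conj_ofReal, map_div₀, map_add, map_one,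
      Complex.conj_I, map_ofNat, h2]
    linear_combination (-1 / 4 : ℂ) * hI
  · simp [G0, Matrix.mul_apply, Fin.sum_univ_two]
  · have h22 : (starRingEnd ℂ) 2 = 2 := map_ofNat _ 2
    simp [G0, Matrix.mul_apply, Fin.sum_univ_two, h22]
    ring
  · simp [G0, Matrix.mul_apply, Fin.sum_univ_two]

/-- The centre of an octahedron of the tessellation. -/
noncomputable def h0 : H3 := ⟨((√2 : ℝ) : ℂ) • (G0 * G0ᴴ), by
  constructor
  · refine Matrix.PosDef.smul ?_ ?_
    · have h1 : (1 : Matrix (Fin 2) (Fin 2) ℂ).PosDef := Matrix.PosDef.one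
      have h2 := h1.mul_mul_conjTranspose_same (B := G0) ?_
      · rwa [Matrix.mul_one] at h2
      · rw [Matrix.vecMul_injective_iff_isUnit, Matrix.isUnit_iff_isUnit_det]
        rw [G0, Matrix.det_fin_two_of, isUnit_iff_ne_zero]
        simp
    · have : (0 : ℝ) < √2 := by positivity
      exact_mod_cast this
  · rw [G0_mul, Matrix.det_smul, Matrix.det_fin_two_of, Fintype.card_fin, ← Complex.ofReal_pow,
      Real.sq_sqrt (by norm_num)]
    have hI := Complex.I_mul_I
    push_cast
    linear_combination (1 / 2 : ℂ) * hI⟩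

lemma toC_val (g : GL (Fin 2) O) : (toC g).val = g.val.map GaussianInt.toComplex := rfl

lemma norm_det (g : GL (Fin 2) O) : ‖(toC g).det.val‖ = 1 := by
  change ‖(toC g).val.det‖ = 1
  rw [toC_val]
  have h1 : (g.val.map GaussianInt.toComplex).det = GaussianInt.toComplex g.val.det := by
    rw [← RingHom.mapMatrix_apply, RingHom.map_det]
  rw [h1]
  have h2 : IsUnit g.val.det := g.isUnit.map Matrix.detMonoidHom
  rcases unit_cases h2 with h | h | h | h
  · rw [h, map_one, norm_one]
  · rw [h, map_neg, map_one, norm_neg, norm_one]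
  · rw [h, GaussianInt.toComplex_def]; simp [Ii]
  · rw [h, map_neg, norm_neg, GaussianInt.toComplex_def]; simp [Ii]

lemma smul_val (g : GL (Fin 2) O) (h : H3) : (toC g • h).1 =
    g.val.map GaussianInt.toComplex * h.1 * (g.val.map GaussianInt.toComplex)ᴴ := by
  change ((‖(toC g).det.val‖⁻¹ : ℝ) : ℂ) • ((toC g).val * h.1 * (toC g).valᴴ) = _
  rw [norm_det, inv_one, Complex.ofReal_one, one_smul, toC_val]

lemma toC_Ii : GaussianInt.toComplex Ii = Complex.I := by
  rw [GaussianInt.toComplex_def]; simp [Ii]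

lemma ga_h0 : toC ga • h0 = h0 := by
  apply Subtype.ext
  rw [smul_val]
  change _ * (((√2 : ℝ) : ℂ) • (G0 * G0ᴴ)) * _ = ((√2 : ℝ) : ℂ) • (G0 * G0ᴴ)
  rw [G0_mul, Matrix.mul_smul, Matrix.smul_mul]
  congr 1
  have hI := Complex.I_mul_I
  refine Matrix.ext fun i j => ?_
  fin_cases i <;> fin_cases j <;>
    simp [ga, Matrix.mul_apply, Fin.sum_univ_two] <;> ring

lemma gb_h0 : toC gb • h0 = h0 := by
  apply Subtype.ext
  rw [smul_val]
  change _ * (((√2 : ℝ) : ℂ) • (G0 * G0ᴴ)) * _ = ((√2 : ℝ) : ℂ) • (G0 * G0ᴴ)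
  rw [G0_mul, Matrix.mul_smul, Matrix.smul_mul]
  congr 1
  have hI := Complex.I_sq
  refine Matrix.ext fun i j => ?_
  fin_cases i <;> fin_cases j <;>
    simp [gb, Matrix.mul_apply, Fin.sum_univ_two, toC_Ii] <;> ring_nf <;> rw [hI] <;> ring

lemma rel_b : gc * gb * gc * gb = 1 := by
  apply Units.ext
  change gc.val * gb.val * gc.val * gb.val = 1
  simp only [gb, gc]
  decide

lemma rel_ab : gc * ga * gb * gc * ga * gb = 1 := by
  apply Units.ext
  change gc.val * ga.val * gb.val * gc.val * ga.val * gb.val = 1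
  simp only [ga, gb, gc]
  decide

lemma rel_c : gc * gc * gc * gc = 1 := by
  apply Units.ext
  change gc.val * gc.val * gc.val * gc.val = 1
  simp only [gc]
  decide

theorem invariant {A : Type*} [AddCommGroup A] (h3 : ∀ a : A, 3 • a = 0) (Ψ : H3 → A)
    (hΨ : ∀ γ ∈ Gamma0 lev, ∃ c : A, ∀ x, Ψ (toC γ • x) = c + Ψ x) :
    ∀ γ ∈ Gamma0 lev, ∀ x, Ψ (toC γ • x) = Ψ x := by
  set θ : GL (Fin 2) O → A := fun g => Ψ (toC g • h0) with hθ
  have ta : ∀ g, θ (g * ga) = θ g := by
    intro g; simp only [hθ, map_mul, mul_smul, ga_h0]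
  have tb : ∀ g, θ (g * gb) = θ g := by
    intro g; simp only [hθ, map_mul, mul_smul, gb_h0]
  have tγ : ∀ γ ∈ Gamma0 lev, ∀ g g', θ (γ * g) - θ (γ * g') = θ g - θ g' := by
    intro γ hγ g g'
    obtain ⟨c, hc⟩ := hΨ γ hγ
    simp only [hθ, map_mul, mul_smul, hc]
    abel
  set Φ : GL (Fin 2) O → A := fun g => θ (g * gc) - θ g with hΦ
  have Φγ : ∀ γ ∈ Gamma0 lev, ∀ g, Φ (γ * g) = Φ g := by
    intro γ hγ g
    simp only [hΦ]
    rw [mul_assoc, tγ γ hγ]
  have Φcls : ∀ g g', cls g = cls g' → Φ g' = Φ g := by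
    intro g g' h
    have h1 := Φγ _ (same_class h) g
    rwa [inv_mul_cancel_right] at h1
  obtain ⟨φ, Φφ⟩ : ∃ φ : ℕ → A, ∀ g, Φ g = φ (cls g) :=
    ⟨fun n => Φ (repT n), fun g => Φcls _ _ (cls_repT (cls_lt g))⟩
  have r1 : ∀ g, Φ (g * gc * gb) = - Φ g := by
    intro g
    simp only [hΦ]
    have e1 : g * gc * gb * gc = g * gb⁻¹ := by
      have := rel_b
      rw [eq_mul_inv_iff_mul_eq]
      calc g * gc * gb * gc * gb = g * (gc * gb * gc * gb) := by group
        _ = g := by rw [this, mul_one]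
    have e2 : θ (g * gb⁻¹) = θ g := by
      have := tb (g * gb⁻¹)
      rw [inv_mul_cancel_right] at this
      exact this.symm
    rw [e1, e2, tb]
    abel
  have r2 : ∀ g, Φ (g * gc * ga * gb) = - Φ g := by
    intro g
    simp only [hΦ]
    have e1 : g * gc * ga * gb * gc = g * (gb⁻¹ * ga⁻¹) := by
      have := rel_ab
      rw [← _root_.mul_inv_rev, eq_mul_inv_iff_mul_eq]
      calc g * gc * ga * gb * gc * (ga * gb) = g * (gc * ga * gb * gc * ga * gb) := by group
        _ = g := by rw [this, mul_one]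
    have e2 : θ (g * (gb⁻¹ * ga⁻¹)) = θ g := by
      have h1 := ta (g * (gb⁻¹ * ga⁻¹))
      have h2 := tb (g * gb⁻¹)
      rw [← mul_assoc, inv_mul_cancel_right] at h1
      rw [inv_mul_cancel_right] at h2
      rw [← mul_assoc, ← h1, h2]
    rw [e1, e2, tb, ta]
    abel
  have r3 : ∀ g, Φ g + Φ (g * gc) + Φ (g * gc * gc) + Φ (g * gc * gc * gc) = 0 := by
    intro g
    simp only [hΦ]
    have e : g * gc * gc * gc * gc = g := by
      calc g * gc * gc * gc * gc = g * (gc * gc * gc * gc) := by group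
        _ = g := by rw [rel_c, mul_one]
    rw [e]
    abel
  have p1 : ∀ n, n < 878 → φ (pp n) = - φ n := by
    intro n hn
    have h1 := r1 (repT n)
    simp only [Φφ, cls_gb, cls_gc, cls_repT hn] at h1
    exact h1
  have p2 : ∀ n, n < 878 → φ (pq n) = - φ n := by
    intro n hn
    have h1 := r2 (repT n)
    simp only [Φφ, cls_gb, cls_ga, cls_gc, cls_repT hn] at h1
    exact h1
  have p3 : ∀ n, n < 878 → φ n + φ (pc n) + φ (pc (pc n)) + φ (pc (pc (pc n))) = 0 := by
    intro n hn
    have h1 := r3 (repT n)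
    simp only [Φφ, cls_gc, cls_repT hn] at h1
    exact h1
  obtain ⟨u, hu1, hu2⟩ := T.cobound h3 φ p1 p2 p3
  · -- the corrected function is right invariant
    set η : GL (Fin 2) O → A := fun g => θ g - u (cls g) with hη
    have ηa : ∀ g, η (g * ga) = η g := by
      intro g; simp only [hη, ta, cls_ga, (hu1 _ (cls_lt g)).1]
    have ηb : ∀ g, η (g * gb) = η g := by
      intro g; simp only [hη, tb, cls_gb, (hu1 _ (cls_lt g)).2]
    have ηc : ∀ g, η (g * gc) = η g := by
      intro g
      have h1 := Φφ g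
      rw [hu2 _ (cls_lt g)] at h1
      simp only [hη, cls_gc]
      have h2 : θ (g * gc) = θ g + (u (pc (cls g)) - u (cls g)) := by
        rw [← h1]; simp only [hΦ]; abel
      rw [h2]; abel
    have hall : ∀ h g, η (g * h) = η g := by
      intro h
      have hh : h ∈ genN := by rw [gen_top]; exact Subgroup.mem_top h
      refine Subgroup.closure_induction (p := fun h _ => ∀ g, η (g * h) = η g) ?_ ?_ ?_ ?_ hh
      · intro x hx g
        simp only [Set.mem_insert_iff, Set.mem_singleton_iff] at hx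
        rcases hx with rfl | rfl | rfl
        exacts [ηa g, ηb g, ηc g]
      · intro g; rw [mul_one]
      · intro x y _ _ hx hy g
        rw [← mul_assoc, hy, hx]
      · intro x _ hx g
        have := hx (g * x⁻¹)
        rw [inv_mul_cancel_right] at this
        exact this.symm
    intro γ hγ x
    obtain ⟨c, hc⟩ := hΨ γ hγ
    have h1 : η γ = η 1 := by
      have := hall γ 1
      rwa [one_mul] at this
    have h2 : cls γ = cls 1 := by
      have := cls_gamma γ 1 hγ
      rwa [mul_one] at this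
    simp only [hη, h2, sub_left_inj] at h1
    have h3' : θ γ = c + θ 1 := by
      simp only [hθ, map_one, one_smul]
      exact hc h0
    have h4 : c = 0 := by
      rw [h3'] at h1
      exact add_eq_right.1 h1
    rw [hc, h4, zero_add]

end Q276.SM
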