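import Pool.Agent.Q276.SM.Cond

/-! Irreducibility. -/

set_option autoImplicit false

open Matrix Polynomial

namespace Q276.SM

/-- two independent vectors span -/
lemma eq_top_of {W : Submodule F3bar (Fin 2 → F3bar)} {x y : Fin 2 → F3bar} (hx : x ∈ W)
    (hy : y ∈ W) (h : x 0 * y 1 - x 1 * y 0 ≠ 0) : W = ⊤ := by
  rw [eq_top_iff]
  intro z _
  set d := x 0 * y 1 - x 1 * y 0 with hd
  have e : z = ((z 0 * y 1 - z 1 * y 0) / d) • x + ((x 0 * z 1 - x 1 * z 0) / d) • y := by
    funext i
    fin_cases i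
    · simp only [Fin.zero_eta, Pi.add_apply, Pi.smul_apply, smul_eq_mul]
      field_simp
      rw [hd]; ring
    · simp only [Fin.mk_one, Pi.add_apply, Pi.smul_apply, smul_eq_mul]
      field_simp
      rw [hd]; ring
  rw [e]
  exact W.add_mem (W.smul_mem _ hx) (W.smul_mem _ hy)

/-- A prime above `6 + 29 i` exists. -/
lemma exists_P : ∃ P : Ideal A, P.IsPrime ∧ algebraMap O A dlt ∈ P := by
  obtain ⟨Q, hQ, hc⟩ := Ideal.exists_ideal_over_maximal_of_isIntegral (S := A) lev
    (by rw [(RingHom.injective_iff_ker_eq_bot _).1 algOA_inj]; exact bot_le)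
  refine ⟨Q, hQ.isPrime, ?_⟩
  have : dlt ∈ Ideal.comap (algebraMap O A) Q := by
    rw [hc]; exact Ideal.mem_span_singleton_self dlt
  exact this

/-- An element of the Galois group with unipotent nontrivial image. -/
lemma exists_unip : ∃ σ : GK, mx (m3 σ) 0 0 + mx (m3 σ) 1 1 = 2 ∧ mx (m3 σ) ≠ 1 := by
  obtain ⟨P, hP, hd⟩ := exists_P
  obtain ⟨σ, hσ, hne⟩ := exists_inertia hP hd
  refine ⟨σ, ram_trace hP.ne_top hσ, ?_⟩
  intro h
  apply hne
  rw [rho_eq_one]
  exact mx_inj h

/-- In a proper invariant subspace the rational vector `u` generates. -/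
lemma exists_rational {W : Submodule F3bar (Fin 2 → F3bar)}
    (hW : ∀ σ, ∀ v ∈ W, (rho σ).val *ᵥ v ∈ W) (hbot : W ≠ ⊥) (htop : W ≠ ⊤) :
    ∃ u : Fin 2 → ZMod 3, u ≠ 0 ∧ ev u ∈ W := by
  obtain ⟨σ, ht, hne⟩ := exists_unip
  obtain ⟨w, hw, hw0⟩ := Submodule.exists_mem_ne_zero_of_ne_bot hbot
  have hdep : w 0 * ((rho σ).val *ᵥ w) 1 - w 1 * ((rho σ).val *ᵥ w) 0 = 0 := by
    by_contra h
    exact htop (eq_top_of hw (hW σ w hw) h)
  have hdet := mx_det (m3 σ)
  rw [Matrix.det_fin_two] at hdet
  set M := mx (m3 σ) with hM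
  -- entries of `M - 1`
  obtain ⟨a, ha⟩ : ∃ a, a = M 0 0 - 1 := ⟨_, rfl⟩
  obtain ⟨b, hb⟩ : ∃ b, b = M 0 1 := ⟨_, rfl⟩
  obtain ⟨c, hc⟩ : ∃ c, c = M 1 0 := ⟨_, rfl⟩
  have h11 : M 1 1 = 1 - a := by linear_combination ht + ha
  have h00 : M 0 0 = 1 + a := by linear_combination -ha
  have hnil : a * a + b * c = 0 := by
    rw [h11, h00, ← hb, ← hc] at hdet
    linear_combination -hdet
  set f := algebraMap (ZMod 3) F3bar with hf
  have hnil' : f a * f a + f b * f c = 0 := by
    rw [← map_mul, ← map_mul, ← map_add, hnil, map_zero]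
  have e0 : ((rho σ).val *ᵥ w) 0 = (1 + f a) * w 0 + f b * w 1 := by
    rw [rho_val]
    simp only [Matrix.mulVec, dotProduct, Fin.sum_univ_two, Matrix.map_apply, ← hM, h00, ← hb,
      ← hf, map_add, map_one]
  have e1 : ((rho σ).val *ᵥ w) 1 = f c * w 0 + (1 - f a) * w 1 := by
    rw [rho_val]
    simp only [Matrix.mulVec, dotProduct, Fin.sum_univ_two, Matrix.map_apply, ← hM, h11, ← hc,
      ← hf, map_sub, map_one]
  rw [e0, e1] at hdep
  -- the vector `w` is killed by `M - 1`
  have k1 : f c * w 0 - f a * w 1 = 0 := by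
    have : (f c * w 0 - f a * w 1) ^ 2 = 0 := by
      linear_combination (f c) * hdep + (w 1) ^ 2 * hnil'
    exact pow_eq_zero_iff (two_ne_zero) |>.1 this
  have k2 : f a * w 0 + f b * w 1 = 0 := by
    have : (f a * w 0 + f b * w 1) ^ 2 = 0 := by
      linear_combination (-f b) * hdep + (w 0) ^ 2 * hnil'
    exact pow_eq_zero_iff (two_ne_zero) |>.1 this
  have hinj : ∀ x : ZMod 3, f x = 0 → x = 0 := fun x hx => by
    rw [← map_zero f] at hx; exact f.injective hx
  by_cases hc0 : c = 0
  · have ha0 : a = 0 := by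
      rw [hc0, mul_zero, add_zero] at hnil
      exact mul_self_eq_zero.1 hnil
    have hb0 : b ≠ 0 := by
      intro hb0
      apply hne
      ext i j
      fin_cases i <;> fin_cases j
      · simp [h00, ha0]
      · simp [← hb, hb0]
      · simp [← hc, hc0]
      · simp [h11, ha0]
    have hfb : f b ≠ 0 := fun h => hb0 (hinj b h)
    have hw1 : w 1 = 0 := by
      rw [ha0, map_zero, zero_mul, zero_add] at k2
      exact (mul_eq_zero.1 k2).resolve_left hfb
    have hw00 : w 0 ≠ 0 := by
      intro h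
      apply hw0
      funext i
      fin_cases i
      · exact h
      · exact hw1
    refine ⟨![1, 0], by decide, ?_⟩
    have : ev ![1, 0] = (w 0)⁻¹ • w := by
      funext i
      fin_cases i
      · simp [ev, hw00]
      · simp [ev, hw1]
    rw [this]
    exact W.smul_mem _ hw
  · have hfc : f c ≠ 0 := fun h => hc0 (hinj c h)
    have hw1 : w 1 ≠ 0 := by
      intro h
      apply hw0
      funext i
      fin_cases i
      · rw [h, mul_zero, sub_zero] at k1
        exact (mul_eq_zero.1 k1).resolve_left hfc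
      · exact h
    refine ⟨![a, c], ?_, ?_⟩
    · intro h
      exact hc0 (congrFun h 1)
    · have : ev ![a, c] = (f c / w 1) • w := by
        funext i
        fin_cases i
        · simp only [ev, Fin.zero_eta, Matrix.cons_val_zero, Pi.smul_apply, smul_eq_mul, ← hf]
          field_simp
          linear_combination -k1
        · simp only [ev, Fin.mk_one, Matrix.cons_val_one, Matrix.cons_val_fin_one, Pi.smul_apply,
            smul_eq_mul, ← hf]
          field_simp
      rw [this]
      exact W.smul_mem _ hw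

/-- no label has its square fixed by the Galois group -/
lemma not_fixed {u : Fin 2 → ZMod 3} (hu : u ≠ 0)
    (h : ∀ σ : GK, σ (rt u) = rt u ∨ σ (rt u) = -rt u) : False := by
  have h1 : ∀ σ : GK, σ ((rt u) ^ 2) = (rt u) ^ 2 := by
    intro σ
    rw [map_pow]
    rcases h σ with h | h
    · rw [h]
    · rw [h, neg_sq]
  have h2 : (rt u) ^ 2 ∈ (⊥ : IntermediateField K Kbar) := by
    rw [InfiniteGalois.mem_bot_iff_fixed]
    exact h1
  rw [IntermediateField.mem_bot] at h2
  obtain ⟨k, hk⟩ := h2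
  have h3 : IsIntegral O ((rt u) ^ 2) := (rt_int u).pow 2
  have h4 : IsIntegral O k := by
    rw [← hk] at h3
    exact (isIntegral_algebraMap_iff (algebraMap K Kbar).injective).1 h3
  obtain ⟨y, hy⟩ := (IsIntegrallyClosed.isIntegral_iff (R := O) (K := K)).1 h4
  have h5 : algebraMap O Kbar y = (rt u) ^ 2 := by
    rw [IsScalarTower.algebraMap_apply O K Kbar, hy, hk]
  have h6 : hh Ii y = 0 := by
    apply algO_inj
    rw [map_hh, h5, map_zero]
    exact rt_hh hu
  have h7 : IsUnit y := IsUnit.of_mul_eq_one _ (hh_unit y h6)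
  rcases unit_cases h7 with h | h | h | h
  · rw [h] at h6; revert h6; decide
  · rw [h] at h6; revert h6; decide
  · rw [h] at h6; revert h6; decide
  · rw [h] at h6; revert h6; decide

theorem rho_irred : IsIrred rho := by
  intro W hW
  by_contra hcon
  push Not at hcon
  obtain ⟨hbot, htop⟩ := hcon
  obtain ⟨u, hu, huW⟩ := exists_rational hW hbot htop
  apply not_fixed hu
  intro σ
  have h1 := hW σ _ huW
  rw [rho_ev] at h1
  have h2 : u 0 * (mx (m3 σ) *ᵥ u) 1 - u 1 * (mx (m3 σ) *ᵥ u) 0 = 0 := by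
    by_contra h
    apply htop
    apply eq_top_of huW h1
    intro h3
    apply h
    apply (algebraMap (ZMod 3) F3bar).injective
    rw [map_sub, map_mul, map_mul, map_zero]
    exact h3
  have h3 : mx (m3 σ) *ᵥ u ≠ 0 := by
    intro h
    apply hu
    apply rt_inj
    rw [rt_zero]
    have := m3_spec σ u
    rw [h, rt_zero] at this
    exact (EmbeddingLike.map_eq_zero_iff (f := σ)).1 this
  rcases prop_aux _ _ hu h3 h2 with h | h
  · left; rw [m3_spec, h]
  · right; rw [m3_spec, h, rt_neg]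

end Q276.SM
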