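import Mathlib

/-! Matrices over `𝔽₃`. -/

set_option autoImplicit false

open Matrix

namespace Q276.SM

lemma tr0 : ∀ a b c d : ZMod 3, a * d - b * c = 1 → a + d = 0 →
    a * a + b * c = -1 ∧ a * b + b * d = 0 ∧ c * a + d * c = 0 ∧ c * b + d * d = -1 := by decide

lemma tr1 : ∀ a b c d : ZMod 3, a * d - b * c = 1 → a + d = 1 →
    a * (a * a + b * c) + b * (c * a + d * c) = -1 ∧ a * (a * b + b * d) + b * (c * b + d * d) = 0 ∧
    c * (a * a + b * c) + d * (c * a + d * c) = 0 ∧ c * (a * b + b * d) + d * (c * b + d * d) = -1 :=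
  by decide

lemma tr_cases : ∀ t : ZMod 3, t = 0 ∨ t = 1 ∨ t = 2 := by decide

lemma sl_tr (M : Matrix (Fin 2) (Fin 2) (ZMod 3)) (hd : M.det = 1) (h2 : M * M ≠ -1)
    (h3 : M * (M * M) ≠ -1) : M 0 0 + M 1 1 = 2 := by
  rw [Matrix.det_fin_two] at hd
  rcases tr_cases (M 0 0 + M 1 1) with h | h | h
  · exfalso
    apply h2
    obtain ⟨e1, e2, e3, e4⟩ := tr0 _ _ _ _ hd h
    ext i j
    fin_cases i <;> fin_cases j <;> simp [Matrix.mul_apply, Fin.sum_univ_two, e1, e2, e3, e4]
  · exfalso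
    apply h3
    obtain ⟨e1, e2, e3, e4⟩ := tr1 _ _ _ _ hd h
    ext i j
    fin_cases i <;> fin_cases j <;> simp [Matrix.mul_apply, Fin.sum_univ_two, e1, e2, e3, e4]
  · exact h

lemma uni_aux : ∀ a b c e f g : ZMod 3, a * (2 - a) - b * c = 1 → e * (2 - e) - f * g = 1 →
    a * e + b * g + (c * f + (2 - a) * (2 - e)) = 2 →
    (e - 1) * (a - 1) + f * c = 0 ∧ (e - 1) * b + f * ((2 - a) - 1) = 0 ∧
    g * (a - 1) + ((2 - e) - 1) * c = 0 ∧ g * b + ((2 - e) - 1) * ((2 - a) - 1) = 0 := by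
  decide

/-- Two unipotent matrices whose product is unipotent: the columns of `M - 1` are fixed by `N`. -/
lemma uni (M N : Matrix (Fin 2) (Fin 2) (ZMod 3)) (hM : M.det = 1) (hN : N.det = 1)
    (tM : M 0 0 + M 1 1 = 2) (tN : N 0 0 + N 1 1 = 2) (tMN : (M * N) 0 0 + (M * N) 1 1 = 2)
    (j : Fin 2) : N *ᵥ (fun i => (M - 1) i j) = fun i => (M - 1) i j := by
  rw [Matrix.det_fin_two] at hM hN
  have e1 : M 1 1 = 2 - M 0 0 := by linear_combination tM
  have e2 : N 1 1 = 2 - N 0 0 := by linear_combination tN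
  simp only [Matrix.mul_apply, Fin.sum_univ_two] at tMN
  rw [e1] at hM tMN
  rw [e2] at hN tMN
  obtain ⟨h1, h2, h3, h4⟩ := uni_aux _ _ _ _ _ _ hM hN (by linear_combination tMN)
  funext i
  fin_cases j <;> fin_cases i
  · simp only [Fin.zero_eta, Matrix.mulVec, dotProduct, Fin.sum_univ_two, Matrix.sub_apply,
      Matrix.one_apply_eq, ne_eq, one_ne_zero, not_false_eq_true, Matrix.one_apply_ne, sub_zero]
    linear_combination h1
  · simp only [Fin.zero_eta, Fin.mk_one, Matrix.mulVec, dotProduct, Fin.sum_univ_two,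
      Matrix.sub_apply, Matrix.one_apply_eq, ne_eq, one_ne_zero, not_false_eq_true,
      Matrix.one_apply_ne, sub_zero, e2]
    linear_combination h3
  · simp only [Fin.zero_eta, Fin.mk_one, Matrix.mulVec, dotProduct, Fin.sum_univ_two,
      Matrix.sub_apply, Matrix.one_apply_eq, ne_eq, zero_ne_one, not_false_eq_true,
      Matrix.one_apply_ne, sub_zero, e1]
    linear_combination h2
  · simp only [Fin.mk_one, Matrix.mulVec, dotProduct, Fin.sum_univ_two,
      Matrix.sub_apply, Matrix.one_apply_eq, ne_eq, zero_ne_one, not_false_eq_true,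
      Matrix.one_apply_ne, sub_zero, e1, e2]
    linear_combination h4

lemma pow_twelve (M : Matrix (Fin 2) (Fin 2) (ZMod 3)) (hd : M.det = 1) : M ^ 12 = 1 := by
  have h0 : M * M = (M 0 0 + M 1 1) • M - 1 := by
    rw [Matrix.det_fin_two] at hd
    ext i j
    fin_cases i <;> fin_cases j <;>
      simp [Matrix.mul_apply, Fin.sum_univ_two]
    · linear_combination -hd
    · ring
    · ring
    · linear_combination -hd
  rcases tr_cases (M 0 0 + M 1 1) with h | h | h
  · rw [h, zero_smul, zero_sub] at h0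
    have : M ^ 12 = (M * M) ^ 6 := by rw [← pow_two, ← pow_mul]
    rw [this, h0]
    norm_num
  · rw [h, one_smul] at h0
    have h1 : M * M * M = -1 := by
      rw [h0, Matrix.sub_mul, h0, one_mul]; abel
    have : M ^ 12 = (M * M * M) ^ 4 := by rw [← pow_two, ← pow_succ, ← pow_mul]
    rw [this, h1]
    norm_num
  · rw [h] at h0
    have h1 : M * M * M = 1 := by
      rw [h0, Matrix.sub_mul, Matrix.smul_mul, h0, one_mul, smul_sub, smul_smul]
      have : (2 * 2 : ZMod 3) = 1 := by decide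
      rw [this, one_smul]
      have h3 : ((2 : ZMod 3) • (1 : Matrix (Fin 2) (Fin 2) (ZMod 3))) = -1 := by decide
      rw [h3]; abel
    have : M ^ 12 = (M * M * M) ^ 4 := by rw [← pow_two, ← pow_succ, ← pow_mul]
    rw [this, h1, one_pow]

lemma prop_aux : ∀ u w : Fin 2 → ZMod 3, u ≠ 0 → w ≠ 0 → u 0 * w 1 - u 1 * w 0 = 0 →
    w = u ∨ w = -u := by decide

end Q276.SM
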