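import Pool.Agent.Q276.SM.Fld
import Pool.Agent.Q276.SM.Sl2

/-! Ramification groups of the representation. -/

set_option autoImplicit false

open Matrix Polynomial

namespace Q276.SM

lemma dlt_eq : dlt = 6 + 29 * Ii := by decide

lemma algA_dlt : algebraMap O A dlt = 6 + 29 * iA := by
  rw [dlt_eq, map_add, map_mul, map_ofNat, map_ofNat]; rfl

instance : IsNoetherianRing A := by
  have : IsDedekindDomain A := integralClosure.isDedekindDomain O K L
  infer_instance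

lemma rho_of_fix {σ : GK} (h : ∀ v, v ≠ 0 → sA σ (ra v) = ra v) : rho σ = 1 := by
  rw [rho_eq_one, m3_eq_one]
  intro v
  by_cases hv : v = 0
  · rw [hv, rt_zero, map_zero]
  · rw [← emb_ra, ← emb_sA, h v hv]

lemma ram_anti {P : Ideal A} {n : ℕ} {σ : GK} (h : σ ∈ ramSet rho P n) :
    ∀ x : A, sA σ x - x ∈ P := by
  intro x
  have := mem_ramSet.1 h x
  exact Ideal.pow_le_self (by omega) this

/-- Outside the level there is no ramification. -/
theorem ram_trivial {P : Ideal A} (hP : P ≠ ⊤) (hd : algebraMap O A dlt ∉ P) {n : ℕ} {σ : GK}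
    (h : σ ∈ ramSet rho P n) : rho σ = 1 := by
  apply rho_of_fix
  intro v hv
  obtain ⟨w, hw⟩ := exists_wa v hv
  rw [algA_dlt] at hd
  exact unram P (sA σ) iA_sq two_ne (sA_iA σ) hP hd (ra_hh hv) hw (ram_anti h)

lemma ram_not_neg {P : Ideal A} (hP : P ≠ ⊤) {n : ℕ} {σ : GK} (h : σ ∈ ramSet rho P n) :
    mx (m3 σ) ≠ -1 := by
  intro hm
  have hv : (![1, 0] : Fin 2 → ZMod 3) ≠ 0 := by decide
  obtain ⟨w, hw⟩ := exists_wa _ hv
  refine not_neg P (sA σ) two_ne (sA_iA σ) hP (ra_hh hv) hw (ram_anti h) ?_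
  rw [sA_ra, hm, Matrix.neg_mulVec, Matrix.one_mulVec]
  apply emb_inj
  rw [map_neg, emb_ra, emb_ra, rt_neg]

lemma ram_mul {P : Ideal A} {n : ℕ} {σ τ : GK} (hσ : σ ∈ ramSet rho P n)
    (hτ : τ ∈ ramSet rho P n) : σ * τ ∈ ramSet rho P n := by
  rw [mem_ramSet] at hσ hτ ⊢
  intro x
  rw [sA_mul]
  have e : sA σ (sA τ x) - x = (sA σ (sA τ x) - sA τ x) + (sA τ x - x) := by ring
  rw [e]
  exact Ideal.add_mem _ (hσ _) (hτ _)

lemma one_mem_ram (P : Ideal A) (n : ℕ) : (1 : GK) ∈ ramSet rho P n := by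
  rw [mem_ramSet]
  intro x
  have : sA 1 x = x := sA_of_rho (map_one _) x
  rw [this, sub_self]
  exact Ideal.zero_mem _

lemma ram_trace {P : Ideal A} (hP : P ≠ ⊤) {n : ℕ} {σ : GK} (h : σ ∈ ramSet rho P n) :
    mx (m3 σ) 0 0 + mx (m3 σ) 1 1 = 2 := by
  apply sl_tr _ (mx_det _)
  · have := ram_not_neg hP (ram_mul h h)
    rwa [map_mul, mx_mul] at this
  · have := ram_not_neg hP (ram_mul h (ram_mul h h))
    rwa [map_mul, map_mul, mx_mul, mx_mul] at this

lemma ram_fixed {P : Ideal A} (hP : P ≠ ⊤) {n : ℕ} {σ τ : GK} (hσ : σ ∈ ramSet rho P n)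
    (hτ : τ ∈ ramSet rho P n) (j : Fin 2) :
    mx (m3 τ) *ᵥ (fun i => (mx (m3 σ) - 1) i j) = fun i => (mx (m3 σ) - 1) i j := by
  have h := ram_trace hP (ram_mul hσ hτ)
  rw [map_mul, mx_mul] at h
  exact uni _ _ (mx_det _) (mx_det _) (ram_trace hP hσ) (ram_trace hP hτ) h j

lemma sA_iter (σ : GK) (x : A) : (sA σ)^[12] x = x := by
  rw [← sA_pow]
  apply sA_of_rho
  rw [rho_eq_one]
  apply mx_inj
  have h : ∀ n : ℕ, mx (m3 (σ ^ n)) = mx (m3 σ) ^ n := by
    intro n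
    induction n with
    | zero => rw [pow_zero, pow_zero, map_one, mx_one]
    | succ n ih => rw [pow_succ, pow_succ, map_mul, mx_mul, ih]
  rw [h, pow_twelve _ (mx_det _), mx_one]

lemma mem_877 {P : Ideal A} (hd : algebraMap O A dlt ∈ P) : ((877 : ℕ) : A) ∈ P := by
  have e : ((877 : ℕ) : A) = algebraMap O A ⟨6, -29⟩ * algebraMap O A dlt := by
    rw [← map_mul]
    have : (⟨6, -29⟩ : O) * dlt = ((877 : ℕ) : O) := by decide
    rw [this, map_natCast]
  rw [e]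
  exact Ideal.mul_mem_left _ _ hd

/-- The higher ramification groups are trivial. -/
theorem ram_higher {P : Ideal A} (hP : P ≠ ⊤) (hd : algebraMap O A dlt ∈ P) {n : ℕ} (hn : 1 ≤ n)
    {σ : GK} (h : σ ∈ ramSet rho P n) : rho σ = 1 := by
  apply rho_of_fix
  intro v _
  refine tame P (sA σ) hP (mem_877 hd) (N := 12) (by norm_num) (sA_iter σ) ?_ (ra v)
  intro x
  exact Ideal.pow_le_pow_right (by omega) (mem_ramSet.1 h x)

end Q276.SM
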