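import Pool.Agent.Q276.SM.Ram2

/-! Inertia at the primes above `6 + 29 i` is nontrivial. -/

set_option autoImplicit false

open Matrix Polynomial

namespace Q276.SM

/-- the polynomial `hh` over the algebraic closure -/
noncomputable def hp : Kbar[X] := X ^ 4 + (C (1 - 2 * (ib : Kbar)) * X ^ 3 + X ^ 2 +
  C (2 + 2 * (ib : Kbar)) * X - 1)

lemma hp_eval (x : Kbar) : hp.eval x = hh (ib : Kbar) x := by
  simp only [hp, hh, eval_mul, eval_X, eval_sub, eval_add, eval_pow, eval_C, eval_one]
  ring

lemma hp_monic : hp.Monic := by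
  unfold hp
  apply monic_X_pow_add
  compute_degree!

lemma hp_root {y : Kbar} (hy : hp.eval y = 0) : ∃ v, v ≠ 0 ∧ (rt v) ^ 2 = y := by
  rw [hp_eval] at hy
  obtain ⟨z, hz⟩ := IsAlgClosed.exists_pow_nat_eq y (n := 2) (by norm_num)
  have h1 : gp.eval z = 0 := by rw [gp_eval, hz, hy, mul_zero]
  obtain ⟨v, hv⟩ := lbl.surj z h1
  refine ⟨v, ?_, ?_⟩
  · rintro rfl
    have h2 : z = 0 := by rw [← hv]; exact rt_zero
    rw [h2] at hz
    rw [← hz] at hy
    simp [hh] at hy
  · have : rt v = z := hv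
    rw [this, hz]

lemma exists_near {P : Ideal A} (hP : P.IsPrime) (hd : algebraMap O A dlt ∈ P) :
    ∃ v, v ≠ 0 ∧ (ra v) ^ 2 - (172 + 140 * iA) ∈ P := by
  by_contra hcon
  push Not at hcon
  have hb : (172 + 140 * iA : A) = algebraMap O A ⟨172, 140⟩ := by
    have : (⟨172, 140⟩ : O) = 172 + 140 * Ii := by decide
    rw [this, map_add, map_mul, map_ofNat, map_ofNat]; rfl
  have hval : hp.eval (emb (172 + 140 * iA)) = emb (hh iA (172 + 140 * iA)) := by
    rw [hp_eval, map_hh, emb_iA]
  have hmem : hh iA (172 + 140 * iA) ∈ P := by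
    have h1 : hh iA (172 + 140 * iA) = algebraMap O A (hh Ii ⟨172, 140⟩) := by
      rw [hb, map_hh]; rfl
    have h2 : hh Ii (⟨172, 140⟩ : O) = ⟨17365554, 79639697⟩ * dlt := by decide +kernel
    rw [h1, h2, map_mul]
    exact Ideal.mul_mem_left _ _ hd
  have hprod : hp.eval (emb (172 + 140 * iA)) ∈ P.primeCompl.map (emb : A →* Kbar) := by
    rw [(IsAlgClosed.splits hp).eval_eq_prod_roots_of_monic hp_monic]
    apply Submonoid.multiset_prod_mem
    intro a ha
    rw [Multiset.mem_map] at ha
    obtain ⟨y, hy, rfl⟩ := ha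
    have hy0 : hp.eval y = 0 := (mem_roots'.1 hy).2
    obtain ⟨v, hv, rfl⟩ := hp_root hy0
    refine ⟨(172 + 140 * iA) - (ra v) ^ 2, ?_, ?_⟩
    · change _ ∉ P
      intro h
      apply hcon v hv
      rw [← neg_sub]
      exact (Ideal.neg_mem_iff _).2 h
    · change emb ((172 + 140 * iA) - (ra v) ^ 2) = _
      rw [map_sub, map_pow, emb_ra]
  rw [hval] at hprod
  obtain ⟨e, he, hee⟩ := hprod
  have : e = hh iA (172 + 140 * iA) := emb_inj hee
  rw [this] at he
  exact he hmem

theorem dlt_sq {P : Ideal A} (hP : P.IsPrime) (hd : algebraMap O A dlt ∈ P) :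
    algebraMap O A dlt ∈ P ^ 2 := by
  obtain ⟨v, hv, h⟩ := exists_near hP hd
  rw [algA_dlt] at hd ⊢
  exact ramified P iA_sq (ra_hh hv) hd h

instance : IsDedekindDomain A := integralClosure.isDedekindDomain O K L

instance lev_max : lev.IsMaximal := by
  have h1 : RingHom.ker rd = lev := by
    ext z
    rw [RingHom.mem_ker, mem_lev]
  rw [← h1]
  apply RingHom.ker_isMaximal_of_surjective
  intro x
  exact ⟨(x.val : O), by rw [map_natCast, ZMod.natCast_zmod_val]⟩

lemma lev_ne_bot : lev ≠ ⊥ := by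
  rw [lev, Ne, Ideal.span_singleton_eq_bot]
  decide

lemma under_eq {P : Ideal A} (hP : P.IsPrime) (hd : algebraMap O A dlt ∈ P) :
    P.under O = lev := by
  have h1 : lev ≤ P.under O := by
    rw [lev, Ideal.span_singleton_le_iff_mem]
    exact hd
  exact (lev_max.eq_of_le (Ideal.IsPrime.under O P).ne_top h1).symm

lemma algOA_inj : Function.Injective (algebraMap O A) := by
  intro x y h
  apply algO_inj
  rw [← emb_algebraMap, ← emb_algebraMap, h]

instance : Module.IsTorsionFree O A := Module.isTorsionFree_iff_algebraMap_injective.2 algOA_inj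

instance : Module.Finite O A := IsIntegralClosure.finite O K L A

instance : Finite (O ⧸ lev) := by
  have h : ∀ a ∈ lev, rd a = 0 := fun a ha => mem_lev.1 ha
  refine Finite.of_injective (Ideal.Quotient.lift lev rd h) ?_
  rw [injective_iff_map_eq_zero]
  intro x
  obtain ⟨y, rfl⟩ := Ideal.Quotient.mk_surjective x
  intro hx
  rw [Ideal.Quotient.lift_mk] at hx
  rw [Ideal.Quotient.eq_zero_iff_mem, mem_lev]
  exact hx

/-- Inertia above `6 + 29 i` is nontrivial. -/
theorem exists_inertia {P : Ideal A} (hP : P.IsPrime) (hd : algebraMap O A dlt ∈ P) :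
    ∃ σ ∈ ramSet rho P 0, rho σ ≠ 1 := by
  have hlo : P.LiesOver lev := ⟨(under_eq hP hd).symm⟩
  let : MulSemiringAction Gal(L/K) A := IsIntegralClosure.MulSemiringAction O K L A
  have hfr : IsFractionRing A L := IsIntegralClosure.isFractionRing_of_finite_extension O K L A
  have hgg : IsGaloisGroup Gal(L/K) O A := IsGaloisGroup.of_isFractionRing _ _ _ K L
  have hcard : Nat.card (P.inertia Gal(L/K)) = lev.ramificationIdxIn A :=
    Ideal.card_inertia_eq_ramificationIdxIn lev P
  have he : lev.ramificationIdxIn A = P.ramificationIdx O :=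
    Ideal.ramificationIdxIn_eq_ramificationIdx lev P Gal(L/K)
  have he' : lev.ramificationIdx' P = P.ramificationIdx O :=
    Ideal.ramificationIdx'_eq_ramificationIdx lev P lev_ne_bot
  have hmap : ∀ n, algebraMap O A dlt ∈ P ^ n → Ideal.map (algebraMap O A) lev ≤ P ^ n := by
    intro n hn
    rw [lev, Ideal.map_span, Set.image_singleton, Ideal.span_singleton_le_iff_mem]
    exact hn
  have hne : P.ramificationIdx O ≠ 1 := by
    rw [← he', Ideal.ramificationIdx'_ne_one_iff (by simpa using hmap 1 (by simpa using hd))]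
    exact hmap 2 (dlt_sq hP hd)
  rw [← he, ← hcard] at hne
  have hnt : Nontrivial (P.inertia Gal(L/K)) := by
    rw [← Finite.one_lt_card_iff_nontrivial]
    have : 0 < Nat.card (P.inertia Gal(L/K)) := Nat.card_pos
    omega
  obtain ⟨τ, hτ⟩ := exists_ne (1 : P.inertia Gal(L/K))
  obtain ⟨σ, hσ⟩ := AlgEquiv.restrictNormalHom_surjective (F := K) (K₁ := L) Kbar τ.1
  have hres : ∀ x : L, ((τ.1 x : L) : Kbar) = σ (x : Kbar) := by
    intro x
    rw [← hσ]
    exact AlgEquiv.restrictNormal_commutes σ L x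
  have hact : ∀ x : A, τ.1 • x = sA σ x := by
    intro x
    apply emb_inj
    rw [emb_sA, emb_apply, emb_apply, ← hres]
    congr 1
    exact algebraMap_galRestrict_apply O τ.1 x
  refine ⟨σ, ?_, ?_⟩
  · rw [mem_ramSet]
    intro x
    rw [zero_add, pow_one, ← hact]
    exact τ.2 x
  · intro h
    apply hτ
    apply Subtype.ext
    apply AlgEquiv.ext
    intro x
    apply Subtype.ext
    rw [hres]
    exact mem_L.1 x.2 σ h

end Q276.SM
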