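import Pool.Agent.Q276.SM.Inv

/-! Proper discontinuity of the action of `GL₂(ℤ[i])` on hyperbolic space. -/

set_option autoImplicit false

open Matrix Topology
open scoped ComplexOrder

namespace Q276.SM

instance : T2Space H3 := inferInstanceAs (T2Space {h : Matrix (Fin 2) (Fin 2) ℂ //
  h.PosDef ∧ h.det = 1})

lemma continuous_val : Continuous (fun h : H3 => h.1) := continuous_subtype_val

lemma continuous_act (g : GL (Fin 2) O) : Continuous (fun h : H3 => toC g • h) := by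
  have h0 : Continuous (fun h : H3 => (toC g).val * h.1 * (toC g).valᴴ) :=
    (continuous_const.matrix_mul continuous_val).matrix_mul continuous_const
  have h1 : Continuous (fun h : H3 => ((‖(toC g).det.val‖⁻¹ : ℝ) : ℂ) •
      ((toC g).val * h.1 * (toC g).valᴴ)) :=
    h0.const_smul (((‖(toC g).det.val‖⁻¹ : ℝ) : ℂ))
  exact Continuous.subtype_mk h1 (fun h => (toC g • h).2)

/-- The entries of a point of hyperbolic space. -/
lemma entries (h : H3) : ∃ (a d : ℝ) (β : ℂ), 0 < a ∧ 0 < d ∧ h.1 0 0 = a ∧ h.1 1 1 = d ∧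
    h.1 0 1 = β ∧ h.1 1 0 = (starRingEnd ℂ) β ∧ a * d - ‖β‖ ^ 2 = 1 := by
  obtain ⟨h, hp, hd⟩ := h
  have h00 := hp.diag_pos (i := 0)
  have h11 := hp.diag_pos (i := 1)
  have hh := hp.1
  have h10 : h 1 0 = (starRingEnd ℂ) (h 0 1) := by
    have := congrFun (congrFun hh 1) 0
    rw [Matrix.conjTranspose_apply] at this
    exact this.symm
  obtain ⟨a, ha⟩ : ∃ a : ℝ, h 0 0 = a := by
    have := (Complex.pos_iff.1 h00).2
    exact ⟨(h 0 0).re, Complex.ext (by simp) (by simpa using this.symm)⟩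
  obtain ⟨d, hd'⟩ : ∃ a : ℝ, h 1 1 = a := by
    have := (Complex.pos_iff.1 h11).2
    exact ⟨(h 1 1).re, Complex.ext (by simp) (by simpa using this.symm)⟩
  refine ⟨a, d, h 0 1, ?_, ?_, ha, hd', rfl, h10, ?_⟩
  · rw [ha] at h00; exact_mod_cast h00
  · rw [hd'] at h11; exact_mod_cast h11
  · rw [Matrix.det_fin_two, h10, ha, hd', Complex.mul_conj, Complex.normSq_eq_norm_sq] at hd
    exact_mod_cast hd

/-- A bound for a row of a matrix. -/
lemma row_bound {a d q : ℝ} {β u v : ℂ} (hdet : a * d - ‖β‖ ^ 2 = 1)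
    (hq : (q : ℂ) = a * u * (starRingEnd ℂ) u + β * u * (starRingEnd ℂ) v +
      (starRingEnd ℂ) β * v * (starRingEnd ℂ) u + d * v * (starRingEnd ℂ) v) :
    ‖v‖ ^ 2 ≤ a * q ∧ ‖u‖ ^ 2 ≤ d * q := by
  have hb : (starRingEnd ℂ) β * β = ((‖β‖ ^ 2 : ℝ) : ℂ) := by
    rw [mul_comm, Complex.mul_conj, Complex.normSq_eq_norm_sq]
  have hd2 : (a : ℂ) * d - ((‖β‖ ^ 2 : ℝ) : ℂ) = 1 := by exact_mod_cast hdet
  have hu : u * (starRingEnd ℂ) u = ((‖u‖ ^ 2 : ℝ) : ℂ) := by
    rw [Complex.mul_conj, Complex.normSq_eq_norm_sq]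
  have hv : v * (starRingEnd ℂ) v = ((‖v‖ ^ 2 : ℝ) : ℂ) := by
    rw [Complex.mul_conj, Complex.normSq_eq_norm_sq]
  constructor
  · have h1 : ((a * q : ℝ) : ℂ) = ((‖(a : ℂ) * u + (starRingEnd ℂ) β * v‖ ^ 2 + ‖v‖ ^ 2 : ℝ) : ℂ) := by
      rw [Complex.ofReal_mul, hq, Complex.ofReal_add, ← Complex.normSq_eq_norm_sq,
        ← Complex.mul_conj, ← hv]
      simp only [map_add, map_mul, Complex.conj_ofReal, Complex.conj_conj]
      linear_combination (v * (starRingEnd ℂ) v) * (hd2) - (v * (starRingEnd ℂ) v) * hb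
    have h2 : a * q = ‖(a : ℂ) * u + (starRingEnd ℂ) β * v‖ ^ 2 + ‖v‖ ^ 2 := by exact_mod_cast h1
    rw [h2]
    nlinarith [sq_nonneg ‖(a : ℂ) * u + (starRingEnd ℂ) β * v‖]
  · have h1 : ((d * q : ℝ) : ℂ) = ((‖(d : ℂ) * v + β * u‖ ^ 2 + ‖u‖ ^ 2 : ℝ) : ℂ) := by
      rw [Complex.ofReal_mul, hq, Complex.ofReal_add, ← Complex.normSq_eq_norm_sq,
        ← Complex.mul_conj, ← hu]
      simp only [map_add, map_mul, Complex.conj_ofReal]
      linear_combination (u * (starRingEnd ℂ) u) * (hd2) - (u * (starRingEnd ℂ) u) * hb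
    have h2 : d * q = ‖(d : ℂ) * v + β * u‖ ^ 2 + ‖u‖ ^ 2 := by exact_mod_cast h1
    rw [h2]
    nlinarith [sq_nonneg ‖(d : ℂ) * v + β * u‖]

lemma norm_toC (z : O) : ‖GaussianInt.toComplex z‖ ^ 2 = (z.re : ℝ) ^ 2 + (z.im : ℝ) ^ 2 := by
  rw [← Complex.normSq_eq_norm_sq, Complex.normSq_apply, GaussianInt.toComplex_def]
  simp
  ring

/-- The open set of the points with bounded diagonal entries. -/
def ball (C : ℝ) : Set H3 := {h | ‖h.1 0 0‖ < C ∧ ‖h.1 1 1‖ < C}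

lemma ball_open (C : ℝ) : IsOpen (ball C) := by
  have h1 : Continuous fun h : H3 => ‖h.1 0 0‖ := (continuous_val.matrix_elem 0 0).norm
  have h2 : Continuous fun h : H3 => ‖h.1 1 1‖ := (continuous_val.matrix_elem 1 1).norm
  exact (isOpen_lt h1 continuous_const).inter (isOpen_lt h2 continuous_const)

lemma bounded_int {M : ℕ} : {z : O | |z.re| ≤ M ∧ |z.im| ≤ M}.Finite := by
  refine Set.Finite.subset (s := (fun p : ℤ × ℤ => (⟨p.1, p.2⟩ : O)) ''
    ((Finset.Icc (-(M : ℤ)) M ×ˢ Finset.Icc (-(M : ℤ)) M : Finset (ℤ × ℤ)) : Set (ℤ × ℤ)))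
    ((Finset.finite_toSet _).image _) ?_
  rintro z ⟨h1, h2⟩
  rw [abs_le] at h1 h2
  refine ⟨(z.re, z.im), ?_, rfl⟩
  simp only [Finset.coe_product, Finset.coe_Icc, Set.mem_prod, Set.mem_Icc]
  exact ⟨h1, h2⟩

lemma finite_meet (C : ℝ) : {g : GL (Fin 2) O | ∃ h ∈ ball C, toC g • h ∈ ball C}.Finite := by
  obtain ⟨M, hM⟩ := exists_nat_ge (C ^ 2)
  have hfin : (Set.univ.pi fun _ : Fin 2 => Set.univ.pi fun _ : Fin 2 =>
      {z : O | |z.re| ≤ M ∧ |z.im| ≤ M}).Finite :=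
    Set.Finite.pi fun _ => Set.Finite.pi fun _ => bounded_int
  have hinj : Set.InjOn (fun g : GL (Fin 2) O => (fun i j => g.val i j : Fin 2 → Fin 2 → O))
      ((fun g : GL (Fin 2) O => (fun i j => g.val i j : Fin 2 → Fin 2 → O)) ⁻¹'
        (Set.univ.pi fun _ : Fin 2 => Set.univ.pi fun _ : Fin 2 =>
          {z : O | |z.re| ≤ M ∧ |z.im| ≤ M})) := by
    intro g _ g' _ h
    apply Units.ext
    exact h
  refine (hfin.preimage hinj).subset ?_
  rintro g ⟨h, hh, hg⟩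
  obtain ⟨a, d, β, ha, hd, e00, e11, e01, e10, hdet⟩ := entries h
  have hb : a < C ∧ d < C := by
    have h1 := hh.1
    have h2 := hh.2
    rw [e00, Complex.norm_real, Real.norm_eq_abs, abs_of_pos ha] at h1
    rw [e11, Complex.norm_real, Real.norm_eq_abs, abs_of_pos hd] at h2
    exact ⟨h1, h2⟩
  have hC : 0 < C := ha.trans hb.1
  have hi : ∀ i : Fin 2, ‖(toC g • h).1 i i‖ < C := by
    intro i; fin_cases i
    exacts [hg.1, hg.2]
  have key : ∀ i j : Fin 2, ‖GaussianInt.toComplex (g.val i j)‖ ^ 2 ≤ C ^ 2 := by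
    intro i j
    obtain ⟨a', d', β', ha', hd', e00', e11', -, -, -⟩ := entries (toC g • h)
    obtain ⟨q, hq, hqC⟩ : ∃ q : ℝ, (toC g • h).1 i i = q ∧ q < C := by
      have := hi i
      fin_cases i
      · refine ⟨a', e00', ?_⟩
        simp only [Fin.zero_eta, e00', Complex.norm_real, Real.norm_eq_abs, abs_of_pos ha'] at this
        exact this
      · refine ⟨d', e11', ?_⟩
        simp only [Fin.mk_one, e11', Complex.norm_real, Real.norm_eq_abs, abs_of_pos hd'] at this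
        exact this
    have hrow : (q : ℂ) = a * (GaussianInt.toComplex (g.val i 0)) *
        (starRingEnd ℂ) (GaussianInt.toComplex (g.val i 0)) +
        β * (GaussianInt.toComplex (g.val i 0)) *
          (starRingEnd ℂ) (GaussianInt.toComplex (g.val i 1)) +
        (starRingEnd ℂ) β * (GaussianInt.toComplex (g.val i 1)) *
          (starRingEnd ℂ) (GaussianInt.toComplex (g.val i 0)) +
        d * (GaussianInt.toComplex (g.val i 1)) *
          (starRingEnd ℂ) (GaussianInt.toComplex (g.val i 1)) := by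
      rw [← hq, smul_val]
      simp only [Matrix.mul_apply, Fin.sum_univ_two, Matrix.conjTranspose_apply, Matrix.map_apply,
        e00, e11, e01, e10, Complex.star_def]
      ring
    obtain ⟨r1, r0⟩ := row_bound hdet hrow
    have hq0 : 0 ≤ q := by
      have h3 : 0 ≤ a * q := le_trans (by positivity) r1
      exact nonneg_of_mul_nonneg_right h3 ha
    have b1 : a * q ≤ C ^ 2 := by nlinarith [hb.1]
    have b2 : d * q ≤ C ^ 2 := by nlinarith [hb.2]
    fin_cases j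
    · exact r0.trans b2
    · exact r1.trans b1
  intro i _ j _
  have h1 := key i j
  rw [norm_toC] at h1
  have h2 : ((g.val i j).re : ℝ) ^ 2 ≤ M := by nlinarith [sq_nonneg ((g.val i j).im : ℝ)]
  have h3 : ((g.val i j).im : ℝ) ^ 2 ≤ M := by nlinarith [sq_nonneg ((g.val i j).re : ℝ)]
  have h4 : (g.val i j).re ^ 2 ≤ (M : ℤ) := by exact_mod_cast h2
  have h5 : (g.val i j).im ^ 2 ≤ (M : ℤ) := by exact_mod_cast h3
  have aux : ∀ n : ℤ, n ^ 2 ≤ (M : ℤ) → |n| ≤ M := by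
    intro n hn
    refine le_trans ?_ hn
    have : |n| ≤ |n| ^ 2 := by
      rcases eq_or_ne n 0 with h0 | h0
      · simp [h0]
      · have := Int.one_le_abs h0
        nlinarith
    rwa [sq_abs] at this
  exact ⟨aux _ h4, aux _ h5⟩

/-- Every point has a neighbourhood that meets its translates only for elements of the
stabiliser. -/
theorem exists_nhd (x : H3) : ∃ B : Set H3, IsOpen B ∧ x ∈ B ∧
    ∀ g : GL (Fin 2) O, (∃ b ∈ B, toC g • b ∈ B) → toC g • x = x := by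
  classical
  obtain ⟨C, hC⟩ := exists_gt (max ‖x.1 0 0‖ ‖x.1 1 1‖)
  have hxC : x ∈ ball C := ⟨lt_of_le_of_lt (le_max_left _ _) hC, lt_of_le_of_lt (le_max_right _ _) hC⟩
  set S := {g : GL (Fin 2) O | ∃ h ∈ ball C, toC g • h ∈ ball C} with hS
  have hSf : S.Finite := finite_meet C
  have hW : ∀ g : GL (Fin 2) O, ∃ W : Set H3, IsOpen W ∧ x ∈ W ∧
      (toC g • x ≠ x → ∀ b ∈ W, toC g • b ∉ W) := by
    intro g
    by_cases hg : toC g • x = x
    · exact ⟨Set.univ, isOpen_univ, Set.mem_univ _, fun h => absurd hg h⟩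
    · obtain ⟨U, V, hU, hV, hxU, hxV, hdis⟩ := t2_separation (Ne.symm hg)
      refine ⟨U ∩ (fun h => toC g • h) ⁻¹' V, hU.inter (hV.preimage (continuous_act g)),
        ⟨hxU, hxV⟩, fun _ b hb hb' => ?_⟩
      exact Set.disjoint_left.1 hdis hb'.1 hb.2
  choose W hWo hWx hWs using hW
  refine ⟨ball C ∩ ⋂ g ∈ S, W g, (ball_open C).inter (hSf.isOpen_biInter fun g _ => hWo g),
    ⟨hxC, Set.mem_iInter₂.2 fun g _ => hWx g⟩, ?_⟩
  rintro g ⟨b, hb, hb'⟩
  by_contra hne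
  have hgS : g ∈ S := ⟨b, hb.1, hb'.1⟩
  exact hWs g hne b (Set.mem_iInter₂.1 hb.2 g hgS) (Set.mem_iInter₂.1 hb'.2 g hgS)

end Q276.SM
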