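import Pool.Agent.Q276.SM.Top1

/-! Singular 1-cocycles: segments, triangles and squares. -/

set_option autoImplicit false

open Topology

namespace Q276.SM

/-- the standard 1-simplex -/
abbrev D1 : Type := stdSimplex ℝ (Fin 2)

/-- vertices -/
abbrev e0 : D1 := stdSimplex.vertex 0
abbrev e1 : D1 := stdSimplex.vertex 1

lemma cont_coord {n : ℕ} (i : Fin n) : Continuous (fun s : stdSimplex ℝ (Fin n) => s i) :=
  (continuous_apply i).comp continuous_subtype_val

lemma face0 (s : D1) : (face 0 s) 0 = 0 ∧ (face 0 s) 1 = s 0 ∧ (face 0 s) 2 = s 1 := by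
  have h : ∀ j, (face 0 s) j = ∑ i : Fin 2, if (0 : Fin 3).succAbove i = j then s i else 0 := by
    intro j
    change (stdSimplex.map (0 : Fin 3).succAbove s) j = _
    rw [stdSimplex.map_coe, FunOnFinite.linearMap_apply_apply, Finset.sum_filter]
  refine ⟨?_, ?_, ?_⟩ <;> rw [h, Fin.sum_univ_two] <;> simp [Fin.succAbove, Fin.lt_def]

lemma face1 (s : D1) : (face 1 s) 0 = s 0 ∧ (face 1 s) 1 = 0 ∧ (face 1 s) 2 = s 1 := by
  have h : ∀ j, (face 1 s) j = ∑ i : Fin 2, if (1 : Fin 3).succAbove i = j then s i else 0 := by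
    intro j
    change (stdSimplex.map (1 : Fin 3).succAbove s) j = _
    rw [stdSimplex.map_coe, FunOnFinite.linearMap_apply_apply, Finset.sum_filter]
  refine ⟨?_, ?_, ?_⟩ <;> rw [h, Fin.sum_univ_two] <;> simp [Fin.succAbove, Fin.lt_def]

lemma face2 (s : D1) : (face 2 s) 0 = s 0 ∧ (face 2 s) 1 = s 1 ∧ (face 2 s) 2 = 0 := by
  have h : ∀ j, (face 2 s) j = ∑ i : Fin 2, if (2 : Fin 3).succAbove i = j then s i else 0 := by
    intro j
    change (stdSimplex.map (2 : Fin 3).succAbove s) j = _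
    rw [stdSimplex.map_coe, FunOnFinite.linearMap_apply_apply, Finset.sum_filter]
  refine ⟨?_, ?_, ?_⟩ <;> rw [h, Fin.sum_univ_two] <;> simp [Fin.succAbove, Fin.lt_def]

section Seg

variable {E : Type*} [AddCommGroup E] [Module ℝ E] [TopologicalSpace E] [ContinuousAdd E]
  [ContinuousSMul ℝ E] {D : Set E}

/-- the segment from `a` to `b` as a map of the standard 1-simplex -/
def seg (hD : Convex ℝ D) (a b : D) : C(D1, D) where
  toFun s := ⟨s 0 • a.1 + s 1 • b.1,
    hD a.2 b.2 (stdSimplex.zero_le s 0) (stdSimplex.zero_le s 1) (stdSimplex.add_eq_one s)⟩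
  continuous_toFun := by
    refine Continuous.subtype_mk ?_ _
    exact ((cont_coord 0).smul continuous_const).add ((cont_coord 1).smul continuous_const)

lemma tri_mem (hD : Convex ℝ D) (a b c : D) (s : stdSimplex ℝ (Fin 3)) :
    s 0 • a.1 + s 1 • b.1 + s 2 • c.1 ∈ D := by
  have h := hD.sum_mem (t := Finset.univ) (w := fun i : Fin 3 => s i) (z := ![a.1, b.1, c.1])
    (fun i _ => stdSimplex.zero_le s i) (stdSimplex.sum_eq_one s) (by
      intro i _
      fin_cases i
      exacts [a.2, b.2, c.2])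
  rw [Fin.sum_univ_three] at h
  exact h

/-- the triangle with vertices `a`, `b`, `c` -/
def tri (hD : Convex ℝ D) (a b c : D) : C(stdSimplex ℝ (Fin 3), D) where
  toFun s := ⟨s 0 • a.1 + s 1 • b.1 + s 2 • c.1, tri_mem hD a b c s⟩
  continuous_toFun := by
    refine Continuous.subtype_mk ?_ _
    exact (((cont_coord 0).smul continuous_const).add ((cont_coord 1).smul continuous_const)).add
      ((cont_coord 2).smul continuous_const)

lemma tri_face0 (hD : Convex ℝ D) (a b c : D) : (tri hD a b c).comp (face 0) = seg hD b c := by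
  ext s
  obtain ⟨h0, h1, h2⟩ := face0 s
  change (face 0 s) 0 • a.1 + (face 0 s) 1 • b.1 + (face 0 s) 2 • c.1 = s 0 • b.1 + s 1 • c.1
  rw [h0, h1, h2, zero_smul, zero_add]

lemma tri_face1 (hD : Convex ℝ D) (a b c : D) : (tri hD a b c).comp (face 1) = seg hD a c := by
  ext s
  obtain ⟨h0, h1, h2⟩ := face1 s
  change (face 1 s) 0 • a.1 + (face 1 s) 1 • b.1 + (face 1 s) 2 • c.1 = s 0 • a.1 + s 1 • c.1
  rw [h0, h1, h2, zero_smul, add_zero]

lemma tri_face2 (hD : Convex ℝ D) (a b c : D) : (tri hD a b c).comp (face 2) = seg hD a b := by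
  ext s
  obtain ⟨h0, h1, h2⟩ := face2 s
  change (face 2 s) 0 • a.1 + (face 2 s) 1 • b.1 + (face 2 s) 2 • c.1 = s 0 • a.1 + s 1 • b.1
  rw [h0, h1, h2, zero_smul, add_zero]

lemma seg_e0 (hD : Convex ℝ D) (a b : D) : seg hD a b e0 = a := by
  apply Subtype.ext
  change (e0 : Fin 2 → ℝ) 0 • a.1 + (e0 : Fin 2 → ℝ) 1 • b.1 = a.1
  simp [e0]

lemma seg_e1 (hD : Convex ℝ D) (a b : D) : seg hD a b e1 = b := by
  apply Subtype.ext
  change (e1 : Fin 2 → ℝ) 0 • a.1 + (e1 : Fin 2 → ℝ) 1 • b.1 = b.1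
  simp [e1]

variable {Y : Type} [TopologicalSpace Y] {F : Type} [Field F]

/-- the value of a cocycle on the image of a segment -/
def Ef (hD : Convex ℝ D) (φ : C(D1, Y) → F) (f : C(D, Y)) (a b : D) : F := φ (f.comp (seg hD a b))

lemma coc (hD : Convex ℝ D) {φ : C(D1, Y) → F} (hφ : φ ∈ Z1 Y F) (f : C(D, Y)) (a b c : D) :
    Ef hD φ f b c - Ef hD φ f a c + Ef hD φ f a b = 0 := by
  have h := hφ (f.comp (tri hD a b c))
  rw [ContinuousMap.comp_assoc, ContinuousMap.comp_assoc, ContinuousMap.comp_assoc, tri_face0,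
    tri_face1, tri_face2] at h
  exact h

lemma Ef_self (hD : Convex ℝ D) {φ : C(D1, Y) → F} (hφ : φ ∈ Z1 Y F) (f : C(D, Y)) (a : D) :
    Ef hD φ f a a = 0 := by
  have := coc hD hφ f a a a
  rw [sub_self, zero_add] at this
  exact this

lemma Ef_symm (hD : Convex ℝ D) {φ : C(D1, Y) → F} (hφ : φ ∈ Z1 Y F) (f : C(D, Y)) (a b : D) :
    Ef hD φ f a b = - Ef hD φ f b a := by
  have := coc hD hφ f a b a
  rw [Ef_self hD hφ] at this
  linear_combination this

end Seg

section Square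

variable {Y : Type} [TopologicalSpace Y] {F : Type} [Field F]

/-- the square -/
def Sq : Set ((Fin 2 → ℝ) × ℝ) := stdSimplex ℝ (Fin 2) ×ˢ Set.Icc (0 : ℝ) 1

lemma Sq_convex : Convex ℝ Sq := (convex_stdSimplex ℝ (Fin 2)).prod (convex_Icc 0 1)

/-- a point of the square -/
def sqp (a : D1) (t : Set.Icc (0 : ℝ) 1) : Sq := ⟨(a.1, t.1), a.2, t.2⟩

lemma const_zero {φ : C(D1, Y) → F} (hφ : φ ∈ Z1 Y F) (y : Y) :
    φ (ContinuousMap.const D1 y) = 0 := by
  have h := hφ (ContinuousMap.const _ y)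
  have e : ∀ i, (ContinuousMap.const (stdSimplex ℝ (Fin 3)) y).comp (face i) =
      ContinuousMap.const D1 y := fun i => rfl
  rw [e, e, e, sub_self, zero_add] at h
  exact h

lemma one_sub (s : D1) : s 0 = 1 - s 1 := by
  have := stdSimplex.add_eq_one s
  linarith

/-- coordinate of a point of the 1-simplex in the unit interval -/
def co (s : D1) : Set.Icc (0 : ℝ) 1 := ⟨s 1, stdSimplex.zero_le s 1, stdSimplex.le_one s 1⟩

/-- A square with one constant side. -/
lemma square {φ : C(D1, Y) → F} (hφ : φ ∈ Z1 Y F) (q : C(D1, Y)) (G : C(Sq, Y)) (y : Y)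
    (h0 : ∀ s, G (sqp s 0) = q s) (h1 : ∀ s, G (sqp s 1) = y) (ea eb : C(D1, Y))
    (ha : ∀ s, G (sqp e0 (co s)) = ea s) (hb : ∀ s, G (sqp e1 (co s)) = eb s) :
    φ q = φ ea - φ eb := by
  have c1 := coc Sq_convex hφ G (sqp e0 0) (sqp e1 0) (sqp e1 1)
  have c2 := coc Sq_convex hφ G (sqp e0 0) (sqp e0 1) (sqp e1 1)
  have k1 : G.comp (seg Sq_convex (sqp e0 0) (sqp e1 0)) = q := by
    ext s
    rw [← h0 s]
    change G _ = G _
    congr 1
    apply Subtype.ext
    change s 0 • ((e0 : Fin 2 → ℝ), (0 : ℝ)) + s 1 • ((e1 : Fin 2 → ℝ), (0 : ℝ)) = (s.1, (0 : ℝ))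
    rw [Prod.smul_mk, Prod.smul_mk, Prod.mk_add_mk]
    congr 1
    · funext i
      fin_cases i
      · simp [e0, e1]; rfl
      · simp [e0, e1]; rfl
    · simp
  have k2 : G.comp (seg Sq_convex (sqp e0 1) (sqp e1 1)) = ContinuousMap.const D1 y := by
    ext s
    change G _ = y
    rw [← h1 s]
    congr 1
    apply Subtype.ext
    change s 0 • ((e0 : Fin 2 → ℝ), (1 : ℝ)) + s 1 • ((e1 : Fin 2 → ℝ), (1 : ℝ)) = (s.1, (1 : ℝ))
    rw [Prod.smul_mk, Prod.smul_mk, Prod.mk_add_mk]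
    congr 1
    · funext i
      fin_cases i
      · simp [e0, e1]; rfl
      · simp [e0, e1]; rfl
    · simp only [smul_eq_mul, mul_one]
      exact stdSimplex.add_eq_one s
  have k3 : ∀ e : D1, G.comp (seg Sq_convex (sqp e 0) (sqp e 1)) =
      ⟨fun s => G (sqp e (co s)), by
        refine G.continuous.comp ?_
        refine Continuous.subtype_mk ?_ _
        exact continuous_const.prodMk (cont_coord 1)⟩ := by
    intro e
    ext s
    change G _ = G _
    congr 1
    apply Subtype.ext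
    change s 0 • ((e : Fin 2 → ℝ), (0 : ℝ)) + s 1 • ((e : Fin 2 → ℝ), (1 : ℝ)) = (e.1, s 1)
    rw [Prod.smul_mk, Prod.smul_mk, Prod.mk_add_mk]
    congr 1
    · rw [← add_smul, stdSimplex.add_eq_one, one_smul]; rfl
    · simp
  have k4 : G.comp (seg Sq_convex (sqp e0 0) (sqp e0 1)) = ea := by
    rw [k3]; ext s; exact ha s
  have k5 : G.comp (seg Sq_convex (sqp e1 0) (sqp e1 1)) = eb := by
    rw [k3]; ext s; exact hb s
  unfold Ef at c1 c2
  rw [k1, k5] at c1
  rw [k2, k4, const_zero hφ] at c2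
  linear_combination c1 - c2

end Square

end Q276.SM
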