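import Pool.Agent.Q276.SM.Top2

/-! The first cohomology of `Y₀(6 + 29 i)` with coefficients in a field of characteristic 3. -/

set_option autoImplicit false

open Topology Matrix
open scoped ComplexOrder

namespace Q276.SM

/-- the cone of positive definite hermitian matrices -/
def PDs : Set (Matrix (Fin 2) (Fin 2) ℂ) := {h | h.PosDef}

lemma PDs_convex : Convex ℝ PDs := by
  intro a ha b hb s t hs ht hst
  have e : ∀ (r : ℝ) (m : Matrix (Fin 2) (Fin 2) ℂ), r • m = ((r : ℂ)) • m := by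
    intro r m; ext i j; simp
  rcases hs.eq_or_lt with h | h
  · have : t = 1 := by linarith
    subst h; subst this
    rw [zero_smul, one_smul, zero_add]; exact hb
  · rcases ht.eq_or_lt with h' | h'
    · have : s = 1 := by linarith
      subst h'; subst this
      rw [zero_smul, one_smul, add_zero]; exact ha
    · rw [e, e]
      exact (Matrix.PosDef.smul ha (by exact_mod_cast h)).add
        (Matrix.PosDef.smul hb (by exact_mod_cast h'))

lemma det_re (h : PDs) : 0 < h.1.det.re ∧ h.1.det = (h.1.det.re : ℂ) := by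
  have h1 : 0 < h.1.det := Matrix.PosDef.det_pos h.2
  have h2 := Complex.pos_iff.1 h1
  exact ⟨h2.1, Complex.ext (by simp) (by simpa using h2.2.symm)⟩

/-- normalisation of the determinant -/
noncomputable def nrm : C(PDs, H3) where
  toFun h := ⟨(((√h.1.det.re)⁻¹ : ℝ) : ℂ) • h.1, by
    obtain ⟨h1, h2⟩ := det_re h
    have h3 : 0 < (√h.1.det.re)⁻¹ := inv_pos.2 (Real.sqrt_pos.2 h1)
    constructor
    · exact Matrix.PosDef.smul h.2 (by exact_mod_cast h3)
    · rw [Matrix.det_smul, Fintype.card_fin, h2, ← Complex.ofReal_pow, ← Complex.ofReal_mul,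
        inv_pow, Complex.ofReal_re, Real.sq_sqrt h1.le, inv_mul_cancel₀ h1.ne', Complex.ofReal_one]⟩
  continuous_toFun := by
    refine Continuous.subtype_mk ?_ _
    have h1 : Continuous (fun h : PDs => h.1.det.re) :=
      Complex.continuous_re.comp (Continuous.matrix_det continuous_subtype_val)
    have h2 : Continuous (fun h : PDs => (((√h.1.det.re)⁻¹ : ℝ) : ℂ)) := by
      refine Complex.continuous_ofReal.comp ?_
      exact (Real.continuous_sqrt.comp h1).inv₀ fun h => (Real.sqrt_pos.2 (det_re h).1).ne'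
    exact h2.smul continuous_subtype_val

/-- inclusion of hyperbolic space in the cone -/
def inc : C(H3, PDs) where
  toFun h := ⟨h.1, h.2.1⟩
  continuous_toFun := Continuous.subtype_mk continuous_val _

lemma nrm_inc (h : H3) : nrm (inc h) = h := by
  apply Subtype.ext
  change (((√h.1.det.re)⁻¹ : ℝ) : ℂ) • h.1 = h.1
  rw [h.2.2, Complex.one_re, Real.sqrt_one, inv_one, Complex.ofReal_one, one_smul]

/-- the action of `GL₂(ℤ[i])` on the cone -/
noncomputable def actP (g : GL (Fin 2) O) (h : PDs) : PDs :=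
  ⟨g.val.map GaussianInt.toComplex * h.1 * (g.val.map GaussianInt.toComplex)ᴴ, by
    refine Matrix.PosDef.mul_mul_conjTranspose_same h.2 ?_
    rw [Matrix.vecMul_injective_iff_isUnit]
    exact (toC g).isUnit⟩

lemma nrm_act (g : GL (Fin 2) O) (h : PDs) : nrm (actP g h) = toC g • nrm h := by
  apply Subtype.ext
  rw [smul_val]
  change (((√(actP g h).1.det.re)⁻¹ : ℝ) : ℂ) • (actP g h).1 =
    _ * ((((√h.1.det.re)⁻¹ : ℝ) : ℂ) • h.1) * _
  have h1 : (actP g h).1.det = h.1.det := by
    change (g.val.map GaussianInt.toComplex * h.1 * (g.val.map GaussianInt.toComplex)ᴴ).det = _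
    rw [Matrix.det_mul, Matrix.det_mul, Matrix.det_conjTranspose]
    have h2 : ‖(g.val.map GaussianInt.toComplex).det‖ = 1 := norm_det g
    have h3 : (g.val.map GaussianInt.toComplex).det *
        star (g.val.map GaussianInt.toComplex).det = 1 := by
      rw [Complex.star_def, Complex.mul_conj, Complex.normSq_eq_norm_sq, h2]; simp
    linear_combination h.1.det * h3
  rw [h1, Matrix.mul_smul, Matrix.smul_mul]
  rfl

lemma inc_act (g : GL (Fin 2) O) (x : H3) : inc (toC g • x) = actP g (inc x) := by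
  apply Subtype.ext
  change (toC g • x).1 = _
  rw [smul_val]
  rfl

/-- the projection -/
noncomputable def prj : C(H3, Y0 lev) where
  toFun := fun x => Quotient.mk (orbitSetoid lev) x
  continuous_toFun := continuous_quotient_mk'

lemma prj_eq {x y : H3} : prj x = prj y ↔ ∃ γ ∈ Gamma0 lev, toC γ • x = y := by
  change Quotient.mk (orbitSetoid lev) x = Quotient.mk (orbitSetoid lev) y ↔ _
  rw [Quotient.eq]
  rfl

lemma prj_surj : Function.Surjective prj := fun y => by
  induction y using Quotient.inductionOn with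
  | h x => exact ⟨x, rfl⟩

lemma prj_open : IsOpenMap prj := by
  intro U hU
  have h1 : IsOpen (prj ⁻¹' (prj '' U)) := by
    have h2 : prj ⁻¹' (prj '' U) = ⋃ γ ∈ Gamma0 lev, (fun x => toC γ • x) ⁻¹' U := by
      ext x
      simp only [Set.mem_preimage, Set.mem_image, Set.mem_iUnion, exists_prop]
      constructor
      · rintro ⟨u, hu, h⟩
        obtain ⟨γ, hγ, e⟩ := prj_eq.1 h.symm
        exact ⟨γ, hγ, by rw [e]; exact hu⟩
      · rintro ⟨γ, hγ, h⟩
        exact ⟨_, h, (prj_eq.2 ⟨γ, hγ, rfl⟩).symm⟩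
    rw [h2]
    exact isOpen_biUnion fun γ _ => hU.preimage (continuous_act γ)
  exact h1

/-- the map from the cone to the quotient -/
noncomputable def f0 : C(PDs, Y0 lev) := prj.comp nrm

lemma f0_inc (x : H3) : f0 (inc x) = prj x := by
  change prj (nrm (inc x)) = prj x
  rw [nrm_inc]

lemma f0_act (γ : GL (Fin 2) O) (hγ : γ ∈ Gamma0 lev) (h : PDs) : f0 (actP γ h) = f0 h := by
  change prj (nrm (actP γ h)) = prj (nrm h)
  rw [nrm_act]
  exact (prj_eq.2 ⟨γ, hγ, rfl⟩).symm

section Main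

variable {F : Type} [Field F] {φ : C(D1, Y0 lev) → F}

/-- the primitive on hyperbolic space -/
noncomputable def Psi (φ : C(D1, Y0 lev) → F) (x : H3) : F := Ef PDs_convex φ f0 (inc h0) (inc x)

lemma Ef_Psi (hφ : φ ∈ Z1 (Y0 lev) F) (x y : H3) :
    Ef PDs_convex φ f0 (inc x) (inc y) = Psi φ y - Psi φ x := by
  have := coc PDs_convex hφ f0 (inc h0) (inc x) (inc y)
  unfold Psi
  linear_combination this

/-- a continuous combination of two points -/
noncomputable def mixP (t : Set.Icc (0 : ℝ) 1) (a b : PDs) : PDs :=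
  ⟨(1 - t.1) • a.1 + t.1 • b.1, PDs_convex a.2 b.2 (by linarith [t.2.2]) t.2.1 (by ring)⟩

lemma mixP_zero (a b : PDs) : mixP 0 a b = a := by
  apply Subtype.ext
  change (1 - (0 : ℝ)) • a.1 + (0 : ℝ) • b.1 = a.1
  rw [sub_zero, one_smul, zero_smul, add_zero]

lemma mixP_one (a b : PDs) : mixP 1 a b = b := by
  apply Subtype.ext
  change (1 - (1 : ℝ)) • a.1 + (1 : ℝ) • b.1 = b.1
  rw [sub_self, one_smul, zero_smul, zero_add]

lemma mixP_seg (a b : PDs) (s : D1) : mixP (co s) a b = seg PDs_convex a b s := by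
  apply Subtype.ext
  change (1 - s 1) • a.1 + s 1 • b.1 = s 0 • a.1 + s 1 • b.1
  rw [← one_sub]

lemma mixP_act (g : GL (Fin 2) O) (t : Set.Icc (0 : ℝ) 1) (a b : PDs) :
    mixP t (actP g a) (actP g b) = actP g (mixP t a b) := by
  apply Subtype.ext
  change (1 - t.1) • (_ * a.1 * _) + t.1 • (_ * b.1 * _) =
    _ * ((1 - t.1) • a.1 + t.1 • b.1) * _
  rw [Matrix.mul_add, Matrix.add_mul, Matrix.mul_smul, Matrix.mul_smul, Matrix.smul_mul,
    Matrix.smul_mul]

lemma mixP_cont {Z : Type*} [TopologicalSpace Z] {t : Z → Set.Icc (0 : ℝ) 1} {a b : Z → PDs}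
    (ht : Continuous t) (ha : Continuous a) (hb : Continuous b) :
    Continuous fun z => mixP (t z) (a z) (b z) := by
  refine Continuous.subtype_mk ?_ _
  have h1 : Continuous fun z => (t z).1 := continuous_subtype_val.comp ht
  exact ((continuous_const.sub h1).smul (continuous_subtype_val.comp ha)).add
    (h1.smul (continuous_subtype_val.comp hb))

/-- first coordinate of the square -/
def sq1 (z : Sq) : D1 := ⟨z.1.1, z.2.1⟩

/-- second coordinate of the square -/
def sq2 (z : Sq) : Set.Icc (0 : ℝ) 1 := ⟨z.1.2, z.2.2⟩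

lemma sq1_cont : Continuous sq1 :=
  Continuous.subtype_mk (continuous_fst.comp continuous_subtype_val) _

lemma sq2_cont : Continuous sq2 :=
  Continuous.subtype_mk (continuous_snd.comp continuous_subtype_val) _

/-- The value of a cocycle on the image of a path in hyperbolic space. -/
lemma path_lift (hφ : φ ∈ Z1 (Y0 lev) F) (p : C(D1, H3)) :
    φ (prj.comp p) = Psi φ (p e1) - Psi φ (p e0) := by
  let G : C(Sq, Y0 lev) := ⟨fun z => f0 (mixP (sq2 z) (inc (p (sq1 z))) (inc h0)),
    f0.continuous.comp (mixP_cont sq2_cont (inc.continuous.comp (p.continuous.comp sq1_cont))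
      continuous_const)⟩
  have h := square hφ (prj.comp p) G (prj h0) (fun s => by
      change f0 (mixP 0 (inc (p s)) (inc h0)) = prj (p s)
      rw [mixP_zero, f0_inc]) (fun s => by
      change f0 (mixP 1 (inc (p s)) (inc h0)) = prj h0
      rw [mixP_one, f0_inc])
    (f0.comp (seg PDs_convex (inc (p e0)) (inc h0)))
    (f0.comp (seg PDs_convex (inc (p e1)) (inc h0)))
    (fun s => by
      change f0 (mixP (co s) (inc (p e0)) (inc h0)) = _
      rw [mixP_seg]; rfl)
    (fun s => by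
      change f0 (mixP (co s) (inc (p e1)) (inc h0)) = _
      rw [mixP_seg]; rfl)
  rw [h]
  change Ef PDs_convex φ f0 (inc (p e0)) (inc h0) - Ef PDs_convex φ f0 (inc (p e1)) (inc h0) = _
  rw [Ef_Psi hφ, Ef_Psi hφ]
  ring

lemma Psi_shift (hφ : φ ∈ Z1 (Y0 lev) F) (γ : GL (Fin 2) O) (hγ : γ ∈ Gamma0 lev) :
    ∃ c : F, ∀ x, Psi φ (toC γ • x) = c + Psi φ x := by
  refine ⟨Psi φ (toC γ • h0) - Psi φ h0, fun x => ?_⟩
  let p : C(D1, H3) := nrm.comp (seg PDs_convex (inc h0) (inc x))
  let p' : C(D1, H3) := ⟨fun s => toC γ • p s, (continuous_act γ).comp p.continuous⟩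
  have h1 := path_lift hφ p
  have h2 := path_lift hφ p'
  have h3 : prj.comp p' = prj.comp p := by
    ext s
    exact (prj_eq.2 ⟨γ, hγ, rfl⟩).symm
  have p0 : p e0 = h0 := by
    change nrm (seg PDs_convex (inc h0) (inc x) e0) = h0
    rw [seg_e0, nrm_inc]
  have p1 : p e1 = x := by
    change nrm (seg PDs_convex (inc h0) (inc x) e1) = x
    rw [seg_e1, nrm_inc]
  have p0' : p' e0 = toC γ • h0 := by
    change toC γ • p e0 = _
    rw [p0]
  have p1' : p' e1 = toC γ • x := by
    change toC γ • p e1 = _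
    rw [p1]
  rw [h3, h1, p0, p1, p0', p1'] at h2
  linear_combination -h2

lemma Psi_inv (h3 : (3 : F) = 0) (hφ : φ ∈ Z1 (Y0 lev) F) (γ : GL (Fin 2) O)
    (hγ : γ ∈ Gamma0 lev) (x : H3) : Psi φ (toC γ • x) = Psi φ x := by
  refine invariant (fun a => ?_) (Psi φ) (fun γ hγ => Psi_shift hφ γ hγ) γ hγ x
  rw [nsmul_eq_mul]
  push_cast
  rw [h3, zero_mul]

/-- the primitive on the quotient -/
noncomputable def psiY (h3 : (3 : F) = 0) (hφ : φ ∈ Z1 (Y0 lev) F) : Y0 lev → F :=
  Quotient.lift (Psi φ) (by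
    rintro x y ⟨γ, hγ, rfl⟩
    exact (Psi_inv h3 hφ γ hγ x).symm)

lemma psiY_prj (h3 : (3 : F) = 0) (hφ : φ ∈ Z1 (Y0 lev) F) (x : H3) :
    psiY h3 hφ (prj x) = Psi φ x := rfl

/-- paths in the image of a good neighbourhood -/
lemma local_path (h3 : (3 : F) = 0) (hφ : φ ∈ Z1 (Y0 lev) F) (x : H3) (B : Set H3)
    (hB : IsOpen B) (hBx : ∀ g : GL (Fin 2) O, (∃ b ∈ B, toC g • b ∈ B) → toC g • x = x)
    (r : C(D1, Y0 lev)) (hr : ∀ s, r s ∈ prj '' B) :
    φ r = psiY h3 hφ (r e1) - psiY h3 hφ (r e0) := by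
  -- the homotopy on the image of `B`
  let N : Set (Y0 lev) := prj '' B
  have hch : ∀ y : N, ∃ b : H3, b ∈ B ∧ prj b = y.1 := fun y => y.2
  choose c hc1 hc2 using hch
  let Hf : N × Set.Icc (0 : ℝ) 1 → Y0 lev := fun z => f0 (mixP z.2 (inc (c z.1)) (inc x))
  have hH : ∀ (b : H3) (hb : b ∈ B) (t : Set.Icc (0 : ℝ) 1),
      Hf (⟨prj b, b, hb, rfl⟩, t) = f0 (mixP t (inc b) (inc x)) := by
    intro b hb t
    have e1 := hc2 ⟨prj b, b, hb, rfl⟩
    obtain ⟨γ, hγ, e⟩ := prj_eq.1 e1.symm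
    have hx : toC γ • x = x := hBx γ ⟨b, hb, by rw [e]; exact hc1 _⟩
    change f0 (mixP t (inc (c ⟨prj b, b, hb, rfl⟩)) (inc x)) = _
    rw [← e]
    conv_lhs => rw [← hx]
    rw [inc_act, inc_act, mixP_act, f0_act γ hγ]
  have hHc : Continuous Hf := by
    let κ : B × Set.Icc (0 : ℝ) 1 → N × Set.Icc (0 : ℝ) 1 :=
      fun z => (⟨prj z.1.1, z.1.1, z.1.2, rfl⟩, z.2)
    have k0 : IsOpenQuotientMap (fun b : B => (⟨prj b.1, b.1, b.2, rfl⟩ : N)) := by
      refine ⟨?_, ?_, ?_⟩
      · rintro ⟨y, b, hb, rfl⟩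
        exact ⟨⟨b, hb⟩, rfl⟩
      · exact Continuous.subtype_mk (prj.continuous.comp continuous_subtype_val) _
      · intro U hU
        obtain ⟨U', hU', rfl⟩ := isOpen_induced_iff.1 hU
        refine isOpen_induced_iff.2 ⟨prj '' (U' ∩ B), prj_open _ (hU'.inter hB), ?_⟩
        ext ⟨y, hy⟩
        simp only [Set.mem_preimage, Set.mem_image, Set.mem_inter_iff]
        constructor
        · rintro ⟨b, ⟨hb1, hb2⟩, e⟩
          exact ⟨⟨b, hb2⟩, hb1, Subtype.ext e⟩
        · rintro ⟨b, hb, e⟩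
          exact ⟨b.1, ⟨hb, b.2⟩, congrArg Subtype.val e⟩
    have k1 : IsOpenQuotientMap κ := k0.prodMap IsOpenQuotientMap.id
    rw [k1.isQuotientMap.continuous_iff]
    have k2 : Hf ∘ κ = fun z => f0 (mixP z.2 (inc z.1.1) (inc x)) := by
      funext z
      exact hH z.1.1 z.1.2 z.2
    rw [k2]
    exact f0.continuous.comp (mixP_cont continuous_snd
      (inc.continuous.comp (continuous_subtype_val.comp continuous_fst)) continuous_const)
  let rN : D1 → N := fun s => ⟨r s, hr s⟩
  have hrN : Continuous rN := Continuous.subtype_mk r.continuous _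
  let G : C(Sq, Y0 lev) := ⟨fun z => Hf (rN (sq1 z), sq2 z),
    hHc.comp ((hrN.comp sq1_cont).prodMk sq2_cont)⟩
  have h := square hφ r G (prj x) (fun s => by
      change f0 (mixP 0 (inc (c (rN s))) (inc x)) = r s
      rw [mixP_zero, f0_inc]; exact hc2 _) (fun s => by
      change f0 (mixP 1 (inc (c (rN s))) (inc x)) = prj x
      rw [mixP_one, f0_inc])
    (f0.comp (seg PDs_convex (inc (c (rN e0))) (inc x)))
    (f0.comp (seg PDs_convex (inc (c (rN e1))) (inc x)))
    (fun s => by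
      change f0 (mixP (co s) (inc (c (rN e0))) (inc x)) = _
      rw [mixP_seg]; rfl)
    (fun s => by
      change f0 (mixP (co s) (inc (c (rN e1))) (inc x)) = _
      rw [mixP_seg]; rfl)
  rw [h]
  change Ef PDs_convex φ f0 (inc (c (rN e0))) (inc x) -
    Ef PDs_convex φ f0 (inc (c (rN e1))) (inc x) = _
  rw [Ef_Psi hφ, Ef_Psi hφ]
  have q1 : psiY h3 hφ (r e1) = Psi φ (c (rN e1)) := by
    have := hc2 (rN e1)
    change prj (c (rN e1)) = r e1 at this
    rw [← this, psiY_prj]
  have q0 : psiY h3 hφ (r e0) = Psi φ (c (rN e0)) := by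
    have := hc2 (rN e0)
    change prj (c (rN e0)) = r e0 at this
    rw [← this, psiY_prj]
  rw [q1, q0]
  ring

/-- Every cocycle is a coboundary. -/
theorem cocycle_cobound (h3 : (3 : F) = 0) (hφ : φ ∈ Z1 (Y0 lev) F) : φ ∈ B1 (Y0 lev) F := by
  refine ⟨psiY h3 hφ, fun q => ?_⟩
  have hD : Convex ℝ (stdSimplex ℝ (Fin 2)) := convex_stdSimplex ℝ (Fin 2)
  -- local statement
  have hloc : ∀ a : D1, ∀ᶠ b in 𝓝 a,
      Ef hD φ q a b = psiY h3 hφ (q b) - psiY h3 hφ (q a) := by
    intro a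
    obtain ⟨x, hx⟩ := prj_surj (q a)
    obtain ⟨B, hB, hxB, hBx⟩ := exists_nhd x
    have hN : IsOpen (q ⁻¹' (prj '' B)) := (prj_open B hB).preimage q.continuous
    have haN : a ∈ q ⁻¹' (prj '' B) := ⟨x, hxB, hx⟩
    obtain ⟨ε, hε, hball⟩ := Metric.isOpen_iff.1 hN a haN
    filter_upwards [Metric.ball_mem_nhds a hε] with b hb
    have hseg : ∀ s, (q.comp (seg hD a b)) s ∈ prj '' B := by
      intro s
      apply hball
      rw [Metric.mem_ball, Subtype.dist_eq]
      change dist (s 0 • a.1 + s 1 • b.1) a.1 < ε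
      have e : s 0 • a.1 + s 1 • b.1 - a.1 = s 1 • (b.1 - a.1) := by
        have := one_sub s
        rw [this, sub_smul, one_smul, smul_sub]; abel
      rw [dist_eq_norm, e, norm_smul, Real.norm_eq_abs, abs_of_nonneg (stdSimplex.zero_le s 1),
        ← dist_eq_norm]
      have h1 : dist b.1 a.1 < ε := hb
      have h2 := stdSimplex.le_one s 1
      have h3 := stdSimplex.zero_le s 1
      have h4 : 0 ≤ dist b.1 a.1 := dist_nonneg
      nlinarith
    have := local_path h3 hφ x B hB hBx (q.comp (seg hD a b)) hseg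
    change φ (q.comp (seg hD a b)) = psiY h3 hφ (q b) - psiY h3 hφ (q a)
    rw [this]
    change psiY h3 hφ (q (seg hD a b e1)) - psiY h3 hφ (q (seg hD a b e0)) = _
    rw [seg_e0, seg_e1]
  -- a locally constant function
  let d : D1 → F := fun b => Ef hD φ q e0 b - psiY h3 hφ (q b)
  have hd : IsLocallyConstant d := by
    rw [IsLocallyConstant.iff_eventually_eq]
    intro a
    filter_upwards [hloc a] with b hb
    have := coc hD hφ q e0 a b
    simp only [d]
    linear_combination hb - this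
  have h1 : d e1 = d e0 := by
    obtain ⟨c, hc⟩ := hd.exists_eq_const
    rw [hc]
    rfl
  simp only [d] at h1
  rw [Ef_self hD hφ] at h1
  have h2 : Ef hD φ q e0 e1 = φ q := by
    unfold Ef
    congr 1
    ext s
    change q (seg hD e0 e1 s) = q s
    congr 1
    apply Subtype.ext
    change s 0 • (e0 : Fin 2 → ℝ) + s 1 • (e1 : Fin 2 → ℝ) = s.1
    funext i
    fin_cases i
    · simp [e0, e1]; rfl
    · simp [e0, e1]; rfl
  rw [h2] at h1
  change φ q = psiY h3 hφ (q e1) - psiY h3 hφ (q e0)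
  linear_combination h1

theorem H1_subsingleton (F : Type) [Field F] (h3 : (3 : F) = 0) :
    Subsingleton (H1 (Y0 lev) F) := by
  have h : (B1 (Y0 lev) F).submoduleOf (Z1 (Y0 lev) F) = ⊤ := by
    rw [eq_top_iff]
    rintro ⟨φ, hφ⟩ _
    exact cocycle_cobound h3 hφ
  exact Submodule.Quotient.subsingleton_iff.2 h

end Main

end Q276.SM
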