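import Pool.Agent.Q276.SM.Irr
import Pool.Agent.Q276.SM.Top3

/-! Transport to the definitions of `Base`. -/

set_option autoImplicit false

open Matrix

namespace Q276.SM

/-- the representation -/
noncomputable def rhoN : GalK →* GL2 := rho

lemma rhoN_apply (σ : GalK) : rhoN σ = rho σ := rfl

theorem rhoN_cont : IsContinuous rhoN := rho_cont

theorem rhoN_irred : IsIrreducible rhoN := rho_irred

theorem rhoN_det (σ : GalK) : (rhoN σ).val.det = 1 := rho_det σ

/-- the embedding -/
noncomputable def embQ : A →+* Qbar := emb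

lemma embQ_mem (a : A) : embQ a ∈ intSubring rhoN :=
  ⟨emb_int a, fun σ h => mem_L.1 a.1.2 σ h⟩

/-- the map between the two models -/
noncomputable def toN : A →+* IntRing rhoN := embQ.codRestrict (intSubring rhoN) embQ_mem

lemma incl_toN (a : A) : incl (toN a) = emb a := rfl

lemma incl_inj {x y : IntRing rhoN} (h : incl x = incl y) : x = y := Subtype.ext h

lemma incl_add (x y : IntRing rhoN) : incl (x + y) = incl x + incl y := rfl

/-- The two models of the ring of integers. -/
noncomputable def eqv : A ≃+* IntRing rhoN :=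
  RingEquiv.ofBijective toN (by
    constructor
    · intro a b h
      apply emb_inj
      rw [← incl_toN, ← incl_toN, h]
    · intro x
      obtain ⟨a, ha⟩ := exists_A (x := incl x) (mem_L.2 x.2.2) x.2.1
      exact ⟨a, incl_inj ha⟩)

lemma eqv_val (a : A) : incl (eqv a) = emb a := rfl

/-- The ideal of the other model. -/
noncomputable def cmp (P : Ideal (IntRing rhoN)) : Ideal A := P.comap (eqv : A →+* IntRing rhoN)

lemma mem_cmp {P : Ideal (IntRing rhoN)} {a : A} : a ∈ cmp P ↔ eqv a ∈ P := Iff.rfl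

lemma mem_cmp_pow {P : Ideal (IntRing rhoN)} {n : ℕ} {a : A} : a ∈ cmp P ^ n ↔ eqv a ∈ P ^ n := by
  have h : cmp P ^ n = cmp (P ^ n) := by
    have h1 : ∀ Q : Ideal (IntRing rhoN), cmp Q = Q.map (eqv.symm : IntRing rhoN →+* A) := by
      intro Q
      exact (Ideal.map_symm (I := Q) eqv).symm
    rw [h1, h1, Ideal.map_pow]
  rw [h, mem_cmp]

lemma RamSet_eq (P : Ideal (IntRing rhoN)) (n : ℕ) : RamSet rhoN P n = ramSet rho (cmp P) n := by
  ext σ
  change _ ↔ (show GK from σ) ∈ ramSet rho (cmp P) n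
  rw [mem_ramSet]
  constructor
  · intro h x
    obtain ⟨y, hy, e⟩ := h (eqv x)
    rw [mem_cmp_pow]
    have : eqv (sA σ x - x) = y := by
      have h2 : eqv (sA σ x) = eqv x + y := by
        apply incl_inj
        rw [incl_add, ← e, eqv_val, eqv_val]
        exact emb_sA σ x
      rw [map_sub, h2]; ring
    rw [this]; exact hy
  · intro h x
    obtain ⟨a, rfl⟩ := eqv.surjective x
    refine ⟨eqv (sA σ a - a), mem_cmp_pow.1 (h a), ?_⟩
    rw [← incl_add, ← map_add, eqv_val, eqv_val]
    have h2 : a + (sA σ a - a) = sA σ a := by ring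
    rw [h2]
    exact (emb_sA σ a).symm

lemma fixed_eq (S : Set GK) : fixedSpace rhoN S = fixedVectors rho S := rfl

lemma Cond_eq (P : Ideal (IntRing rhoN)) :
    ConductorExponent rhoN P = conductorExponent rho (cmp P) := by
  unfold ConductorExponent conductorExponent
  apply finsum_congr
  intro n
  rw [RamSet_eq, RamSet_eq]
  rfl

lemma under_cmp (P : Ideal (IntRing rhoN)) : (cmp P).under O = P.comap (baseIncl rhoN) := by
  ext x
  change eqv (algebraMap O A x) ∈ P ↔ baseIncl rhoN x ∈ P
  have : eqv (algebraMap O A x) = baseIncl rhoN x := by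
    apply incl_inj
    rw [eqv_val, emb_algebraMap]
    rfl
  rw [this]

lemma cmp_prime {P : Ideal (IntRing rhoN)} (h : P.IsPrime) : (cmp P).IsPrime :=
  Ideal.IsPrime.comap _

lemma three_cmp {P : Ideal (IntRing rhoN)} : (3 : A) ∈ cmp P ↔ (3 : IntRing rhoN) ∈ P := by
  rw [mem_cmp, map_ofNat]

theorem rhoN_serre : IsSerreConductor rhoN lev := by
  refine ⟨rho_cond.1, rho_cond.2.1, ?_⟩
  intro P hP hbot h3
  rw [Cond_eq, ← under_cmp]
  refine rho_cond.2.2 (cmp P) (cmp_prime hP) ?_ (fun h => h3 (three_cmp.1 h))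
  intro h
  apply hbot
  rw [eq_bot_iff]
  intro x hx
  obtain ⟨a, rfl⟩ := eqv.surjective x
  have : a ∈ cmp P := hx
  rw [h, Ideal.mem_bot] at this
  rw [this, map_zero]
  exact Ideal.zero_mem _

theorem rhoN_three : IsUnramifiedAboveThree rhoN := by
  intro P hP h3 σ hσ
  rw [RamSet_eq] at hσ
  exact rho_unram (cmp P) (cmp_prime hP) (three_cmp.2 h3) σ hσ

theorem HOne_subsingleton : Subsingleton (HOne (Y0 lev) Fbar) := by
  have h3 : ((3 : ℕ) : F3bar) = 0 := by
    rw [← map_natCast (algebraMap (ZMod 3) F3bar)]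
    have : ((3 : ℕ) : ZMod 3) = 0 := by decide
    rw [this, map_zero]
  exact (H1_subsingleton F3bar (by exact_mod_cast h3) : Subsingleton (H1 (Y0 lev) F3bar))

end Q276.SM
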